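import Mathlib

set_option autoImplicit false

open Set Topology

namespace Pool.Agent.Helper879.SS

/-! ### group part -/

/-- Klein four group, written multiplicatively -/
abbrev V : Type := Multiplicative (ZMod 2 × ZMod 2)

/-- the free product of two Klein four groups -/
abbrev G : Type := Monoid.CoprodI (fun _ : Bool => V)

/-- exchange of the two generators of the Klein four group -/
def sw : V →* V where
  toFun x := Multiplicative.ofAdd (x.toAdd.2, x.toAdd.1)
  map_one' := rfl
  map_mul' _ _ := rfl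

/-- `sw` on both factors of the free product -/
def nu : G →* G := Monoid.CoprodI.lift (fun i => (Monoid.CoprodI.of (i := i)).comp sw)

theorem sw_one : ∀ x : V, sw x = 1 → x = 1 := by decide

theorem sw_fix : ∀ x : V, x ≠ 1 → sw x = x →
    x = Multiplicative.ofAdd ((1 : ZMod 2), (1 : ZMod 2)) := by decide

/-- `sw` on syllables -/
def swS (s : Σ _ : Bool, V) : Σ _ : Bool, V := ⟨s.1, sw s.2⟩

theorem map_fix {α : Type} (F : α → α) : ∀ l : List α, l.map F = l → ∀ s ∈ l, F s = s := by
  intro l
  induction l with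
  | nil => intro _ s hs; simp at hs
  | cons a l ih =>
    intro h s hs
    rw [List.map_cons, List.cons.injEq] at h
    rcases List.mem_cons.1 hs with rfl | hs
    · exact h.1
    · exact ih h.2 s hs

/-- `sw` on words -/
def swW (w : Monoid.CoprodI.Word (fun _ : Bool => V)) :
    Monoid.CoprodI.Word (fun _ : Bool => V) where
  toList := w.toList.map swS
  ne_one := by
    intro l hl
    obtain ⟨s, hs, rfl⟩ := List.mem_map.1 hl
    intro h
    exact w.ne_one s hs (sw_one _ h)
  chain_ne := by
    rw [List.isChain_map]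
    exact w.chain_ne

theorem swW_prod (w : Monoid.CoprodI.Word (fun _ : Bool => V)) :
    (swW w).prod = nu w.prod := by
  unfold Monoid.CoprodI.Word.prod swW
  rw [map_list_prod, List.map_map, List.map_map]
  congr 1

theorem agree_word {N : Type} [Monoid N] (f1 f2 : G →* N)
    (w : Monoid.CoprodI.Word (fun _ : Bool => V))
    (h : ∀ s ∈ w.toList, f1 (Monoid.CoprodI.of (M := fun _ : Bool => V) (i := s.1) s.2) =
      f2 (Monoid.CoprodI.of (M := fun _ : Bool => V) (i := s.1) s.2)) :
    f1 w.prod = f2 w.prod := by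
  unfold Monoid.CoprodI.Word.prod
  rw [map_list_prod, map_list_prod, List.map_map, List.map_map]
  congr 1
  exact List.map_congr_left fun s hs => h s hs

/-- J1 -/
theorem fixed_agree {N : Type} [Monoid N] (f1 f2 : G →* N)
    (h : ∀ i : Bool, f1 (Monoid.CoprodI.of (M := fun _ : Bool => V) (i := i)
        (Multiplicative.ofAdd ((1 : ZMod 2), (1 : ZMod 2))))
      = f2 (Monoid.CoprodI.of (M := fun _ : Bool => V) (i := i)
        (Multiplicative.ofAdd ((1 : ZMod 2), (1 : ZMod 2)))))
    (g : G) (hg : nu g = g) : f1 g = f2 g := by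
  classical
  obtain ⟨w, rfl⟩ : ∃ w : Monoid.CoprodI.Word (fun _ : Bool => V), w.prod = g :=
    ⟨Monoid.CoprodI.Word.equiv g, Monoid.CoprodI.Word.equiv.symm_apply_apply g⟩
  have h1 : (swW w).prod = w.prod := by rw [swW_prod, hg]
  have h2 : swW w = w :=
    (Monoid.CoprodI.Word.equiv (M := fun _ : Bool => V)).symm.injective h1
  have h3 : w.toList.map swS = w.toList := congrArg Monoid.CoprodI.Word.toList h2
  refine agree_word f1 f2 w fun s hs => ?_
  have h4 := map_fix swS w.toList h3 s hs
  have h5 := w.ne_one s hs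
  obtain ⟨i, x⟩ := s
  have h6 : sw x = x := by
    have : (⟨i, sw x⟩ : Σ _ : Bool, V) = ⟨i, x⟩ := h4
    simpa using this
  have h7 := sw_fix x h5 h6
  subst h7
  exact h i

/-- homotopy along the grid -/
theorem grid {Γ : Type} [Group Γ] (H W D : ℕ → ℕ → Γ)
    (h1 : ∀ i j, H i j * W i (j + 1) = D i j) (h2 : ∀ i j, W i j * H (i + 1) j = D i j)
    (hd : ∀ i, D i i = 1) (m : ℕ) :
    ((List.range m).map (fun j => H 0 j)).prod * ((List.range m).map (fun i => W i m)).prod = 1 := by
  have key : ∀ j n : ℕ, ((List.range n).map (fun i => W i j)).prod * H n j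
      = H 0 j * ((List.range n).map (fun i => W i (j + 1))).prod := by
    intro j n
    induction n with
    | zero => simp
    | succ n ih =>
      rw [List.range_succ, List.map_append, List.prod_append, List.map_append, List.prod_append]
      simp only [List.map_cons, List.map_nil, List.prod_cons, List.prod_nil, mul_one]
      rw [mul_assoc, h2, ← h1, ← mul_assoc, ih, mul_assoc]
  induction m with
  | zero => simp
  | succ n ih =>
    rw [List.range_succ, List.map_append, List.prod_append, List.map_append, List.prod_append]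
    simp only [List.map_cons, List.map_nil, List.prod_cons, List.prod_nil, mul_one]
    rw [mul_assoc, ← mul_assoc (H 0 n), ← key, mul_assoc, h1, ← mul_assoc, ih, one_mul, hd]

/-- `u` is constant on the block with corner `(i, j)` -/
def Const (u : ℕ → ℕ → ZMod 2) (i j : ℕ) : Prop :=
  u (i + 1) j = u i j ∧ u i (j + 1) = u i j ∧ u (i + 1) (j + 1) = u i j

/-- elementary step -/
def A (x y : ZMod 2 × ZMod 2) : G :=
  Monoid.CoprodI.of (M := fun _ : Bool => V) (i := false) (Multiplicative.ofAdd x) *
    Monoid.CoprodI.of (M := fun _ : Bool => V) (i := true) (Multiplicative.ofAdd y)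

theorem A_mul (x y x' y' : ZMod 2 × ZMod 2) (h : (x = 0 ∧ x' = 0) ∨ (y = 0 ∧ y' = 0)) :
    A x y * A x' y' = A (x + x') (y + y') := by
  unfold A
  rcases h with ⟨rfl, rfl⟩ | ⟨rfl, rfl⟩
  · simp [ofAdd_add]
  · simp [ofAdd_add]

/-- column exchange -/
def kcol : G →* G := Monoid.CoprodI.lift (fun i => match i with
  | false => Monoid.CoprodI.of (M := fun _ : Bool => V) (i := true)
  | true => Monoid.CoprodI.of (M := fun _ : Bool => V) (i := false))

/-- row exchange -/
def krow : G →* G := Monoid.CoprodI.lift (fun i => match i with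
  | false => (Monoid.CoprodI.of (M := fun _ : Bool => V) (i := true)).comp sw
  | true => (Monoid.CoprodI.of (M := fun _ : Bool => V) (i := false)).comp sw)

theorem krow_kcol (g : G) : krow (kcol g) = nu g := by
  have : krow.comp kcol = nu := by
    apply Monoid.CoprodI.ext_hom
    intro i
    cases i <;> ext x <;> simp [krow, kcol, nu]
  rw [← this]; rfl

theorem kcol_A (x y : ZMod 2 × ZMod 2) (h : x = 0 ∨ y = 0) : kcol (A x y) = A y x := by
  unfold A kcol
  rcases h with rfl | rfl <;> simp

theorem krow_A (x y : ZMod 2 × ZMod 2) (h : x = 0 ∨ y = 0) :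
    krow (A x y) = A y.swap x.swap := by
  unfold A krow
  rcases h with rfl | rfl
  · simp [sw, Prod.swap]
    exact map_one _
  · simp [sw, Prod.swap]
    exact map_one _

/-- the state space -/
abbrev St : Type := ZMod 2 × ZMod 2 × ZMod 2

/-- flip of the first coordinate, counted when the second one is `1` -/
def pA (x : ZMod 2) : Equiv.Perm St where
  toFun s := (s.1 + x, s.2.1, s.2.2 + x * s.2.1)
  invFun s := (s.1 + x, s.2.1, s.2.2 + x * s.2.1)
  left_inv := by revert x; decide
  right_inv := by revert x; decide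

/-- flip of the second coordinate -/
def pB (x : ZMod 2) : Equiv.Perm St where
  toFun s := (s.1, s.2.1 + x, s.2.2)
  invFun s := (s.1, s.2.1 + x, s.2.2)
  left_inv := by revert x; decide
  right_inv := by revert x; decide

theorem pA_add (x y : ZMod 2) : pA (x + y) = pA x * pA y := by
  ext1 s; revert x y s; decide

theorem pB_add (x y : ZMod 2) : pB (x + y) = pB x * pB y := by
  ext1 s; revert x y s; decide

theorem pA_zero : pA 0 = 1 := by
  ext1 s; revert s; decide

theorem pB_zero : pB 0 = 1 := by
  ext1 s; revert s; decide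

/-- column action -/
def Tcol : G →* Equiv.Perm St := Monoid.CoprodI.lift (fun i => match i with
  | false => { toFun := fun x => pA x.toAdd.1, map_one' := pA_zero, map_mul' := fun _ _ => pA_add _ _ }
  | true => { toFun := fun x => pB x.toAdd.2, map_one' := pB_zero, map_mul' := fun _ _ => pB_add _ _ })

/-- row action -/
def Trow : G →* Equiv.Perm St := Monoid.CoprodI.lift (fun i => match i with
  | false => { toFun := fun x => pA x.toAdd.1, map_one' := pA_zero, map_mul' := fun _ _ => pA_add _ _ }
  | true => { toFun := fun x => pB x.toAdd.1, map_one' := pB_zero, map_mul' := fun _ _ => pB_add _ _ })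

theorem Tcol_A (x y : ZMod 2 × ZMod 2) : Tcol (A x y) = pA x.1 * pB y.2 := by
  simp [Tcol, A]

theorem Trow_A (x y : ZMod 2 × ZMod 2) : Trow (A x y) = pA x.1 * pB y.1 := by
  simp [Trow, A]

theorem T_agree (g : G) (hg : nu g = g) : Tcol g = Trow g := by
  apply fixed_agree Tcol Trow _ g hg
  intro i
  cases i <;> simp [Tcol, Trow]

theorem path_act (T : G →* Equiv.Perm St) (a : ℕ → G) (σ : ℕ → St)
    (h : ∀ t, T (a t) (σ (t + 1)) = σ t) (m : ℕ) :
    T ((List.range m).map a).prod (σ m) = σ 0 := by
  induction m with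
  | zero => simp
  | succ n ih =>
    rw [List.range_succ, List.map_append, List.prod_append]
    simp only [List.map_cons, List.map_nil, List.prod_cons, List.prod_nil, mul_one]
    rw [map_mul, Equiv.Perm.mul_apply, h, ih]

section steps

variable (a b c d : ℕ → ℕ → ZMod 2)

/-- horizontal step -/
def Hh (i j : ℕ) : G := A (a i (j + 1) - a i j, b i (j + 1) - b i j)
  (c i (j + 1) - c i j, d i (j + 1) - d i j)

/-- vertical step -/
def Ww (i j : ℕ) : G := A (a (i + 1) j - a i j, b (i + 1) j - b i j)
  (c (i + 1) j - c i j, d (i + 1) j - d i j)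

/-- diagonal step -/
def Dd (i j : ℕ) : G := A (a (i + 1) (j + 1) - a i j, b (i + 1) (j + 1) - b i j)
  (c (i + 1) (j + 1) - c i j, d (i + 1) (j + 1) - d i j)

theorem Hh_Ww (hs : ∀ i j, (Const a i j ∧ Const b i j) ∨ (Const c i j ∧ Const d i j)) (i j : ℕ) :
    Hh a b c d i j * Ww a b c d i (j + 1) = Dd a b c d i j := by
  unfold Hh Ww Dd
  rw [A_mul]
  · congr 1 <;> ext <;> simp
  · rcases hs i j with ⟨⟨h1, h2, h3⟩, ⟨h4, h5, h6⟩⟩ | ⟨⟨h1, h2, h3⟩, ⟨h4, h5, h6⟩⟩
    · left; simp [h1, h2, h3, h4, h5, h6]
    · right; simp [h1, h2, h3, h4, h5, h6]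

theorem Ww_Hh (hs : ∀ i j, (Const a i j ∧ Const b i j) ∨ (Const c i j ∧ Const d i j)) (i j : ℕ) :
    Ww a b c d i j * Hh a b c d (i + 1) j = Dd a b c d i j := by
  unfold Hh Ww Dd
  rw [A_mul]
  · congr 1 <;> ext <;> simp
  · rcases hs i j with ⟨⟨h1, h2, h3⟩, ⟨h4, h5, h6⟩⟩ | ⟨⟨h1, h2, h3⟩, ⟨h4, h5, h6⟩⟩
    · left; simp [h1, h2, h3, h4, h5, h6]
    · right; simp [h1, h2, h3, h4, h5, h6]

end steps

theorem prod_ofAdd (f : ℕ → ZMod 2) (m : ℕ) :
    ((List.range m).map (fun j => Multiplicative.ofAdd (f j))).prod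
        = Multiplicative.ofAdd (∑ j ∈ Finset.range m, f j) := by
  induction m with
  | zero => simp
  | succ n ih =>
    rw [List.range_succ, List.map_append, List.prod_append, Finset.sum_range_succ, ih, ofAdd_add]
    simp

/-- the discrete theorem -/
theorem discrete (m : ℕ) (u : ℕ → ℕ → ZMod 2) (e : ZMod 2)
    (hp1 : ∀ i j, u (i + 2 * m) j = u i j) (hp2 : ∀ i j, u i (j + 2 * m) = u i j)
    (hd : ∀ i, u i i = 0) (he : ∀ i, u i (i + m) = e)
    (hrow : ∀ i j, Const u i j ∨ Const u (i + m) j)
    (hcol : ∀ i j, Const u i j ∨ Const u i (j + m)) :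
    ∑ i ∈ Finset.range m, (u (i + 1) 0 - u i 0) * u (i + m) 0
      = ∑ j ∈ Finset.range m, (u 0 (j + 1) - u 0 j) * u 0 (j + m) := by
  have hp1' : ∀ i j, u (i + m + m) j = u i j := by
    intro i j; rw [add_assoc, ← two_mul]; exact hp1 i j
  have hp2' : ∀ i j, u i (j + m + m) = u i j := by
    intro i j; rw [add_assoc, ← two_mul]; exact hp2 i j
  have hmm1 : ∀ j, u (m + m) j = u 0 j := by
    intro j; have := hp1' 0 j; simpa using this
  have hmm2 : ∀ i, u i (m + m) = u i 0 := by
    intro i; have := hp2' i 0; simpa using this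
  have he' : ∀ i, u (i + m) i = e := by
    intro i
    have := he (i + m)
    rwa [hp2'] at this
  set b : ℕ → ℕ → ZMod 2 := fun i j => u (i + m) (j + m) with hb
  set c : ℕ → ℕ → ZMod 2 := fun i j => u i (j + m) with hc
  set d : ℕ → ℕ → ZMod 2 := fun i j => u (i + m) j with hdd
  have Cc : ∀ i j, Const u i (j + m) → Const c i j := by
    rintro i j ⟨h1, h2, h3⟩
    refine ⟨h1, ?_, ?_⟩
    · show u i (j + 1 + m) = u i (j + m)
      rw [Nat.add_right_comm]; exact h2
    · show u (i + 1) (j + 1 + m) = u i (j + m)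
      rw [Nat.add_right_comm]; exact h3
  have Cd : ∀ i j, Const u (i + m) j → Const d i j := by
    rintro i j ⟨h1, h2, h3⟩
    refine ⟨?_, h2, ?_⟩
    · show u (i + 1 + m) j = u (i + m) j
      rw [Nat.add_right_comm]; exact h1
    · show u (i + 1 + m) (j + 1) = u (i + m) j
      rw [Nat.add_right_comm]; exact h3
  have Cb : ∀ i j, Const u (i + m) (j + m) → Const b i j := by
    rintro i j ⟨h1, h2, h3⟩
    refine ⟨?_, ?_, ?_⟩
    · show u (i + 1 + m) (j + m) = u (i + m) (j + m)
      rw [Nat.add_right_comm]; exact h1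
    · show u (i + m) (j + 1 + m) = u (i + m) (j + m)
      rw [Nat.add_right_comm j]; exact h2
    · show u (i + 1 + m) (j + 1 + m) = u (i + m) (j + m)
      rw [Nat.add_right_comm i, Nat.add_right_comm j]; exact h3
  have hs : ∀ i j, (Const u i j ∧ Const b i j) ∨ (Const c i j ∧ Const d i j) := by
    intro i j
    have q1 := hrow i j
    have q2 := hcol i j
    have q3 := hrow i (j + m)
    have q4 := hcol (i + m) j
    have r1 := Cc i j
    have r2 := Cd i j
    have r3 := Cb i j
    tauto
  have hD : ∀ i, Dd u b c d i i = 1 := by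
    intro i
    have e1 : b (i + 1) (i + 1) = 0 := hd _
    have e2 : b i i = 0 := hd _
    have e3 : c (i + 1) (i + 1) = e := he _
    have e4 : c i i = e := he _
    have e5 : d (i + 1) (i + 1) = e := he' _
    have e6 : d i i = e := he' _
    unfold Dd
    rw [hd, hd, e1, e2, e3, e4, e5, e6]
    simp only [sub_self]
    unfold A
    rw [show (Multiplicative.ofAdd ((0 : ZMod 2), (0 : ZMod 2))) = (1 : V) from rfl]
    simp
  have M1 := grid (Hh u b c d) (Ww u b c d) (Dd u b c d) (Hh_Ww u b c d hs) (Ww_Hh u b c d hs) hD m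
  have M2 := grid (fun i j => Ww u b c d j i) (fun i j => Hh u b c d j i)
    (fun i j => Dd u b c d j i) (fun i j => Ww_Hh u b c d hs j i)
    (fun i j => Hh_Ww u b c d hs j i) hD m
  -- symmetries
  have sepW : ∀ i, ((u (i + 1) 0 - u i 0, b (i + 1) 0 - b i 0) : ZMod 2 × ZMod 2) = 0 ∨
      ((c (i + 1) 0 - c i 0, d (i + 1) 0 - d i 0) : ZMod 2 × ZMod 2) = 0 := by
    intro i
    rcases hs i 0 with ⟨⟨h1, -, -⟩, ⟨h2, -, -⟩⟩ | ⟨⟨h1, -, -⟩, ⟨h2, -, -⟩⟩
    · left; rw [h1, h2]; simp
    · right; rw [h1, h2]; simp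
  have sepH : ∀ j, ((u 0 (j + 1) - u 0 j, b 0 (j + 1) - b 0 j) : ZMod 2 × ZMod 2) = 0 ∨
      ((c 0 (j + 1) - c 0 j, d 0 (j + 1) - d 0 j) : ZMod 2 × ZMod 2) = 0 := by
    intro j
    rcases hs 0 j with ⟨⟨-, h1, -⟩, ⟨-, h2, -⟩⟩ | ⟨⟨-, h1, -⟩, ⟨-, h2, -⟩⟩
    · left; rw [h1, h2]; simp
    · right; rw [h1, h2]; simp
  have symW : ∀ i, Ww u b c d i m = kcol (Ww u b c d i 0) := by
    intro i
    unfold Ww
    rw [kcol_A _ _ (sepW i)]
    simp only [hb, hc, hdd, hmm2, zero_add]
  have symH : ∀ j, Hh u b c d m j = krow (Hh u b c d 0 j) := by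
    intro j
    unfold Hh
    rw [krow_A _ _ (sepH j)]
    simp only [hb, hc, hdd, hmm1, zero_add, Prod.swap]
  set Wv : G := ((List.range m).map (fun i => Ww u b c d i 0)).prod with hWv
  set Wu : G := ((List.range m).map (fun j => Hh u b c d 0 j)).prod with hWu
  have N1 : Wu * kcol Wv = 1 := by
    rw [hWv, map_list_prod, List.map_map, hWu]
    rw [← M1]
    congr 3
    funext i
    exact (symW i).symm
  have N2 : Wv * krow Wu = 1 := by
    rw [hWu, map_list_prod, List.map_map, hWv]
    rw [← M2]
    congr 3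
    funext i
    exact (symH i).symm
  have hnu : nu Wv = Wv := by
    rw [← krow_kcol]
    have h1 : kcol Wv = Wu⁻¹ := eq_inv_of_mul_eq_one_right N1
    rw [h1, map_inv]
    have h2 : krow Wu = Wv⁻¹ := eq_inv_of_mul_eq_one_right N2
    rw [h2, inv_inv]
  have hT := T_agree Wv hnu
  -- evaluation
  set S1 : ℕ → ZMod 2 := fun t => ∑ i ∈ Finset.range t, (u (i + 1) 0 - u i 0) * u (i + m) 0 with hS1
  set S2 : ℕ → ZMod 2 := fun t => ∑ i ∈ Finset.range t, (u (i + 1) 0 - u i 0) * u i m with hS2
  have z2 : ∀ x : ZMod 2, x + x = 0 := by decide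
  have aux : ∀ p q r s n : ZMod 2, (pA (p - q) * pB (r - s)) (p, r, n + (p - q) * s) = (q, s, n) := by
    decide
  have P1 := path_act Tcol (fun i => Ww u b c d i 0) (fun t => (u t 0, u (t + m) 0, S1 t)) (by
    intro t
    show Tcol (Ww u b c d t 0) (u (t + 1) 0, u (t + 1 + m) 0, S1 (t + 1)) = _
    unfold Ww
    rw [Tcol_A, hS1]
    simp only [Finset.sum_range_succ]
    exact aux (u (t + 1) 0) (u t 0) (u (t + 1 + m) 0) (u (t + m) 0) _) m
  have P2 := path_act Trow (fun i => Ww u b c d i 0) (fun t => (u t 0, u t m, S2 t)) (by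
    intro t
    show Trow (Ww u b c d t 0) (u (t + 1) 0, u (t + 1) m, S2 (t + 1)) = _
    unfold Ww
    rw [Trow_A, hS2]
    simp only [Finset.sum_range_succ, hc, zero_add]
    exact aux (u (t + 1) 0) (u t 0) (u (t + 1) m) (u t m) _) m
  have e0m : u 0 m = e := by have := he 0; simpa using this
  have em0 : u m 0 = e := by have := he' 0; simpa using this
  have e1 : S1 m = S2 m := by
    have Q1 : Tcol Wv (e, 0, S1 m) = (0, e, 0) := by
      have := P1
      simp only [hmm1, hd, em0, zero_add] at this
      rw [hWv]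
      simpa [hS1] using this
    have Q2 : Tcol Wv (e, 0, S2 m) = (0, e, 0) := by
      rw [hT]
      have := P2
      simp only [hd, em0, e0m] at this
      rw [hWv]
      simpa [hS2] using this
    have := (Tcol Wv).injective (Q1.trans Q2.symm)
    exact (Prod.mk.inj (Prod.mk.inj this).2).2
  -- additive homotopy
  have hA := grid (Γ := Multiplicative (ZMod 2))
    (fun i j => Multiplicative.ofAdd ((u i (j + 1) - u i j) * u i (j + m)))
    (fun i j => Multiplicative.ofAdd ((u (i + 1) j - u i j) * u i (j + m)))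
    (fun i j => Multiplicative.ofAdd ((u (i + 1) (j + 1) - u i j) * u i (j + m))) (by
      intro i j
      show Multiplicative.ofAdd _ = _
      congr 1
      rcases hcol i j with ⟨h1, h2, h3⟩ | h
      · simp only [toAdd_ofAdd]; rw [h2, h3]; ring
      · obtain ⟨h1, h2, h3⟩ := Cc i j h
        simp only [hc] at h2
        simp only [toAdd_ofAdd]; rw [h2]; ring) (by
      intro i j
      show Multiplicative.ofAdd _ = _
      congr 1
      rcases hcol i j with ⟨h1, h2, h3⟩ | h
      · simp only [toAdd_ofAdd]; rw [h1, h3]; ring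
      · obtain ⟨h1, h2, h3⟩ := Cc i j h
        simp only [hc] at h1
        simp only [toAdd_ofAdd]; rw [h1]; ring) (by
      intro i
      simp [hd]) m
  have hA' : (∑ j ∈ Finset.range m, (u 0 (j + 1) - u 0 j) * u 0 (j + m)) +
      ∑ i ∈ Finset.range m, (u (i + 1) m - u i m) * u i (m + m) = 0 := by
    have h3 : ∀ f : ℕ → ZMod 2, ((List.range m).map (fun j => Multiplicative.ofAdd (f j))).prod
        = Multiplicative.ofAdd (∑ j ∈ Finset.range m, f j) := by
      intro f
      exact prod_ofAdd f m
    rw [h3, h3, ← ofAdd_add] at hA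
    exact Multiplicative.ofAdd.injective hA
  have e2 : S2 m = ∑ i ∈ Finset.range m, (u (i + 1) m - u i m) * u i (m + m) := by
    have h4 : ∀ t, S2 t + ∑ i ∈ Finset.range t, (u (i + 1) m - u i m) * u i (m + m)
        = u t 0 * u t m - u 0 0 * u 0 m := by
      intro t
      induction t with
      | zero => simp [hS2]
      | succ n ih =>
        simp only [hS2] at ih ⊢
        rw [Finset.sum_range_succ, Finset.sum_range_succ, hmm2]
        have h5 := hcol n 0
        rw [zero_add] at h5
        have h6 : (u (n + 1) 0 = u n 0) ∨ (u (n + 1) m = u n m) := by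
          rcases h5 with h | h
          · exact Or.inl h.1
          · exact Or.inr h.1
        have h7 : (u (n + 1) 0 - u n 0) * u n m + (u (n + 1) m - u n m) * u n 0
            = u (n + 1) 0 * u (n + 1) m - u n 0 * u n m := by
          generalize u (n + 1) 0 = x1 at *
          generalize u n 0 = x0 at *
          generalize u (n + 1) m = y1 at *
          generalize u n m = y0 at *
          clear * - h6
          revert x1 x0 y1 y0
          decide
        linear_combination ih + h7
    have h8 := h4 m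
    rw [hd, hd] at h8
    simp only [mul_zero, zero_mul, sub_self] at h8
    have := z2 (∑ i ∈ Finset.range m, (u (i + 1) m - u i m) * u i (m + m))
    linear_combination h8 - this
  calc _ = S1 m := rfl
    _ = S2 m := e1
    _ = ∑ i ∈ Finset.range m, (u (i + 1) m - u i m) * u i (m + m) := e2
    _ = _ := by
      have := z2 (∑ i ∈ Finset.range m, (u (i + 1) m - u i m) * u i (m + m))
      linear_combination this - hA'

end Pool.Agent.Helper879.SS
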