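import Pool.Agent.Helper879.SS.Buried
import Pool.Agent.Helper879.SS.Quant
import Pool.Agent.Helper879.ET.Core

set_option autoImplicit false

namespace Pool.Agent.Helper879.Asm

open Set
open Pool.Agent.Helper879.ET (geo push ExactTreeRefinable limit_refinable refinable_span)

theorem ctm_iff {α : Type*} [TopologicalSpace α] [CompactSpace α] [T2Space α] {A : Set α} :
    Pool.Agent.Helper879.V.CT.Ctm A ↔ IsClosed A ∧ IsConnected A :=
  ⟨fun h => ⟨h.1.isClosed, h.2⟩, fun h => ⟨h.1.isCompact, h.2⟩⟩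

/-- a compact set with arbitrarily close pairs meets the diagonal -/
theorem diag_of_close {X : Type} [MetricSpace X] {C : Set (X × X)} (hC : IsCompact C)
    (h : ∀ ε : ℝ, 0 < ε → ∃ p ∈ C, dist p.1 p.2 < ε) : ∃ p ∈ C, p.1 = p.2 := by
  obtain ⟨p, hp, -⟩ := h 1 one_pos
  obtain ⟨q, hq, hmin⟩ := hC.exists_isMinOn ⟨p, hp⟩
    (continuous_dist (α := X)).continuousOn
  refine ⟨q, hq, ?_⟩
  by_contra hne
  obtain ⟨r, hr, hr'⟩ := h (dist q.1 q.2) (dist_pos.2 hne)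
  exact absurd (isMinOn_iff.1 hmin r hr) (not_le.2 hr')

/-- closing up a connected set -/
theorem close_of_closure {X : Type} [MetricSpace X] {C : Set (X × X)} {ε : ℝ} (hε : 0 < ε)
    (h : ∃ p ∈ closure C, p.1 = p.2) : ∃ p ∈ C, dist p.1 p.2 < ε := by
  obtain ⟨p, hp, hpe⟩ := h
  have hopen : IsOpen {q : X × X | dist q.1 q.2 < ε} :=
    isOpen_lt continuous_dist continuous_const
  obtain ⟨q, hq, hqC⟩ := mem_closure_iff.1 hp _ hopen (by
    show dist p.1 p.2 < ε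
    rw [hpe, dist_self]; exact hε)
  exact ⟨q, hqC, hq⟩

theorem le_two {X : Type} [MetricSpace X] [CompactSpace X] [ConnectedSpace X]
    (C : Set (X × X)) (hC : IsConnected C) (hsym : ∃ x y : X, (x, y) ∈ C ∧ (y, x) ∈ C)
    (a : ℝ) (ha : ∀ p ∈ C, a ≤ dist p.1 p.2) : a ≤ 2 * sSup {a : ℝ | 0 ≤ a ∧ ∃ C : Set (X × X), IsConnected C ∧
      Prod.fst '' C = univ ∧ Prod.snd '' C = univ ∧ ∀ p ∈ C, a ≤ dist p.1 p.2} := by
  obtain ⟨x, y, hxy, hyx⟩ := hsym
  have hbdd : BddAbove {a : ℝ | 0 ≤ a ∧ ∃ C : Set (X × X), IsConnected C ∧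
      Prod.fst '' C = univ ∧ Prod.snd '' C = univ ∧ ∀ p ∈ C, a ≤ dist p.1 p.2} := by
    refine ⟨Metric.diam (univ : Set X), ?_⟩
    rintro b ⟨-, D, hD, -, -, hb⟩
    obtain ⟨p, hp⟩ := hD.nonempty
    exact (hb p hp).trans (Metric.dist_le_diam_of_mem isCompact_univ.isBounded (mem_univ _)
      (mem_univ _))
  have hdiag : (0 : ℝ) ∈ {a : ℝ | 0 ≤ a ∧ ∃ C : Set (X × X), IsConnected C ∧
      Prod.fst '' C = univ ∧ Prod.snd '' C = univ ∧ ∀ p ∈ C, a ≤ dist p.1 p.2} := by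
    refine ⟨le_rfl, univ, isConnected_univ, ?_, ?_, fun p _ => dist_nonneg⟩
    · rw [eq_univ_iff_forall]; intro z; exact ⟨(z, z), mem_univ _, rfl⟩
    · rw [eq_univ_iff_forall]; intro z; exact ⟨(z, z), mem_univ _, rfl⟩
  have h0 : 0 ≤ sSup {a : ℝ | 0 ≤ a ∧ ∃ C : Set (X × X), IsConnected C ∧
      Prod.fst '' C = univ ∧ Prod.snd '' C = univ ∧ ∀ p ∈ C, a ≤ dist p.1 p.2} := le_csSup hbdd hdiag
  by_contra hlt
  push Not at hlt
  obtain ⟨δ, h1, h2⟩ := exists_between (show sSup {a : ℝ | 0 ≤ a ∧ ∃ C : Set (X × X), IsConnected C ∧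
      Prod.fst '' C = univ ∧ Prod.snd '' C = univ ∧ ∀ p ∈ C, a ≤ dist p.1 p.2} < a / 2 by linarith)
  have hδ : 0 < δ := lt_of_le_of_lt h0 h1
  obtain ⟨p, hp, hpa⟩ := Pool.Agent.Helper879.SQ.main δ hδ (by
    intro D hD hD1 hD2
    by_contra hcon
    push Not at hcon
    exact absurd (le_csSup hbdd ⟨hδ.le, D, hD, hD1, hD2, hcon⟩) (not_le.2 h1))
    C hC.isPreconnected x y hxy hyx a (by linarith)
  exact absurd (ha p hp) (not_le.2 hpa)

theorem ssz_of_refinable {X : Type} [MetricSpace X] [CompactSpace X]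
    (hM : Pool.Agent.Helper879.SS.SymZ X) {N : Set X}
    (hN : Pool.Agent.Helper879.V.CT.Ctm N) (hR : ExactTreeRefinable N) :
    Pool.Agent.Helper879.SS.SSZ N := by
  intro Z hZ h1 h2
  have : CompactSpace N := isCompact_iff_compactSpace.1 hN.1
  set v : N × N → X × X := Prod.map Subtype.val Subtype.val with hv
  have hvc : Continuous v := continuous_subtype_val.prodMap continuous_subtype_val
  have hvi : Topology.IsInducing v :=
    Topology.IsInducing.subtypeVal.prodMap Topology.IsInducing.subtypeVal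
  have hsub : Z ⊆ range v := by
    rintro ⟨x, y⟩ hp
    exact ⟨(⟨x, by rw [← h1]; exact ⟨_, hp, rfl⟩⟩, ⟨y, by rw [← h2]; exact ⟨_, hp, rfl⟩⟩), rfl⟩
  have eZ : v '' (v ⁻¹' Z) = Z := image_preimage_eq_of_subset hsub
  have hZc : IsCompact (v ⁻¹' Z) := by rw [hvi.isCompact_iff, eZ]; exact hZ.1
  have hZn : IsConnected (v ⁻¹' Z) := by
    refine ⟨?_, ?_⟩
    · obtain ⟨p, hp⟩ := hZ.2.nonempty
      obtain ⟨q, rfl⟩ := hsub hp
      exact ⟨q, hp⟩
    · rw [← hvi.isPreconnected_image, eZ]; exact hZ.2.isPreconnected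
  obtain ⟨x, hx⟩ := refinable_span hR (by
    intro A B K hK hKc hAB hBA
    obtain ⟨p, hp, hpe⟩ := hM (v '' K) ⟨hK.image hvc, hKc.image _ hvc.continuousOn⟩ A B
      ⟨_, hAB, rfl⟩ ⟨_, hBA, rfl⟩
    obtain ⟨⟨s, t⟩, hq, rfl⟩ := hp
    have hst : s = t := Subtype.val_injective hpe
    subst hst
    exact ⟨s, hq⟩) (v ⁻¹' Z) hZc hZn (by
    rintro _ ⟨⟨s, t⟩, hq, rfl⟩
    have ht : (t : X) ∈ Prod.fst '' Z := by rw [h1]; exact t.2
    obtain ⟨⟨a, b⟩, hab, hat⟩ := ht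
    obtain ⟨⟨a', b'⟩, he⟩ := hsub hab
    have ha : (a' : X) = a := congrArg Prod.fst he
    refine ⟨(a', b'), ?_, ?_⟩
    · show v (a', b') ∈ Z
      rw [he]; exact hab
    · apply Subtype.val_injective
      show (a' : X) = t
      rw [ha]; exact hat)
  exact ⟨_, hx, rfl⟩

theorem part_two {X : Type} [MetricSpace X] [CompactSpace X] [ConnectedSpace X]
    (h : ∀ C : Set (X × X), IsConnected C → Prod.fst '' C = univ → Prod.snd '' C = univ →
      ∀ ε : ℝ, 0 < ε → ∃ p ∈ C, dist p.1 p.2 < ε)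
    (hN : ∀ N : Set X, (IsClosed N ∧ IsConnected N) → N.Nontrivial →
      (∀ A B : Set X, (IsClosed A ∧ IsConnected A) → (IsClosed B ∧ IsConnected B) → A ∪ B = N →
        A = N ∨ B = N) →
      (interior N = ∅ ∧ ∀ L : Set X, (IsClosed L ∧ IsConnected L) → (L ∩ N).Nonempty →
        ¬ N ⊆ L → interior L = ∅) →
      (∀ C : Set (X × X), IsConnected C → Prod.fst '' C = N → Prod.snd '' C = N →
        ∀ ε : ℝ, 0 < ε → ∃ p ∈ C, dist p.1 p.2 < ε) ∨ ExactTreeRefinable N) :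
    ∀ C : Set (X × X), IsConnected C → Prod.fst '' C = Prod.snd '' C →
      ∀ ε : ℝ, 0 < ε → ∃ p ∈ C, dist p.1 p.2 < ε := by
  have hsym : ∀ C : Set (X × X), IsPreconnected C → ∀ x y : X, (x, y) ∈ C → (y, x) ∈ C →
      ∀ ε : ℝ, 0 < ε → ∃ p ∈ C, dist p.1 p.2 < ε := fun C hC x y hxy hyx ε hε =>
    Pool.Agent.Helper879.SS.main (fun C hC h1 h2 ε hε => h C hC h1 h2 ε hε) C hC x y hxy hyx ε hε
  have hM : Pool.Agent.Helper879.SS.SymZ X := fun C hC x y hxy hyx =>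
    diag_of_close hC.1 (hsym C hC.2.isPreconnected x y hxy hyx)
  intro C hC he ε hε
  apply close_of_closure hε
  have e : Prod.fst '' closure C = Prod.snd '' closure C := by
    rw [← IsClosedMap.closure_image_eq_of_continuous (isClosedMap_fst_of_compactSpace)
      continuous_fst, ← IsClosedMap.closure_image_eq_of_continuous
      (isClosedMap_snd_of_compactSpace) continuous_snd, he]
  refine Pool.Agent.Helper879.SS.buried hM ?_ ?_ ⟨isClosed_closure.isCompact, hC.closure⟩ e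
  · intro Z hZ h1 h2
    exact diag_of_close hZ.1 (h Z hZ.2 h1 h2)
  · intro N hNc hi hint hL
    by_cases hnt : N.Nontrivial
    · have hb : interior N = ∅ ∧ ∀ L : Set X, (IsClosed L ∧ IsConnected L) → (L ∩ N).Nonempty →
          ¬ N ⊆ L → interior L = ∅ := by
        refine ⟨hint, ?_⟩
        intro L hLc hLN hNL
        rw [inter_comm] at hLN
        exact hL L (ctm_iff.2 hLc) hLN hNL
      rcases hN N (ctm_iff.1 hNc) hnt
        (fun A B hA hB hAB => hi A B (ctm_iff.2 hA) (ctm_iff.2 hB) hAB) hb with hs | hs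
      · intro Z hZ h1 h2
        exact diag_of_close hZ.1 (hs Z hZ.2 h1 h2)
      · exact ssz_of_refinable hM hNc hs
    · intro Z hZ h1 h2
      have hsub : N.Subsingleton := Set.not_nontrivial_iff.1 hnt
      obtain ⟨p, hp⟩ := hZ.2.nonempty
      exact ⟨p, hp, hsub (by rw [← h1]; exact ⟨p, hp, rfl⟩) (by rw [← h2]; exact ⟨p, hp, rfl⟩)⟩

end Pool.Agent.Helper879.Asm
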