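import Pool.Agent.Helper879.SS.Dense

set_option autoImplicit false

open Set Topology
open Pool.Agent.Helper879.V.CT
open Pool.Agent.Helper879.V.CG (minimal_both)

namespace Pool.Agent.Helper879.SS

theorem log_of_noess {N : Type*} [TopologicalSpace N] [CompactSpace N] [T2Space N] [ConnectedSpace N]
    {g : N → Circle} (hg : Continuous g)
    (hN : ∀ Z : Set (N × N), Ctm Z → (∀ p ∈ Z, ((g p.1 / g p.2 : Circle) : ℂ).re ≤ 0) →
      Prod.fst '' Z = univ → Prod.snd '' Z = univ → False) : HasLog g := by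
  classical
  set G : N × N → Circle := fun p => g p.1 / g p.2 with hGdef
  have hG : Continuous G := (hg.comp continuous_fst).div' (hg.comp continuous_snd)
  have hGd : ∀ x, G (x, x) = 1 := by intro x; simp [hGdef]
  have hnd : ∀ x, (x, x) ∉ bad G := by
    intro x hx
    have h1 : ((G (x, x) : Circle) : ℂ).re ≤ 0 := hx
    rw [hGd] at h1
    simp at h1
    linarith
  have hpd : ∀ A x, piece G A (x, x) = 1 := fun A x => piece_of_notMem_bad (hnd x)
  have hW : IsClosed (bad G) := isClosed_bad hG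
  -- the good property
  have good_v : ∀ x0 : N, ∀ A B, Split (bad G) A B → (∀ y, (x0, y) ∉ A) → HasLog (piece G A) := by
    intro x0 A B hAB hA
    exact log_of_vertical_one (continuous_piece hG hAB.1 hAB.2.1 hAB.2.2.2 hAB.2.2.1) (hpd A)
      (x0 := x0) (fun y => piece_of_notMem (hA y))
  have good_h : ∀ y0 : N, ∀ A B, Split (bad G) A B → (∀ x, (x, y0) ∉ A) → HasLog (piece G A) := by
    intro y0 A B hAB hA
    exact log_of_horizontal_one (continuous_piece hG hAB.1 hAB.2.1 hAB.2.2.2 hAB.2.2.1) (hpd A)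
      (y0 := y0) (fun y => piece_of_notMem (hA y))
  have key : ∃ P Q, Split (bad G) P Q ∧ bad G ⊆ P ∧
      ∀ B C, Split (bad G) B C → B ⊆ P → HasLog (piece G B) := by
    refine IsCompact.induction_on (s := bad G) (p := fun S => ∃ P Q, Split (bad G) P Q ∧ S ⊆ P ∧
      ∀ B C, Split (bad G) B C → B ⊆ P → HasLog (piece G B)) hW.isCompact ?_ ?_ ?_ ?_
    · refine ⟨∅, bad G, ⟨isClosed_empty, hW, by simp, by simp⟩, Subset.rfl, ?_⟩
      intro B C hBC hB
      have : B = ∅ := subset_empty_iff.1 hB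
      subst this
      have : piece G ∅ = fun _ => (1 : Circle) := by
        funext p; exact piece_of_notMem (notMem_empty p)
      rw [this]; exact hasLog_one
    · rintro s t hst ⟨P, Q, h1, h2, h3⟩
      exact ⟨P, Q, h1, hst.trans h2, h3⟩
    · rintro s t ⟨P, Q, h1, h2, h3⟩ ⟨P', Q', h1', h2', h3'⟩
      refine ⟨P ∪ P', Q ∩ Q', ⟨h1.1.union h1'.1, h1.2.1.inter h1'.2.1, ?_, ?_⟩,
        union_subset_union h2 h2', ?_⟩
      · apply Subset.antisymm
        · rintro x ((hx | hx) | ⟨hx, -⟩)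
          · exact h1.left_subset hx
          · exact h1'.left_subset hx
          · exact h1.right_subset hx
        · intro x hx
          have e1 : x ∈ P ∪ Q := by rw [h1.2.2.1]; exact hx
          have e2 : x ∈ P' ∪ Q' := by rw [h1'.2.2.1]; exact hx
          rcases e1 with e1 | e1
          · left; left; exact e1
          · rcases e2 with e2 | e2
            · left; right; exact e2
            · right; exact ⟨e1, e2⟩
      · rw [disjoint_left]
        rintro x (hx | hx) ⟨hq, hq'⟩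
        · exact disjoint_left.1 h1.2.2.2 hx hq
        · exact disjoint_left.1 h1'.2.2.2 hx hq'
      · intro B C hBC hB
        have s1 := h1.inter hBC
        have s2 := h1.symm.inter hBC
        have l1 := h3 _ _ s1 inter_subset_right
        have l2 := h3' _ _ s2 (by
          rintro x ⟨hx, hxQ⟩
          rcases hB hx with h | h
          · exact absurd hxQ (disjoint_left.1 h1.2.2.2 h)
          · exact h)
        have := l1.mul l2
        have e : piece G B = fun p => piece G (B ∩ P) p * piece G (B ∩ Q) p := by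
          funext p
          have hB' : B = (B ∩ P) ∪ (B ∩ Q) := by
            rw [← inter_union_distrib_left, h1.2.2.1]
            exact (inter_eq_left.2 hBC.left_subset).symm
          conv_lhs => rw [hB']
          apply piece_union
          exact (h1.2.2.2.mono inter_subset_right inter_subset_right)
        rw [e]; exact this
    · intro p hp
      have hC := ctm_component hW.isCompact hp
      have hCW := connectedComponentIn_subset (bad G) p
      -- the component misses a slice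
      have hmiss : (∃ x0 : N, connectedComponentIn (bad G) p ∩ {q | q.1 = x0} = ∅) ∨
          (∃ y0 : N, connectedComponentIn (bad G) p ∩ {q | q.2 = y0} = ∅) := by
        by_contra hcon
        push Not at hcon
        obtain ⟨h1, h2⟩ := hcon
        exact hN _ hC (fun q hq => hCW hq) (by
            rw [eq_univ_iff_forall]
            intro x
            obtain ⟨q, hq, hq'⟩ := h1 x
            exact ⟨q, hq, hq'⟩) (by
            rw [eq_univ_iff_forall]
            intro y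
            obtain ⟨q, hq, hq'⟩ := h2 y
            exact ⟨q, hq, hq'⟩)
      rcases hmiss with ⟨x0, hx0⟩ | ⟨y0, hy0⟩
      · have hcl : IsClosed {q : N × N | q.1 = x0} := isClosed_eq continuous_fst continuous_const
        obtain ⟨P, Q, h1, h2, h3, h4, h5, h6⟩ := clopen_nhd_component hW.isCompact hp hcl hx0
        refine ⟨P, ?_, P, Q, ⟨h1.isClosed, h2.isClosed, h3, h4⟩, Subset.rfl, ?_⟩
        · have hQ : Qᶜ ∈ 𝓝 p := by
            apply h2.isClosed.isOpen_compl.mem_nhds
            intro hpQ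
            exact disjoint_left.1 h4 (h5 (mem_connectedComponentIn hp)) hpQ
          rw [mem_nhdsWithin_iff_exists_mem_nhds_inter]
          refine ⟨Qᶜ, hQ, ?_⟩
          rintro x ⟨hxQ, hx⟩
          rw [← h3] at hx
          exact hx.resolve_right hxQ
        · intro B C hBC hB
          apply good_v x0 B C hBC
          intro y hy
          have hyP : (x0, y) ∈ P := hB hy
          exact disjoint_left.1 h4 hyP (h6 ⟨hBC.left_subset hy, rfl⟩)
      · have hcl : IsClosed {q : N × N | q.2 = y0} := isClosed_eq continuous_snd continuous_const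
        obtain ⟨P, Q, h1, h2, h3, h4, h5, h6⟩ := clopen_nhd_component hW.isCompact hp hcl hy0
        refine ⟨P, ?_, P, Q, ⟨h1.isClosed, h2.isClosed, h3, h4⟩, Subset.rfl, ?_⟩
        · have hQ : Qᶜ ∈ 𝓝 p := by
            apply h2.isClosed.isOpen_compl.mem_nhds
            intro hpQ
            exact disjoint_left.1 h4 (h5 (mem_connectedComponentIn hp)) hpQ
          rw [mem_nhdsWithin_iff_exists_mem_nhds_inter]
          refine ⟨Qᶜ, hQ, ?_⟩
          rintro x ⟨hxQ, hx⟩
          rw [← h3] at hx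
          exact hx.resolve_right hxQ
        · intro B C hBC hB
          apply good_h y0 B C hBC
          intro y hy
          have hyP : (y, y0) ∈ P := hB hy
          exact disjoint_left.1 h4 hyP (h6 ⟨hBC.left_subset hy, rfl⟩)
  obtain ⟨P, Q, hPQ, hP, hlog⟩ := key
  have hfull : HasLog (piece G (bad G)) :=
    hlog (bad G) ∅ ⟨hW, isClosed_empty, by simp, by simp⟩ hP
  obtain ⟨l, hl, hl'⟩ := hfull
  obtain ⟨y0⟩ : Nonempty N := inferInstance
  refine ⟨fun x => l (x, y0) + al (G (x, y0)) + Complex.arg (g y0), ?_, ?_⟩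
  · apply Continuous.add _ continuous_const
    exact (hl.comp (continuous_id.prodMk continuous_const)).add
      ((continuous_al.comp hG).comp (continuous_id.prodMk continuous_const))
  · intro x
    rw [Circle.exp_add, Circle.exp_add, hl', exp_arg, piece_bad_mul]
    simp [hGdef]


theorem exists_ess {M : Type*} [TopologicalSpace M] [CompactSpace M] [T2Space M] {S : Set M}
    (hS : Ctm S) {g : M → Circle} (hg : ContinuousOn g S) (hn : ¬ HL g S) :
    ∃ Z : Set (M × M), Ctm Z ∧ Prod.fst '' Z = S ∧ Prod.snd '' Z = S ∧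
      ∀ p ∈ Z, ((g p.1 / g p.2 : Circle) : ℂ).re ≤ 0 := by
  classical
  by_contra hcon
  push Not at hcon
  apply hn
  have : CompactSpace S := isCompact_iff_compactSpace.1 hS.1
  have : ConnectedSpace S := isConnected_iff_connectedSpace.1 hS.2
  have hcont : Continuous (Prod.map Subtype.val Subtype.val : S × S → M × M) :=
    continuous_subtype_val.prodMap continuous_subtype_val
  obtain ⟨l, hl, hl'⟩ := log_of_noess (N := S) (g := fun x : S => g x)
    (continuousOn_iff_continuous_domRestrict.1 hg) (by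
    intro Z hZ hre h1 h2
    obtain ⟨p, hp, hpe⟩ := hcon (Prod.map Subtype.val Subtype.val '' Z)
      (hZ.image hcont.continuousOn) (by
        rw [image_image]
        simp only [Prod.map_fst]
        rw [← image_image Subtype.val Prod.fst, h1, image_univ, Subtype.range_coe]) (by
        rw [image_image]
        simp only [Prod.map_snd]
        rw [← image_image Subtype.val Prod.snd, h2, image_univ, Subtype.range_coe])
    obtain ⟨q, hq, rfl⟩ := hp
    exact absurd (hre q hq) (not_le.2 hpe))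
  refine ⟨fun x => if h : x ∈ S then l ⟨x, h⟩ else 0, ?_, ?_⟩
  · rw [continuousOn_iff_continuous_domRestrict]
    convert hl using 1
    funext x
    simp
  · intro x hx
    simp only [hx, dif_pos]
    exact hl' ⟨x, hx⟩

theorem star_exists {M : Type*} [TopologicalSpace M] [CompactSpace M] [T2Space M] (hM : SymZ M)
    (hlog : ∀ N : Set M, Ctm N → ∀ g : M → Circle, ContinuousOn g N → HL g N)
    {Z : Set (M × M)} (hZ : Ctm Z) (he : Prod.fst '' Z = Prod.snd '' Z)
    (hd : ∀ p ∈ Z, p.1 ≠ p.2) :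
    ∃ Y : Set (M × M), Ctm Y ∧ Prod.fst '' Y = Prod.snd '' Y ∧ (∀ p ∈ Y, p.1 ≠ p.2) ∧
      Indec (Prod.fst '' Y) ∧ ∀ D ⊆ Y, Ctm D →
        (Prod.fst '' D ⊆ Prod.snd '' D ∨ Prod.snd '' D ⊆ Prod.fst '' D) → D = Y := by
  have hG : Pool.Agent.Helper879.V.CG.Good M :=
    ⟨fun hS hSc g hg => hlog _ ⟨hS.isCompact, hSc⟩ g hg, fun hA hB hC h => by
      obtain ⟨o, ⟨ha, hb⟩, hc⟩ := h
      exact tri hM hA hB hC ⟨o, ha, hb⟩ ⟨o, hb, hc⟩ ⟨o, ha, hc⟩⟩
  obtain ⟨Y, hYZ, hY, hYe, hYd, hmin⟩ := minimal_both hG hZ he.symm.subset hd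
  exact ⟨Y, hY, hYe, hYd, fun A B hA hB hAB => hG.side hY hYe hmin hA hB hAB, hmin⟩

theorem exists_min_nolog {M : Type*} [TopologicalSpace M] [CompactSpace M] [T2Space M]
    {N : Set M} (hN : Ctm N) {g : M → Circle} (hg : ContinuousOn g N) (h : ¬ HL g N) :
    ∃ K ⊆ N, Ctm K ∧ ¬ HL g K ∧ ∀ K' ⊆ K, Ctm K' → K' ≠ K → HL g K' := by
  have hNS : N ∈ {K : Set M | K ⊆ N ∧ Ctm K ∧ ¬ HL g K} := ⟨subset_rfl, hN, h⟩
  obtain ⟨K, hKN, hKmin⟩ := zorn_superset_nonempty {K : Set M | K ⊆ N ∧ Ctm K ∧ ¬ HL g K} (by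
    intro c hcS hc hne
    have : Nonempty c := hne.to_subtype
    have hdir : Directed (· ⊇ ·) (fun i : c => (i : Set M)) := by
      intro i j
      rcases hc.total i.2 j.2 with h | h
      · exact ⟨i, subset_rfl, h⟩
      · exact ⟨j, h, subset_rfl⟩
    have hctm : Ctm (⋂ i : c, (i : Set M)) := ctm_iInter_directed hdir fun i => (hcS i.2).2.1
    obtain ⟨i0⟩ := (inferInstance : Nonempty c)
    have hsubN : (⋂ i : c, (i : Set M)) ⊆ N := (iInter_subset _ i0).trans (hcS i0.2).1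
    refine ⟨⋂ i : c, (i : Set M), ⟨hsubN, hctm, ?_⟩, fun s hs => iInter_subset (fun i : c => (i : Set M)) ⟨s, hs⟩⟩
    intro hHL
    obtain ⟨U, hU, hKU, l, hl1, hl2⟩ := log_nhd hN.1.isClosed hsubN hctm.1.isClosed hg hHL
    obtain ⟨i, hi⟩ := exists_subset_nhds_of_isCompact hdir (fun i => (hcS i.2).2.1.1)
      (U := U) (fun x hx => hU.mem_nhds (hKU hx))
    have hiN : (i : Set M) ⊆ N ∩ U := subset_inter (hcS i.2).1 hi
    exact (hcS i.2).2.2 ⟨l, hl1.mono hiN, fun x hx => hl2 x (hiN hx)⟩) N hNS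
  have hKS := hKmin.prop
  refine ⟨K, hKS.1, hKS.2.1, hKS.2.2, fun K' hK' hc hne => ?_⟩
  by_contra hno
  exact hne (Subset.antisymm hK' (hKmin.le_of_le ⟨hK'.trans hKS.1, hc, hno⟩ hK'))

/-- `Z` is a continuum off the diagonal with both projections `M`, with mixed pairs for every
continuum crossing `M` -/
def Mix {X : Type*} [TopologicalSpace X] (M : Set X) (Z : Set (X × X)) : Prop :=
  Ctm M ∧ Ctm Z ∧ Prod.fst '' Z = M ∧ Prod.snd '' Z = M ∧ (∀ p ∈ Z, p.1 ≠ p.2) ∧
  ∀ L : Set X, Ctm L → (M ∩ L).Nonempty → ¬ L ⊆ M → ¬ M ⊆ L →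
    (∃ a y : X, (a, y) ∈ Z ∧ a ∈ L ∧ y ∉ L) ∧ (∃ x b : X, (x, b) ∈ Z ∧ b ∈ L ∧ x ∉ L)

theorem Mix.step {X : Type*} [TopologicalSpace X] [CompactSpace X] [T2Space X] {M : Set X}
    {Z : Set (X × X)} (h : Mix M Z) {L : Set X} (hL : Ctm L) (hne : (M ∩ L).Nonempty)
    (hML : ¬ M ⊆ L) : ∃ Z' : Set (X × X), Mix (M ∪ L) Z' := by
  by_cases hLM : L ⊆ M
  · refine ⟨Z, ?_⟩
    rw [Set.union_eq_left.mpr hLM]
    exact h
  obtain ⟨hM, hZ, hf, hs, hd, hm⟩ := h
  obtain ⟨⟨a, y, hay, haL, hyL⟩, ⟨x, b, hxb, hbL, hxL⟩⟩ := hm L hL hne hLM hML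
  have yM : y ∈ M := by rw [← hs]; exact ⟨(a, y), hay, rfl⟩
  have xM : x ∈ M := by rw [← hf]; exact ⟨(x, b), hxb, rfl⟩
  refine ⟨Z ∪ L ×ˢ ({y} : Set X) ∪ ({x} : Set X) ×ˢ L, ctm_union hM hL hne, ?_, ?_, ?_, ?_, ?_⟩
  · exact ctm_union (ctm_union hZ (ctm_horz hL) ⟨(a, y), hay, haL, rfl⟩) (ctm_vert hL)
      ⟨(x, b), Or.inl hxb, rfl, hbL⟩
  · apply Set.Subset.antisymm
    · rintro u ⟨⟨p, q⟩, hp, rfl⟩
      rcases hp with (hp | hp) | hp
      · left; rw [← hf]; exact ⟨(p, q), hp, rfl⟩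
      · right; exact hp.1
      · left
        have : p = x := hp.1
        simpa [this] using xM
    · rintro u (hu | hu)
      · rw [← hf] at hu
        obtain ⟨p, hp, rfl⟩ := hu
        exact ⟨p, Or.inl (Or.inl hp), rfl⟩
      · exact ⟨(u, y), Or.inl (Or.inr ⟨hu, rfl⟩), rfl⟩
  · apply Set.Subset.antisymm
    · rintro u ⟨⟨p, q⟩, hp, rfl⟩
      rcases hp with (hp | hp) | hp
      · left; rw [← hs]; exact ⟨(p, q), hp, rfl⟩
      · left
        have : q = y := hp.2
        simpa [this] using yM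
      · right; exact hp.2
    · rintro u (hu | hu)
      · rw [← hs] at hu
        obtain ⟨p, hp, rfl⟩ := hu
        exact ⟨p, Or.inl (Or.inl hp), rfl⟩
      · exact ⟨(x, u), Or.inr ⟨rfl, hu⟩, rfl⟩
  · rintro ⟨p, q⟩ ((hp | hp) | hp)
    · exact hd _ hp
    · intro e
      have h1 : q = y := hp.2
      have h2 : p ∈ L := hp.1
      apply hyL
      have e' : p = q := e
      rw [← h1, ← e']
      exact h2
    · intro e
      have h1 : p = x := hp.1
      have h2 : q ∈ L := hp.2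
      apply hxL
      have e' : p = q := e
      rw [← h1, e']
      exact h2
  · intro L' hL' hne' hn1 hn2
    by_cases hML' : M ⊆ L'
    · have hLL' : ¬ L ⊆ L' := fun hh => hn2 (Set.union_subset hML' hh)
      obtain ⟨c, hcL, hcL'⟩ := Set.not_subset.mp hLL'
      exact ⟨⟨x, c, Or.inr ⟨rfl, hcL⟩, hML' xM, hcL'⟩,
        ⟨c, y, Or.inl (Or.inr ⟨hcL, rfl⟩), hML' yM, hcL'⟩⟩
    · by_cases hmeet : (M ∩ L').Nonempty
      · obtain ⟨⟨a', y', h1, h2, h3⟩, ⟨x', b', h4, h5, h6⟩⟩ :=
          hm L' hL' hmeet (fun hh => hn1 (hh.trans Set.subset_union_left)) hML'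
        exact ⟨⟨a', y', Or.inl (Or.inl h1), h2, h3⟩, ⟨x', b', Or.inl (Or.inl h4), h5, h6⟩⟩
      · obtain ⟨c, hc, hcL'⟩ := hne'
        have hcL : c ∈ L := by
          rcases hc with hc | hc
          · exact absurd ⟨c, hc, hcL'⟩ hmeet
          · exact hc
        exact ⟨⟨c, y, Or.inl (Or.inr ⟨hcL, rfl⟩), hcL', fun hh => hmeet ⟨y, yM, hh⟩⟩,
          ⟨x, c, Or.inr ⟨rfl, hcL⟩, hcL', fun hh => hmeet ⟨x, xM, hh⟩⟩⟩

theorem Mix.base {X : Type} [MetricSpace X] [CompactSpace X] (ht : Tri X) (hu : Uni X)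
    {N : Set X} (hN : Ctm N) {Z : Set (X × X)} (hZ : Ctm Z) (h1 : Prod.fst '' Z = N)
    (h2 : Prod.snd '' Z = N) (hd : ∀ p ∈ Z, p.1 ≠ p.2)
    (hD1 : ∀ D ⊆ Z, Ctm D → Prod.fst '' D ≠ N → ¬ Prod.snd '' D ⊆ Prod.fst '' D)
    (hD2 : ∀ D ⊆ Z, Ctm D → Prod.snd '' D ≠ N → ¬ Prod.fst '' D ⊆ Prod.snd '' D) :
    Mix N Z := by
  refine ⟨hN, hZ, h1, h2, hd, ?_⟩
  intro L hL hne hLN hNL
  have hNLN : N ∩ L ≠ N := fun h => hNL (fun x hx => by
    rw [← h] at hx
    exact hx.2)
  constructor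
  · obtain ⟨D, hDZ, hDc, hDf⟩ := sub_fst ht hu hN hL hne hLN hNL hZ h1
    have h3 := hD1 D hDZ hDc (by rw [hDf]; exact hNLN)
    rw [Set.not_subset] at h3
    obtain ⟨y, ⟨p, hp, hpy⟩, hy⟩ := h3
    rw [hDf] at hy
    have hyN : y ∈ N := by
      rw [← h2]
      exact ⟨p, hDZ hp, hpy⟩
    have hp1 : p.1 ∈ N ∩ L := by
      rw [← hDf]
      exact ⟨p, hp, rfl⟩
    refine ⟨p.1, p.2, hDZ hp, hp1.2, ?_⟩
    rw [hpy]
    exact fun h => hy ⟨hyN, h⟩
  · have hZs : Ctm (Prod.swap '' Z) := hZ.image continuous_swap.continuousOn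
    have hZf : Prod.fst '' (Prod.swap '' Z) = N := by
      rw [Set.image_image]
      exact h2
    obtain ⟨D', hDZ, hDc, hDf⟩ := sub_fst ht hu hN hL hne hLN hNL hZs hZf
    have hDZ' : Prod.swap '' D' ⊆ Z := by
      rintro _ ⟨p, hp, rfl⟩
      obtain ⟨q, hq, hqp⟩ := hDZ hp
      rw [← hqp, Prod.swap_swap]
      exact hq
    have hDc' : Ctm (Prod.swap '' D') := hDc.image continuous_swap.continuousOn
    have hDs : Prod.snd '' (Prod.swap '' D') = N ∩ L := by
      rw [Set.image_image]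
      exact hDf
    have h3 := hD2 _ hDZ' hDc' (by rw [hDs]; exact hNLN)
    rw [Set.not_subset] at h3
    obtain ⟨x, ⟨p, hp, hpx⟩, hx⟩ := h3
    rw [hDs] at hx
    have hxN : x ∈ N := by
      rw [← h1]
      exact ⟨p, hDZ' hp, hpx⟩
    have hp2 : p.2 ∈ N ∩ L := by
      rw [← hDs]
      exact ⟨p, hp, rfl⟩
    refine ⟨p.1, p.2, hDZ' hp, hp2.2, ?_⟩
    rw [hpx]
    exact fun h => hx ⟨hxN, h⟩

theorem no_semi {X : Type*} [TopologicalSpace X] [CompactSpace X] [T2Space X] {g : X → Circle}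
    {D : Set (X × X)} (hD : Ctm D) (hre : ∀ p ∈ D, ((g p.1 / g p.2 : Circle) : ℂ).re ≤ 0)
    (hsub : Prod.snd '' D ⊆ Prod.fst '' D) (hl : HL g (Prod.fst '' D)) : False := by
  obtain ⟨l, hlc, hl⟩ := hl
  have hK : Ctm (Prod.fst '' D) := hD.image continuous_fst.continuousOn
  have hm1 : ∀ p ∈ D, p.1 ∈ Prod.fst '' D := fun p hp => mem_image_of_mem _ hp
  have hm2 : ∀ p ∈ D, p.2 ∈ Prod.fst '' D := fun p hp => hsub (mem_image_of_mem _ hp)
  have hf : ContinuousOn (fun p : X × X => l p.1 - l p.2) D :=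
    (hlc.comp continuous_fst.continuousOn hm1).sub (hlc.comp continuous_snd.continuousOn hm2)
  have hne : ∀ p ∈ D, l p.1 - l p.2 ≠ 0 := by
    intro p hp h0
    have h1 : l p.1 = l p.2 := by linarith
    have h2 : g p.1 = g p.2 := by rw [← hl _ (hm1 p hp), ← hl _ (hm2 p hp), h1]
    have h3 := hre p hp
    rw [h2, div_self', Circle.coe_one, Complex.one_re] at h3
    linarith
  have hpre : IsPreconnected ((fun p : X × X => l p.1 - l p.2) '' D) :=
    hD.2.isPreconnected.image _ hf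
  have hdich : ∀ p ∈ D, ∀ q ∈ D, ¬ (l p.1 - l p.2 < 0 ∧ 0 < l q.1 - l q.2) := by
    rintro p hp q hq ⟨h1, h2⟩
    have := hpre.ordConnected.out (mem_image_of_mem _ hp) (mem_image_of_mem _ hq) ⟨h1.le, h2.le⟩
    obtain ⟨r, hr, hr0⟩ := this
    exact hne r hr hr0
  obtain ⟨p0, hp0⟩ := hD.2.nonempty
  rcases lt_or_gt_of_ne (hne p0 hp0) with h0 | h0
  · obtain ⟨x, ⟨p, hp, rfl⟩, hx⟩ := hK.1.exists_isMaxOn ⟨_, hm1 p0 hp0⟩ hlc
    have h1 : l p.2 ≤ l p.1 := hx (hm2 p hp)
    have h2 : 0 < l p.1 - l p.2 := lt_of_le_of_ne (by linarith) (hne p hp).symm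
    exact hdich p0 hp0 p hp ⟨h0, h2⟩
  · obtain ⟨x, ⟨p, hp, rfl⟩, hx⟩ := hK.1.exists_isMinOn ⟨_, hm1 p0 hp0⟩ hlc
    have h1 : l p.1 ≤ l p.2 := hx (hm2 p hp)
    have h2 : l p.1 - l p.2 < 0 := lt_of_le_of_ne (by linarith) (hne p hp)
    exact hdich p hp p0 hp0 ⟨h2, h0⟩

theorem no_semi' {X : Type*} [TopologicalSpace X] [CompactSpace X] [T2Space X] {g : X → Circle}
    {D : Set (X × X)} (hD : Ctm D) (hre : ∀ p ∈ D, ((g p.1 / g p.2 : Circle) : ℂ).re ≤ 0)
    (hsub : Prod.fst '' D ⊆ Prod.snd '' D) (hl : HL g (Prod.snd '' D)) : False := by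
  have e1 : Prod.fst '' (Prod.swap '' D) = Prod.snd '' D := by
    rw [image_image]
    rfl
  have e2 : Prod.snd '' (Prod.swap '' D) = Prod.fst '' D := by
    rw [image_image]
    rfl
  apply no_semi (g := g) (D := Prod.swap '' D) (hD.image continuous_swap.continuousOn)
  · rintro _ ⟨p, hp, rfl⟩
    have h := hre p hp
    have e : g (Prod.swap p).1 / g (Prod.swap p).2 = (g p.1 / g p.2)⁻¹ := by
      rw [Prod.fst_swap, Prod.snd_swap, inv_div]
    rw [e, Circle.coe_inv_eq_conj, Complex.conj_re]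
    exact h
  · rw [e1, e2]; exact hsub
  · rw [e1]; exact hl

theorem star_exists_sub {X : Type*} [TopologicalSpace X] [CompactSpace X] [T2Space X]
    (hM : SymZ X) {S : Set X} (hS : Ctm S)
    (hlog : ∀ N ⊆ S, Ctm N → ∀ g : X → Circle, ContinuousOn g N → HL g N)
    {Z : Set (X × X)} (hZ : Ctm Z) (hZS : Prod.fst '' Z ⊆ S) (he : Prod.fst '' Z = Prod.snd '' Z)
    (hd : ∀ p ∈ Z, p.1 ≠ p.2) :
    ∃ Y : Set (X × X), Ctm Y ∧ Prod.fst '' Y ⊆ S ∧ Prod.fst '' Y = Prod.snd '' Y ∧
      (∀ p ∈ Y, p.1 ≠ p.2) ∧ Indec (Prod.fst '' Y) ∧ ∀ D ⊆ Y, Ctm D →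
        (Prod.fst '' D ⊆ Prod.snd '' D ∨ Prod.snd '' D ⊆ Prod.fst '' D) → D = Y := by
  classical
  have : CompactSpace S := isCompact_iff_compactSpace.mp hS.1
  have hvali : Function.Injective (Subtype.val : S → X) := Subtype.val_injective
  set v : S × S → X × X := Prod.map Subtype.val Subtype.val with hv
  have hv_ind : Topology.IsInducing v :=
    Topology.IsInducing.subtypeVal.prodMap Topology.IsInducing.subtypeVal
  have hv_inj : Function.Injective v := hvali.prodMap hvali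
  have hv_cont : Continuous v := hv_ind.continuous
  have hfst : ∀ C : Set (S × S), Prod.fst '' (v '' C) = Subtype.val '' (Prod.fst '' C) := by
    intro C
    rw [image_image, image_image]
    rfl
  have hsnd : ∀ C : Set (S × S), Prod.snd '' (v '' C) = Subtype.val '' (Prod.snd '' C) := by
    intro C
    rw [image_image, image_image]
    rfl
  have hpre : ∀ D : Set (X × X), Ctm D → D ⊆ range v → Ctm (v ⁻¹' D) := by
    intro D hD hDr
    have him : v '' (v ⁻¹' D) = D := image_preimage_eq_of_subset hDr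
    refine ⟨(hv_ind.isCompact_preimage_iff hDr).mpr hD.1, ?_, ?_⟩
    · obtain ⟨p, hp⟩ := hD.2.nonempty
      obtain ⟨q, rfl⟩ := hDr hp
      exact ⟨q, hp⟩
    · rw [← hv_ind.isPreconnected_image, him]
      exact hD.2.isPreconnected
  have hZr : Z ⊆ range v := by
    intro p hp
    have h1 : p.1 ∈ S := hZS ⟨p, hp, rfl⟩
    have h2 : p.2 ∈ S := hZS (he ▸ ⟨p, hp, rfl⟩)
    exact ⟨(⟨p.1, h1⟩, ⟨p.2, h2⟩), rfl⟩
  have himZ : v '' (v ⁻¹' Z) = Z := image_preimage_eq_of_subset hZr
  have hSym : SymZ S := by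
    intro C hC x y hxy hyx
    obtain ⟨p, ⟨q, hq, rfl⟩, hpe⟩ := hM (v '' C) (hC.image hv_cont.continuousOn) x y
      ⟨(x, y), hxy, rfl⟩ ⟨(y, x), hyx, rfl⟩
    exact ⟨q, hq, hvali hpe⟩
  have hlogS : ∀ N : Set S, Ctm N → ∀ g : S → Circle, ContinuousOn g N → HL g N := by
    intro N hN g hg
    set g' : X → Circle := fun x => if h : x ∈ S then g ⟨x, h⟩ else 1 with hg'
    have hcomp : g' ∘ (Subtype.val : S → X) = g := by
      funext x
      simp [hg']
    have hcont : ContinuousOn g' (Subtype.val '' N) := by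
      rw [Topology.IsInducing.subtypeVal.continuousOn_image_iff, hcomp]
      exact hg
    obtain ⟨l, hl1, hl2⟩ := hlog (Subtype.val '' N) (by
        rintro _ ⟨x, -, rfl⟩; exact x.2) (hN.image continuous_subtype_val.continuousOn) g' hcont
    refine ⟨l ∘ Subtype.val, ?_, ?_⟩
    · exact hl1.comp continuous_subtype_val.continuousOn (fun x hx => ⟨x, hx, rfl⟩)
    · intro x hx
      have := hl2 x ⟨x, hx, rfl⟩
      rw [Function.comp_apply, this]
      exact congrFun hcomp x
  obtain ⟨Y', hY1, hY2, hY3, hY4, hY5⟩ := star_exists hSym hlogS (hpre Z hZ hZr) (by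
      apply hvali.image_injective
      rw [← hfst, ← hsnd, himZ, he]) (by
      intro p hp hpe
      exact hd (v p) hp (congrArg Subtype.val hpe))
  refine ⟨v '' Y', hY1.image hv_cont.continuousOn, ?_, ?_, ?_, ?_, ?_⟩
  · rw [hfst]
    rintro _ ⟨x, -, rfl⟩
    exact x.2
  · rw [hfst, hsnd, hY2]
  · rintro _ ⟨q, hq, rfl⟩ hpe
    exact hY3 q hq (hvali hpe)
  · rw [hfst]
    intro A B hA hB hAB
    have hsubS : (Subtype.val '' (Prod.fst '' Y') : Set X) ⊆ S := by
      rintro _ ⟨x, -, rfl⟩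
      exact x.2
    have hAS : A ⊆ S := (subset_union_left.trans hAB.subset).trans hsubS
    have hBS : B ⊆ S := (subset_union_right.trans hAB.subset).trans hsubS
    have hr : ∀ T : Set X, T ⊆ S → Subtype.val '' (Subtype.val ⁻¹' T : Set S) = T := by
      intro T hT
      exact image_preimage_eq_of_subset (by rw [Subtype.range_coe]; exact hT)
    have hun : (Subtype.val ⁻¹' A : Set S) ∪ Subtype.val ⁻¹' B = Prod.fst '' Y' := by
      rw [← preimage_union, hAB, preimage_image_eq _ hvali]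
    rcases hY4 _ _ (ctm_pre hA hAS) (ctm_pre hB hBS) hun with h | h
    · left
      rw [← h, hr A hAS]
    · right
      rw [← h, hr B hBS]
  · intro D hDY hD hcmp
    have hDr : D ⊆ range v := hDY.trans (image_subset_range _ _)
    have himD : v '' (v ⁻¹' D) = D := image_preimage_eq_of_subset hDr
    have hsub : v ⁻¹' D ⊆ Y' := by
      intro q hq
      obtain ⟨q', hq', he'⟩ := hDY hq
      rwa [← hv_inj he']
    have := hY5 (v ⁻¹' D) hsub (hpre D hD hDr) (by
      rw [← himD, hfst, hsnd, image_subset_image_iff hvali, image_subset_image_iff hvali] at hcmp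
      exact hcmp)
    rw [← this, himD]

theorem Mix.interior {X : Type*} [TopologicalSpace X] [CompactSpace X] [T2Space X]
    [ConnectedSpace X] (ht : Tri X) (hs : SSZ (univ : Set X)) {M : Set X} {Z : Set (X × X)}
    (h : Mix M Z) : interior M = ∅ := by
  obtain ⟨hM, hZ, h1, h2, hd, hmix⟩ := h
  by_contra hint
  have : ∃ p ∈ Z, p.1 = p.2 := by
    by_cases hu : M = univ
    · subst hu; exact hs Z hZ h1 h2
    obtain ⟨L1, L2, c1, c2, n1, n2, a1, a2, b1, b2, hcov⟩ := cover2 ht hM hu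
      (nonempty_iff_ne_empty.2 hint)
    exact glue_arms hs c1 c2 hcov hZ h1 h2 (hmix L1 c1 n1 a1 b1).1 (hmix L1 c1 n1 a1 b1).2
      (hmix L2 c2 n2 a2 b2).1 (hmix L2 c2 n2 a2 b2).2
  obtain ⟨p, hp, hpe⟩ := this
  exact hd p hp hpe

theorem exists_mix {X : Type} [MetricSpace X] [CompactSpace X] (hM : SymZ X)
    {Z : Set (X × X)} (hZ : Ctm Z) (he : Prod.fst '' Z = Prod.snd '' Z)
    (hd : ∀ p ∈ Z, p.1 ≠ p.2) : ∃ (N : Set X) (Y : Set (X × X)), Indec N ∧ Mix N Y := by
  have ht : Tri X := fun A B C hA hB hC h1 h2 h3 => tri hM hA hB hC h1 h2 h3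
  have hu : Uni X := fun A B hA hB => uni hM hA hB
  have hS : Ctm (Prod.fst '' Z) := hZ.image continuous_fst.continuousOn
  by_cases hlog : ∀ N ⊆ Prod.fst '' Z, Ctm N → ∀ g : X → Circle, ContinuousOn g N → HL g N
  · obtain ⟨Y, hY, hYS, hYe, hYd, hi, hmin⟩ := star_exists_sub hM hS hlog hZ Subset.rfl he hd
    refine ⟨_, Y, hi, Mix.base ht hu (hY.image continuous_fst.continuousOn) hY rfl hYe.symm hYd
      ?_ ?_⟩
    · intro D hDY hD hne hsub
      exact hne (by rw [hmin D hDY hD (Or.inr hsub)])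
    · intro D hDY hD hne hsub
      exact hne (by rw [hmin D hDY hD (Or.inl hsub), hYe])
  · push Not at hlog
    obtain ⟨N, hNS, hN, g, hg, hn⟩ := hlog
    obtain ⟨K, hKN, hK, hKn, hKmin⟩ := exists_min_nolog hN hg hn
    obtain ⟨Y, hY, h1, h2, hre⟩ := exists_ess hK (hg.mono hKN) hKn
    refine ⟨K, Y, ?_, Mix.base ht hu hK hY h1 h2 ?_ ?_ ?_⟩
    · intro A B hA hB hAB
      by_contra hcon
      push Not at hcon
      have hAK : A ⊆ K := hAB ▸ subset_union_left
      have hBK : B ⊆ K := hAB ▸ subset_union_right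
      apply hKn
      rw [← hAB]
      exact glue1 hA.1.isClosed hB.1.isClosed (hu A B hA hB) (hKmin A hAK hA hcon.1)
        (hKmin B hBK hB hcon.2)
    · intro p hp hpe
      have := hre p hp
      rw [hpe, div_self'] at this
      simp at this
      linarith
    · intro D hDY hD hne hsub
      have hDK : Prod.fst '' D ⊆ K := by rw [← h1]; exact image_mono hDY
      exact no_semi hD (fun p hp => hre p (hDY hp)) hsub
        (hKmin _ hDK (hD.image continuous_fst.continuousOn) hne)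
    · intro D hDY hD hne hsub
      have hDK : Prod.snd '' D ⊆ K := by rw [← h2]; exact image_mono hDY
      exact no_semi' hD (fun p hp => hre p (hDY hp)) hsub
        (hKmin _ hDK (hD.image continuous_snd.continuousOn) hne)

theorem buried {X : Type} [MetricSpace X] [CompactSpace X] [ConnectedSpace X]
    (hM : SymZ X) (hs : SSZ (univ : Set X))
    (hind : ∀ N : Set X, Ctm N → Indec N → interior N = ∅ →
      (∀ L : Set X, Ctm L → (N ∩ L).Nonempty → ¬ N ⊆ L → interior L = ∅) → SSZ N)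
    {Z : Set (X × X)} (hZ : Ctm Z) (he : Prod.fst '' Z = Prod.snd '' Z) : ∃ p ∈ Z, p.1 = p.2 := by
  by_contra hd
  push Not at hd
  obtain ⟨N, Y, hi, hmix⟩ := exists_mix hM hZ he hd
  have ht : Tri X := fun A B C hA hB hC h1 h2 h3 => tri hM hA hB hC h1 h2 h3
  obtain ⟨p, hp, hpe⟩ := hind N hmix.1 hi (hmix.interior ht hs) (fun L hL hne hNL => by
    obtain ⟨Z', hZ'⟩ := hmix.step hL hne hNL
    have := hZ'.interior ht hs
    exact subset_empty_iff.1 (this ▸ interior_mono subset_union_right)) Y hmix.2.1 hmix.2.2.1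
    hmix.2.2.2.1
  exact hmix.2.2.2.2.1 p hp hpe

end Pool.Agent.Helper879.SS
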