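import Pool.Agent.Helper879.SS.Met
import Pool.Agent.Helper879.V.CGUnion

set_option autoImplicit false

open Set Topology
open Pool.Agent.Helper879.V.CT
open Pool.Agent.Helper879.V.CG (minimal_both)

namespace Pool.Agent.Helper879.SS

theorem log_of_surj {N : Type*} [TopologicalSpace N] [CompactSpace N] [T2Space N] [ConnectedSpace N]
    (hN : ∀ Z : Set (N × N), Ctm Z → Prod.fst '' Z = univ → Prod.snd '' Z = univ → ∃ p ∈ Z, p.1 = p.2) {g : N → Circle} (hg : Continuous g) : HasLog g := by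
  classical
  set G : N × N → Circle := fun p => g p.1 / g p.2 with hGdef
  have hG : Continuous G := (hg.comp continuous_fst).div' (hg.comp continuous_snd)
  have hGd : ∀ x, G (x, x) = 1 := by intro x; simp [hGdef]
  have hnd : ∀ x, (x, x) ∉ bad G := by
    intro x hx
    have h1 : ((G (x, x) : Circle) : ℂ).re ≤ 0 := hx
    rw [hGd] at h1
    simp at h1
    linarith
  have hpd : ∀ A x, piece G A (x, x) = 1 := fun A x => piece_of_notMem_bad (hnd x)
  have hW : IsClosed (bad G) := isClosed_bad hG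
  -- the good property
  have good_v : ∀ x0 : N, ∀ A B, Split (bad G) A B → (∀ y, (x0, y) ∉ A) → HasLog (piece G A) := by
    intro x0 A B hAB hA
    exact log_of_vertical_one (continuous_piece hG hAB.1 hAB.2.1 hAB.2.2.2 hAB.2.2.1) (hpd A)
      (x0 := x0) (fun y => piece_of_notMem (hA y))
  have good_h : ∀ y0 : N, ∀ A B, Split (bad G) A B → (∀ x, (x, y0) ∉ A) → HasLog (piece G A) := by
    intro y0 A B hAB hA
    exact log_of_horizontal_one (continuous_piece hG hAB.1 hAB.2.1 hAB.2.2.2 hAB.2.2.1) (hpd A)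
      (y0 := y0) (fun y => piece_of_notMem (hA y))
  have key : ∃ P Q, Split (bad G) P Q ∧ bad G ⊆ P ∧
      ∀ B C, Split (bad G) B C → B ⊆ P → HasLog (piece G B) := by
    refine IsCompact.induction_on (s := bad G) (p := fun S => ∃ P Q, Split (bad G) P Q ∧ S ⊆ P ∧
      ∀ B C, Split (bad G) B C → B ⊆ P → HasLog (piece G B)) hW.isCompact ?_ ?_ ?_ ?_
    · refine ⟨∅, bad G, ⟨isClosed_empty, hW, by simp, by simp⟩, Subset.rfl, ?_⟩
      intro B C hBC hB
      have : B = ∅ := subset_empty_iff.1 hB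
      subst this
      have : piece G ∅ = fun _ => (1 : Circle) := by
        funext p; exact piece_of_notMem (notMem_empty p)
      rw [this]; exact hasLog_one
    · rintro s t hst ⟨P, Q, h1, h2, h3⟩
      exact ⟨P, Q, h1, hst.trans h2, h3⟩
    · rintro s t ⟨P, Q, h1, h2, h3⟩ ⟨P', Q', h1', h2', h3'⟩
      refine ⟨P ∪ P', Q ∩ Q', ⟨h1.1.union h1'.1, h1.2.1.inter h1'.2.1, ?_, ?_⟩,
        union_subset_union h2 h2', ?_⟩
      · apply Subset.antisymm
        · rintro x ((hx | hx) | ⟨hx, -⟩)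
          · exact h1.left_subset hx
          · exact h1'.left_subset hx
          · exact h1.right_subset hx
        · intro x hx
          have e1 : x ∈ P ∪ Q := by rw [h1.2.2.1]; exact hx
          have e2 : x ∈ P' ∪ Q' := by rw [h1'.2.2.1]; exact hx
          rcases e1 with e1 | e1
          · left; left; exact e1
          · rcases e2 with e2 | e2
            · left; right; exact e2
            · right; exact ⟨e1, e2⟩
      · rw [disjoint_left]
        rintro x (hx | hx) ⟨hq, hq'⟩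
        · exact disjoint_left.1 h1.2.2.2 hx hq
        · exact disjoint_left.1 h1'.2.2.2 hx hq'
      · intro B C hBC hB
        have s1 := h1.inter hBC
        have s2 := h1.symm.inter hBC
        have l1 := h3 _ _ s1 inter_subset_right
        have l2 := h3' _ _ s2 (by
          rintro x ⟨hx, hxQ⟩
          rcases hB hx with h | h
          · exact absurd hxQ (disjoint_left.1 h1.2.2.2 h)
          · exact h)
        have := l1.mul l2
        have e : piece G B = fun p => piece G (B ∩ P) p * piece G (B ∩ Q) p := by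
          funext p
          have hB' : B = (B ∩ P) ∪ (B ∩ Q) := by
            rw [← inter_union_distrib_left, h1.2.2.1]
            exact (inter_eq_left.2 hBC.left_subset).symm
          conv_lhs => rw [hB']
          apply piece_union
          exact (h1.2.2.2.mono inter_subset_right inter_subset_right)
        rw [e]; exact this
    · intro p hp
      have hC := ctm_component hW.isCompact hp
      have hCW := connectedComponentIn_subset (bad G) p
      -- the component misses a slice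
      have hmiss : (∃ x0 : N, connectedComponentIn (bad G) p ∩ {q | q.1 = x0} = ∅) ∨
          (∃ y0 : N, connectedComponentIn (bad G) p ∩ {q | q.2 = y0} = ∅) := by
        by_contra hcon
        push Not at hcon
        obtain ⟨h1, h2⟩ := hcon
        obtain ⟨q, hq, hq'⟩ := hN _ hC (by
            rw [eq_univ_iff_forall]
            intro x
            obtain ⟨q, hq, hq'⟩ := h1 x
            exact ⟨q, hq, hq'⟩) (by
            rw [eq_univ_iff_forall]
            intro y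
            obtain ⟨q, hq, hq'⟩ := h2 y
            exact ⟨q, hq, hq'⟩)
        have := hCW hq
        obtain ⟨u, v⟩ := q
        simp only at hq'
        subst hq'
        exact hnd u this
      rcases hmiss with ⟨x0, hx0⟩ | ⟨y0, hy0⟩
      · have hcl : IsClosed {q : N × N | q.1 = x0} := isClosed_eq continuous_fst continuous_const
        obtain ⟨P, Q, h1, h2, h3, h4, h5, h6⟩ := clopen_nhd_component hW.isCompact hp hcl hx0
        refine ⟨P, ?_, P, Q, ⟨h1.isClosed, h2.isClosed, h3, h4⟩, Subset.rfl, ?_⟩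
        · have hQ : Qᶜ ∈ 𝓝 p := by
            apply h2.isClosed.isOpen_compl.mem_nhds
            intro hpQ
            exact disjoint_left.1 h4 (h5 (mem_connectedComponentIn hp)) hpQ
          rw [mem_nhdsWithin_iff_exists_mem_nhds_inter]
          refine ⟨Qᶜ, hQ, ?_⟩
          rintro x ⟨hxQ, hx⟩
          rw [← h3] at hx
          exact hx.resolve_right hxQ
        · intro B C hBC hB
          apply good_v x0 B C hBC
          intro y hy
          have hyP : (x0, y) ∈ P := hB hy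
          exact disjoint_left.1 h4 hyP (h6 ⟨hBC.left_subset hy, rfl⟩)
      · have hcl : IsClosed {q : N × N | q.2 = y0} := isClosed_eq continuous_snd continuous_const
        obtain ⟨P, Q, h1, h2, h3, h4, h5, h6⟩ := clopen_nhd_component hW.isCompact hp hcl hy0
        refine ⟨P, ?_, P, Q, ⟨h1.isClosed, h2.isClosed, h3, h4⟩, Subset.rfl, ?_⟩
        · have hQ : Qᶜ ∈ 𝓝 p := by
            apply h2.isClosed.isOpen_compl.mem_nhds
            intro hpQ
            exact disjoint_left.1 h4 (h5 (mem_connectedComponentIn hp)) hpQ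
          rw [mem_nhdsWithin_iff_exists_mem_nhds_inter]
          refine ⟨Qᶜ, hQ, ?_⟩
          rintro x ⟨hxQ, hx⟩
          rw [← h3] at hx
          exact hx.resolve_right hxQ
        · intro B C hBC hB
          apply good_h y0 B C hBC
          intro y hy
          have hyP : (y, y0) ∈ P := hB hy
          exact disjoint_left.1 h4 hyP (h6 ⟨hBC.left_subset hy, rfl⟩)
  obtain ⟨P, Q, hPQ, hP, hlog⟩ := key
  have hfull : HasLog (piece G (bad G)) :=
    hlog (bad G) ∅ ⟨hW, isClosed_empty, by simp, by simp⟩ hP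
  obtain ⟨l, hl, hl'⟩ := hfull
  obtain ⟨y0⟩ : Nonempty N := inferInstance
  refine ⟨fun x => l (x, y0) + al (G (x, y0)) + Complex.arg (g y0), ?_, ?_⟩
  · apply Continuous.add _ continuous_const
    exact (hl.comp (continuous_id.prodMk continuous_const)).add
      ((continuous_al.comp hG).comp (continuous_id.prodMk continuous_const))
  · intro x
    rw [Circle.exp_add, Circle.exp_add, hl', exp_arg, piece_bad_mul]
    simp [hGdef]


/-- symmetric span zero, topological form -/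
def SymZ (M : Type*) [TopologicalSpace M] : Prop :=
  ∀ C : Set (M × M), Ctm C → ∀ x y : M, (x, y) ∈ C → (y, x) ∈ C → ∃ p ∈ C, p.1 = p.2

/-- surjective span zero on a subset, topological form -/
def SSZ {M : Type*} [TopologicalSpace M] (A : Set M) : Prop :=
  ∀ Z : Set (M × M), Ctm Z → Prod.fst '' Z = A → Prod.snd '' Z = A → ∃ p ∈ Z, p.1 = p.2

/-- `g` has a logarithm on `S` -/
def HL {M : Type*} [TopologicalSpace M] (g : M → Circle) (S : Set M) : Prop :=
  ∃ l : M → ℝ, ContinuousOn l S ∧ ∀ x ∈ S, Circle.exp (l x) = g x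

/-- indecomposable -/
def Indec {M : Type*} [TopologicalSpace M] (N : Set M) : Prop :=
  ∀ A B : Set M, Ctm A → Ctm B → A ∪ B = N → A = N ∨ B = N

theorem SSZ.hl {M : Type*} [TopologicalSpace M] [CompactSpace M] [T2Space M] {S : Set M}
    (hA : SSZ S) (hS : Ctm S) {g : M → Circle} (hg : ContinuousOn g S) : HL g S := by
  classical
  have : CompactSpace S := isCompact_iff_compactSpace.1 hS.1
  have : ConnectedSpace S := isConnected_iff_connectedSpace.1 hS.2
  have hcont : Continuous (Prod.map Subtype.val Subtype.val : S × S → M × M) :=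
    continuous_subtype_val.prodMap continuous_subtype_val
  obtain ⟨l, hl, hl'⟩ := log_of_surj (N := S) (by
    intro Z hZ h1 h2
    obtain ⟨p, hp, hpe⟩ := hA (Prod.map Subtype.val Subtype.val '' Z)
      (hZ.image hcont.continuousOn) (by
        rw [image_image]
        simp only [Prod.map_fst]
        rw [← image_image Subtype.val Prod.fst, h1, image_univ, Subtype.range_coe]) (by
        rw [image_image]
        simp only [Prod.map_snd]
        rw [← image_image Subtype.val Prod.snd, h2, image_univ, Subtype.range_coe])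
    obtain ⟨q, hq, rfl⟩ := hp
    exact ⟨q, hq, Subtype.val_injective hpe⟩) (g := fun x : S => g x)
    (continuousOn_iff_continuous_domRestrict.1 hg)
  refine ⟨fun x => if h : x ∈ S then l ⟨x, h⟩ else 0, ?_, ?_⟩
  · rw [continuousOn_iff_continuous_domRestrict]
    convert hl using 1
    funext x
    simp
  · intro x hx
    simp only [hx, dif_pos]
    exact hl' ⟨x, hx⟩

theorem glue1 {M : Type*} [TopologicalSpace M] {P Q : Set M} (hP : IsClosed P) (hQ : IsClosed Q)
    (hPQ : IsPreconnected (P ∩ Q)) {g : M → Circle} (hlP : HL g P) (hlQ : HL g Q) :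
    HL g (P ∪ Q) := by
  classical
  obtain ⟨l1, hl1, hl1'⟩ := hlP
  obtain ⟨l2, hl2, hl2'⟩ := hlQ
  have hconst : ∃ n : ℤ, ∀ x ∈ P ∩ Q, l1 x - l2 x = n * (2 * Real.pi) := by
    by_cases hne : (P ∩ Q).Nonempty
    · obtain ⟨x0, hx0⟩ := hne
      have h0 : Circle.exp (l1 x0 - l2 x0) = 1 := by
        rw [Circle.exp_sub, hl1' x0 hx0.1, hl2' x0 hx0.2]; simp
      obtain ⟨n, hn⟩ := circle_exp_eq_one h0
      refine ⟨n, fun x hx => ?_⟩
      rw [← hn]
      exact log_unique hPQ (hl1.mono inter_subset_left) (hl2.mono inter_subset_right)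
        (fun y hy => by rw [hl1' y hy.1, hl2' y hy.2]) hx hx0
    · exact ⟨0, fun x hx => absurd ⟨x, hx⟩ hne⟩
  obtain ⟨n, hn⟩ := hconst
  set l : M → ℝ := fun x => if x ∈ P then l1 x else l2 x + n * (2 * Real.pi) with hl
  have lP : ∀ x ∈ P, l x = l1 x := by intro x hx; simp [hl, hx]
  have lQ : ∀ x ∈ Q, l x = l2 x + n * (2 * Real.pi) := by
    intro x hx
    by_cases hxP : x ∈ P
    · rw [lP x hxP]
      have := hn x ⟨hxP, hx⟩
      linarith
    · simp [hl, hxP]
  refine ⟨l, ?_, ?_⟩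
  · apply ContinuousOn.union_of_isClosed _ _ hP hQ
    · exact hl1.congr lP
    · exact (hl2.add continuousOn_const).congr lQ
  · rintro x (hx | hx)
    · rw [lP x hx, hl1' x hx]
    · rw [lQ x hx, Circle.exp_add, hl2' x hx, circle_exp_int, mul_one]

theorem tri {M : Type*} [TopologicalSpace M] [CompactSpace M] [T2Space M] (hM : SymZ M)
    {A B C : Set M} (hA : Ctm A) (hB : Ctm B) (hC : Ctm C) (hAB : (A ∩ B).Nonempty)
    (hBC : (B ∩ C).Nonempty) (hAC : (A ∩ C).Nonempty) :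
    A ⊆ B ∪ C ∨ B ⊆ A ∪ C ∨ C ⊆ A ∪ B := by
  by_contra hcon
  push Not at hcon
  obtain ⟨h1, h2, h3⟩ := hcon
  obtain ⟨a, haA, ha⟩ := Set.not_subset.1 h1
  obtain ⟨b, hbB, hb⟩ := Set.not_subset.1 h2
  obtain ⟨c, hcC, hc⟩ := Set.not_subset.1 h3
  have z1 : Ctm (({a} : Set M) ×ˢ (B ∪ C)) := ctm_vert (ctm_union hB hC hBC)
  have z2 : Ctm ((A ∪ B) ×ˢ ({c} : Set M)) := ctm_horz (ctm_union hA hB hAB)
  have z3 : Ctm (({b} : Set M) ×ˢ (A ∪ C)) := ctm_vert (ctm_union hA hC hAC)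
  have z12 : Ctm (({a} : Set M) ×ˢ (B ∪ C) ∪ (A ∪ B) ×ˢ ({c} : Set M)) :=
    ctm_union z1 z2 ⟨(a, c), ⟨rfl, Or.inr hcC⟩, ⟨Or.inl haA, rfl⟩⟩
  have z : Ctm (({a} : Set M) ×ˢ (B ∪ C) ∪ (A ∪ B) ×ˢ ({c} : Set M) ∪
      ({b} : Set M) ×ˢ (A ∪ C)) :=
    ctm_union z12 z3 ⟨(b, c), Or.inr ⟨Or.inr hbB, rfl⟩, ⟨rfl, Or.inr hcC⟩⟩
  obtain ⟨p, hp, hpe⟩ := hM _ z a b (Or.inl (Or.inl ⟨rfl, Or.inl hbB⟩))
    (Or.inr ⟨rfl, Or.inl haA⟩)
  rcases hp with (⟨hp1, hp2⟩ | ⟨hp1, hp2⟩) | ⟨hp1, hp2⟩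
  · rw [Set.mem_singleton_iff] at hp1
    rw [← hpe, hp1] at hp2
    exact ha hp2
  · rw [Set.mem_singleton_iff] at hp2
    rw [hpe, hp2] at hp1
    exact hc hp1
  · rw [Set.mem_singleton_iff] at hp1
    rw [← hpe, hp1] at hp2
    exact hb hp2

theorem uni_half {M : Type*} [TopologicalSpace M] [CompactSpace M] [T2Space M]
    {A B P R : Set M} (hA : Ctm A) (hP : IsClosed P) (hR : IsClosed R)
    (hPA : P ⊆ A) (hRA : R ⊆ A) (hcov : A ∩ B ⊆ P ∪ R) (hdisj : P ∩ R = ∅) {p r : M}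
    (hp : p ∈ P) (hr : r ∈ R) :
    ∃ K, Ctm K ∧ K ⊆ A ∧ p ∈ K ∧ r ∉ K ∧ ∃ x ∈ K, x ∉ B := by
  have hrP : r ∉ P := fun h => by
    have : r ∈ P ∩ R := ⟨h, hr⟩
    rw [hdisj] at this
    exact this
  obtain ⟨O, hO, hrO, hOP⟩ := normal_exists_closure_subset (isClosed_singleton (x := r))
    hP.isOpen_compl (by simpa using hrP)
  have hrO' : r ∈ O := hrO rfl
  have hpO : p ∉ O := fun h => hOP (subset_closure h) hp
  have hpAO : p ∈ A \ O := ⟨hPA hp, hpO⟩
  refine ⟨connectedComponentIn (A \ O) p, ctm_component (hA.1.diff hO) hpAO,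
    (connectedComponentIn_subset _ _).trans Set.sdiff_subset, mem_connectedComponentIn hpAO,
    fun h => (connectedComponentIn_subset _ _ h).2 hrO', ?_⟩
  by_contra hcon
  have hKB : connectedComponentIn (A \ O) p ⊆ B := by
    intro x hx
    by_contra hxB
    exact hcon ⟨x, hx, hxB⟩
  have hKPR : connectedComponentIn (A \ O) p ⊆ P ∪ R := fun x hx =>
    hcov ⟨(connectedComponentIn_subset _ _ hx).1, hKB hx⟩
  obtain ⟨q, hqK, hqO⟩ := bump hA hO ⟨r, hRA hr, hrO'⟩ (hPA hp) hpO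
  have hqP : q ∉ P := hOP hqO
  have hqR : q ∈ R := (hKPR hqK).resolve_left hqP
  have hpre : IsPreconnected (connectedComponentIn (A \ O) p) := isPreconnected_connectedComponentIn
  obtain ⟨z, _, hz⟩ := isPreconnected_closed_iff.1 hpre P R hP hR hKPR
    ⟨p, mem_connectedComponentIn hpAO, hp⟩ ⟨q, hqK, hqR⟩
  rw [hdisj] at hz
  exact hz

theorem uni {M : Type*} [TopologicalSpace M] [CompactSpace M] [T2Space M] (hM : SymZ M)
    {A B : Set M} (hA : Ctm A) (hB : Ctm B) : IsPreconnected (A ∩ B) := by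
  by_cases hBA : B ⊆ A
  · rw [Set.inter_eq_right.2 hBA]
    exact hB.2.isPreconnected
  · obtain ⟨y0, hy0B, hy0A⟩ := Set.not_subset.1 hBA
    rw [isPreconnected_closed_iff]
    intro t t' ht ht' hcov hne hne'
    by_contra hcon
    obtain ⟨p, hpAB, hpt⟩ := hne
    obtain ⟨r, hrAB, hrt⟩ := hne'
    have hABc : IsClosed (A ∩ B) := hA.1.isClosed.inter hB.1.isClosed
    have hP : IsClosed (A ∩ B ∩ t) := hABc.inter ht
    have hR : IsClosed (A ∩ B ∩ t') := hABc.inter ht'
    have hPA : A ∩ B ∩ t ⊆ A := fun x hx => hx.1.1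
    have hRA : A ∩ B ∩ t' ⊆ A := fun x hx => hx.1.1
    have hcov1 : A ∩ B ⊆ (A ∩ B ∩ t) ∪ (A ∩ B ∩ t') := by
      intro x hx
      rcases hcov hx with h | h
      · exact Or.inl ⟨hx, h⟩
      · exact Or.inr ⟨hx, h⟩
    have hcov2 : A ∩ B ⊆ (A ∩ B ∩ t') ∪ (A ∩ B ∩ t) := by
      rw [Set.union_comm]; exact hcov1
    have hd1 : (A ∩ B ∩ t) ∩ (A ∩ B ∩ t') = ∅ := by
      rw [Set.eq_empty_iff_forall_notMem]
      rintro x ⟨⟨h1, h2⟩, ⟨_, h3⟩⟩
      exact hcon ⟨x, h1, h2, h3⟩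
    have hd2 : (A ∩ B ∩ t') ∩ (A ∩ B ∩ t) = ∅ := by
      rw [Set.inter_comm]; exact hd1
    obtain ⟨K, hK, hKA, hpK, hrK, x1, hx1K, hx1B⟩ :=
      uni_half hA hP hR hPA hRA hcov1 hd1 (p := p) (r := r) ⟨hpAB, hpt⟩ ⟨hrAB, hrt⟩
    obtain ⟨K', hK', hKA', hrK', hpK', x2, hx2K, hx2B⟩ :=
      uni_half hA hR hP hRA hPA hcov2 hd2 (p := r) (r := p) ⟨hrAB, hrt⟩ ⟨hpAB, hpt⟩
    have c1 : Ctm (K ×ˢ ({r} : Set M) ∪ ({x1} : Set M) ×ˢ B) :=
      ctm_union (ctm_horz hK) (ctm_vert hB) ⟨(x1, r), ⟨hx1K, rfl⟩, ⟨rfl, hrAB.2⟩⟩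
    have c2 : Ctm (K ×ˢ ({r} : Set M) ∪ ({x1} : Set M) ×ˢ B ∪ A ×ˢ ({y0} : Set M)) :=
      ctm_union c1 (ctm_horz hA) ⟨(x1, y0), Or.inr ⟨rfl, hy0B⟩, ⟨hKA hx1K, rfl⟩⟩
    have c3 : Ctm (K ×ˢ ({r} : Set M) ∪ ({x1} : Set M) ×ˢ B ∪ A ×ˢ ({y0} : Set M) ∪
        ({x2} : Set M) ×ˢ B) :=
      ctm_union c2 (ctm_vert hB) ⟨(x2, y0), Or.inr ⟨hKA' hx2K, rfl⟩, ⟨rfl, hy0B⟩⟩
    have c4 : Ctm (K ×ˢ ({r} : Set M) ∪ ({x1} : Set M) ×ˢ B ∪ A ×ˢ ({y0} : Set M) ∪
        ({x2} : Set M) ×ˢ B ∪ K' ×ˢ ({p} : Set M)) :=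
      ctm_union c3 (ctm_horz hK') ⟨(x2, p), Or.inr ⟨rfl, hpAB.2⟩, ⟨hx2K, rfl⟩⟩
    obtain ⟨⟨q1, q2⟩, hq, hqq⟩ := hM _ c4 p r
      (Or.inl (Or.inl (Or.inl (Or.inl ⟨hpK, rfl⟩)))) (Or.inr ⟨hrK', rfl⟩)
    have hqq' : q1 = q2 := hqq
    subst hqq'
    rcases hq with (((⟨h1, h2⟩ | ⟨h1, h2⟩) | ⟨h1, h2⟩) | ⟨h1, h2⟩) | ⟨h1, h2⟩
    · have e : q1 = r := h2
      exact hrK (e ▸ h1)
    · have e : q1 = x1 := h1
      exact hx1B (e ▸ h2)
    · have e : q1 = y0 := h2
      exact hy0A (e ▸ h1)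
    · have e : q1 = x2 := h1
      exact hx2B (e ▸ h2)
    · have e : q1 = p := h2
      exact hpK' (e ▸ h1)

theorem exists_al : ∃ al : Circle → ℝ, Continuous al ∧
    ∀ z : Circle, 0 ≤ (z : ℂ).re → Circle.exp (al z) = z :=
  ⟨al, continuous_al, fun z hz => by rw [al_of_re_nonneg hz, exp_arg]⟩

theorem log_nhd {M : Type*} [TopologicalSpace M] [CompactSpace M] [T2Space M] {N K : Set M}
    (hN : IsClosed N) (hKN : K ⊆ N) (hK : IsClosed K) {g : M → Circle} (hg : ContinuousOn g N)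
    (hl : ∃ l : M → ℝ, ContinuousOn l K ∧ ∀ x ∈ K, Circle.exp (l x) = g x) :
    ∃ U : Set M, IsOpen U ∧ K ⊆ U ∧
      ∃ l : M → ℝ, ContinuousOn l (N ∩ U) ∧ ∀ x ∈ N ∩ U, Circle.exp (l x) = g x := by
  obtain ⟨l, hlc, hle⟩ := hl
  obtain ⟨al, halc, hal⟩ := exists_al
  obtain ⟨L, hL⟩ := ContinuousMap.exists_restrict_eq hK (⟨K.restrict l, hlc.restrict⟩ : C(K, ℝ))
  have hLK : ∀ x ∈ K, L x = l x := fun x hx => by
    have h := congrArg (fun f : C(K, ℝ) => f ⟨x, hx⟩) hL
    exact h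
  obtain ⟨h, hh⟩ : ∃ h : M → Circle, ∀ x, h x = g x * Circle.exp (-(L x)) := ⟨_, fun _ => rfl⟩
  have hhf : h = fun x => g x * Circle.exp (-(L x)) := funext hh
  have hhc : ContinuousOn h N := by
    rw [hhf]
    exact hg.mul (Circle.exp.continuous.comp L.continuous.neg).continuousOn
  have hre : ContinuousOn (fun x => ((h x : Circle) : ℂ).re) N :=
    (Complex.continuous_re.comp continuous_subtype_val).comp_continuousOn hhc
  have hFc : IsClosed (N ∩ (fun x => ((h x : Circle) : ℂ).re) ⁻¹' (Iic (1/2))) :=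
    hre.preimage_isClosed_of_isClosed hN isClosed_Iic
  refine ⟨(N ∩ (fun x => ((h x : Circle) : ℂ).re) ⁻¹' (Iic (1/2)))ᶜ, hFc.isOpen_compl, ?_,
    fun x => L x + al (h x), ?_, ?_⟩
  · intro x hx hxF
    have h1 : h x = 1 := by
      rw [hh, hLK x hx, ← hle x hx, ← Circle.exp_add, add_neg_cancel, Circle.exp_zero]
    have h2 : ((h x : Circle) : ℂ).re ≤ 1/2 := hxF.2
    rw [h1] at h2
    norm_num at h2
  · exact (L.continuous.continuousOn).add (halc.comp_continuousOn (hhc.mono inter_subset_left))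
  · rintro x ⟨hxN, hxF⟩
    have h1 : 0 ≤ ((h x : Circle) : ℂ).re := by
      by_contra hc
      push Not at hc
      exact hxF ⟨hxN, by show ((h x : Circle) : ℂ).re ≤ 1/2; linarith⟩
    rw [Circle.exp_add, hal _ h1, hh, mul_comm, mul_assoc, ← Circle.exp_add, neg_add_cancel,
      Circle.exp_zero, mul_one]

theorem logOn_all {M : Type*} [TopologicalSpace M] [CompactSpace M] [T2Space M]
    (huni : ∀ A B : Set M, Ctm A → Ctm B → IsPreconnected (A ∩ B))
    (hind : ∀ N : Set M, Ctm N → Indec N → ∀ g : M → Circle, ContinuousOn g N → HL g N) :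
    ∀ N : Set M, Ctm N → ∀ g : M → Circle, ContinuousOn g N → HL g N := by
  intro N hN g hg
  by_contra hno
  have hNS : N ∈ {K : Set M | K ⊆ N ∧ Ctm K ∧ ¬ HL g K} := ⟨subset_rfl, hN, hno⟩
  obtain ⟨K, hKN, hKmin⟩ := zorn_superset_nonempty {K : Set M | K ⊆ N ∧ Ctm K ∧ ¬ HL g K} (by
    intro c hcS hc hne
    have : Nonempty c := hne.to_subtype
    have hdir : Directed (· ⊇ ·) (fun i : c => (i : Set M)) := by
      intro i j
      rcases hc.total i.2 j.2 with h | h
      · exact ⟨i, subset_rfl, h⟩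
      · exact ⟨j, h, subset_rfl⟩
    have hctm : Ctm (⋂ i : c, (i : Set M)) := ctm_iInter_directed hdir fun i => (hcS i.2).2.1
    obtain ⟨i0⟩ := (inferInstance : Nonempty c)
    have hsubN : (⋂ i : c, (i : Set M)) ⊆ N := (iInter_subset _ i0).trans (hcS i0.2).1
    refine ⟨⋂ i : c, (i : Set M), ⟨hsubN, hctm, ?_⟩, fun s hs => iInter_subset (fun i : c => (i : Set M)) ⟨s, hs⟩⟩
    intro hHL
    obtain ⟨U, hU, hKU, l, hl1, hl2⟩ := log_nhd hN.1.isClosed hsubN hctm.1.isClosed hg hHL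
    obtain ⟨i, hi⟩ := exists_subset_nhds_of_isCompact hdir (fun i => (hcS i.2).2.1.1)
      (U := U) (fun x hx => hU.mem_nhds (hKU hx))
    have hiN : (i : Set M) ⊆ N ∩ U := subset_inter (hcS i.2).1 hi
    exact (hcS i.2).2.2 ⟨l, hl1.mono hiN, fun x hx => hl2 x (hiN hx)⟩) N hNS
  have hKS := hKmin.prop
  by_cases hI : Indec K
  · exact hKS.2.2 (hind K hKS.2.1 hI g (hg.mono hKS.1))
  · unfold Indec at hI
    push Not at hI
    obtain ⟨A, B, hA, hB, hAB, hAK, hBK⟩ := hI
    have hAsub : A ⊆ K := hAB ▸ subset_union_left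
    have hBsub : B ⊆ K := hAB ▸ subset_union_right
    have hlA : HL g A := by
      by_contra h
      exact hAK (Subset.antisymm hAsub (hKmin.le_of_le ⟨hAsub.trans hKS.1, hA, h⟩ hAsub))
    have hlB : HL g B := by
      by_contra h
      exact hBK (Subset.antisymm hBsub (hKmin.le_of_le ⟨hBsub.trans hKS.1, hB, h⟩ hBsub))
    have := glue1 hA.1.isClosed hB.1.isClosed (huni A B hA hB) hlA hlB
    rw [hAB] at this
    exact hKS.2.2 this

theorem key {M : Type*} [TopologicalSpace M] [CompactSpace M] [T2Space M] (hM : SymZ M)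
    (hind : ∀ N : Set M, Ctm N → Indec N → SSZ N) {Z : Set (M × M)} (hZ : Ctm Z)
    (he : Prod.fst '' Z = Prod.snd '' Z) : ∃ p ∈ Z, p.1 = p.2 := by
  have hlog := logOn_all (fun A B hA hB => uni hM hA hB)
    (fun N hN hi g hg => (hind N hN hi).hl hN hg)
  have hG : Pool.Agent.Helper879.V.CG.Good M :=
    ⟨fun hS hSc g hg => hlog _ ⟨hS.isCompact, hSc⟩ g hg, fun hA hB hC h => by
      obtain ⟨o, ⟨ha, hb⟩, hc⟩ := h
      exact tri hM hA hB hC ⟨o, ha, hb⟩ ⟨o, hb, hc⟩ ⟨o, ha, hc⟩⟩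
  by_contra hd
  push Not at hd
  obtain ⟨Y, hYZ, hY, hYe, hYd, hmin⟩ := minimal_both hG hZ (by rw [he]) hd
  have hN : Ctm (Prod.fst '' Y) := hY.image continuous_fst.continuousOn
  have hi : Indec (Prod.fst '' Y) := fun A B hA hB hAB => hG.side hY hYe hmin hA hB hAB
  obtain ⟨p, hp, hpe⟩ := hind _ hN hi Y hY rfl hYe.symm
  exact hYd p hp hpe

theorem ctm_pre {X : Type*} [TopologicalSpace X] {S A : Set X} (hA : Ctm A) (hAS : A ⊆ S) :
    Ctm (Subtype.val ⁻¹' A : Set S) := by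
  have e : Subtype.val '' (Subtype.val ⁻¹' A : Set S) = A := by
    rw [Subtype.image_preimage_coe, inter_eq_right.2 hAS]
  refine ⟨?_, ?_, ?_⟩
  · rw [Topology.IsInducing.subtypeVal.isCompact_iff, e]; exact hA.1
  · obtain ⟨x, hx⟩ := hA.2.nonempty
    exact ⟨⟨x, hAS hx⟩, hx⟩
  · rw [← Topology.IsInducing.subtypeVal.isPreconnected_image, e]; exact hA.2.isPreconnected

theorem key_sub {X : Type*} [TopologicalSpace X] [CompactSpace X] [T2Space X] (hM : SymZ X)
    (hs : SSZ (univ : Set X))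
    (hind : ∀ N : Set X, Ctm N → N ≠ univ → Indec N → SSZ N) {Z : Set (X × X)} (hZ : Ctm Z)
    (he : Prod.fst '' Z = Prod.snd '' Z) : ∃ p ∈ Z, p.1 = p.2 := by
  by_cases hu : Prod.fst '' Z = univ
  · exact hs Z hZ hu (he ▸ hu)
  set S : Set X := Prod.fst '' Z with hS
  have hSc : Ctm S := hZ.image continuous_fst.continuousOn
  have : CompactSpace S := isCompact_iff_compactSpace.1 hSc.1
  set v : S × S → X × X := Prod.map Subtype.val Subtype.val with hv
  have hvc : Continuous v := continuous_subtype_val.prodMap continuous_subtype_val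
  have f1 : ∀ C : Set (S × S), Prod.fst '' (v '' C) = Subtype.val '' (Prod.fst '' C) := by
    intro C; rw [image_image, image_image]; rfl
  have f2 : ∀ C : Set (S × S), Prod.snd '' (v '' C) = Subtype.val '' (Prod.snd '' C) := by
    intro C; rw [image_image, image_image]; rfl
  have hvi : IsInducing v := IsInducing.subtypeVal.prodMap IsInducing.subtypeVal
  have hsub : Z ⊆ range v := by
    rintro ⟨x, y⟩ hp
    exact ⟨(⟨x, ⟨_, hp, rfl⟩⟩, ⟨y, by rw [he]; exact ⟨_, hp, rfl⟩⟩), rfl⟩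
  have eZ : v '' (v ⁻¹' Z) = Z := image_preimage_eq_of_subset hsub
  have hZ' : Ctm (v ⁻¹' Z) := by
    refine ⟨?_, ?_, ?_⟩
    · rw [hvi.isCompact_iff, eZ]; exact hZ.1
    · obtain ⟨p, hp⟩ := hZ.2.nonempty
      obtain ⟨q, rfl⟩ := hsub hp
      exact ⟨q, hp⟩
    · rw [← hvi.isPreconnected_image, eZ]; exact hZ.2.isPreconnected
  have g1 : SymZ S := by
    intro C hC x y hxy hyx
    obtain ⟨p, hp, hpe⟩ := hM (v '' C) (hC.image hvc.continuousOn) x y ⟨_, hxy, rfl⟩ ⟨_, hyx, rfl⟩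
    obtain ⟨q, hq, rfl⟩ := hp
    exact ⟨q, hq, Subtype.val_injective hpe⟩
  have g2 : ∀ N : Set S, Ctm N → Indec N → SSZ N := by
    intro N' hN' hi' Z' hZ' h1 h2
    have hN : Ctm (Subtype.val '' N') := hN'.image continuous_subtype_val.continuousOn
    have hNS : Subtype.val '' N' ⊆ S := by rintro _ ⟨x, -, rfl⟩; exact x.2
    have hi : Indec (Subtype.val '' N') := by
      intro A B hA hB hAB
      have hAS : A ⊆ S := (subset_union_left.trans hAB.subset).trans hNS
      have hBS : B ⊆ S := (subset_union_right.trans hAB.subset).trans hNS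
      have e : (Subtype.val ⁻¹' A : Set S) ∪ Subtype.val ⁻¹' B = N' := by
        rw [← preimage_union, hAB, preimage_image_eq _ Subtype.val_injective]
      have eA : Subtype.val '' (Subtype.val ⁻¹' A : Set S) = A := by
        rw [Subtype.image_preimage_coe, inter_eq_right.2 hAS]
      have eB : Subtype.val '' (Subtype.val ⁻¹' B : Set S) = B := by
        rw [Subtype.image_preimage_coe, inter_eq_right.2 hBS]
      rcases hi' _ _ (ctm_pre hA hAS) (ctm_pre hB hBS) e with h | h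
      · left; rw [← eA, h]
      · right; rw [← eB, h]
    obtain ⟨p, hp, hpe⟩ := hind _ hN (by
      intro h; rw [h] at hNS; exact hu (univ_subset_iff.1 hNS)) hi (v '' Z')
      (hZ'.image hvc.continuousOn) (by rw [f1, h1]) (by rw [f2, h2])
    obtain ⟨q, hq, rfl⟩ := hp
    exact ⟨q, hq, Subtype.val_injective hpe⟩
  have g3 : Prod.fst '' (v ⁻¹' Z) = Prod.snd '' (v ⁻¹' Z) := by
    apply Subtype.val_injective.image_injective
    rw [← f1, ← f2, eZ, ← he]
  obtain ⟨p, hp, hpe⟩ := key (M := S) (Z := v ⁻¹' Z) g1 g2 hZ' g3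
  exact ⟨v p, hp, congrArg Subtype.val hpe⟩

end Pool.Agent.Helper879.SS
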