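import Pool.Agent.Helper879.SS.Cont

set_option autoImplicit false

open Set Topology
open Pool.Agent.Helper879.V.CT
open Pool.Agent.Helper879.V.CG (minimal_both ulim ulim_subset ulim_image ctm_ulim)

namespace Pool.Agent.Helper879.SS

/-- three pairwise intersecting continua: one lies in the union of the others -/
def Tri (X : Type*) [TopologicalSpace X] : Prop :=
  ∀ A B C : Set X, Ctm A → Ctm B → Ctm C → (A ∩ B).Nonempty → (B ∩ C).Nonempty →
    (A ∩ C).Nonempty → A ⊆ B ∪ C ∨ B ⊆ A ∪ C ∨ C ⊆ A ∪ B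

/-- hereditary unicoherence -/
def Uni (X : Type*) [TopologicalSpace X] : Prop :=
  ∀ A B : Set X, Ctm A → Ctm B → IsPreconnected (A ∩ B)

/-- the component of `z` in the part of `Z` over `W` -/
def DD {X : Type} [MetricSpace X] (Z : Set (X × X)) (W : Set X) (z : X × X) : Set (X × X) :=
  connectedComponentIn (Z ∩ Prod.fst ⁻¹' W) z

/-- closed neighbourhoods of `K` -/
def WW {X : Type} [MetricSpace X] (K : Set X) (n : ℕ) : Set X :=
  Metric.cthickening (1 / ((n : ℝ) + 1)) K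

theorem DD_out {X : Type} [MetricSpace X] [CompactSpace X] {Z : Set (X × X)} (hZ : Ctm Z)
    {K : Set X} (hNK : ¬ Prod.fst '' Z ⊆ K) {z : X × X} (hz : z ∈ Z) (hzK : z.1 ∈ K) (n : ℕ) :
    ¬ Prod.fst '' DD Z (WW K n) z ⊆ K := by
  have hpos : (0:ℝ) < 1 / ((n : ℝ) + 1) := by positivity
  set W : Set X := WW K n with hWdef
  have hWcl : IsClosed W := Metric.isClosed_cthickening
  have hKint : K ⊆ interior W := by
    have h1 : Metric.thickening (1 / ((n : ℝ) + 1)) K ⊆ interior W :=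
      interior_maximal (Metric.thickening_subset_cthickening _ _) Metric.isOpen_thickening
    exact (Metric.self_subset_thickening hpos K).trans h1
  have hzW : z.1 ∈ W := interior_subset (hKint hzK)
  set O : Set (X × X) := Prod.fst ⁻¹' Wᶜ with hOdef
  have hO : IsOpen O := hWcl.isOpen_compl.preimage continuous_fst
  have hZW : Z ∩ Prod.fst ⁻¹' W = Z \ O := by
    ext p
    simp [hOdef]
  have hzO : z ∉ O := by
    simp [hOdef, hzW]
  intro hsub
  by_cases hne : (Z ∩ O).Nonempty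
  · obtain ⟨w, hw1, hw2⟩ := bump hZ hO hne hz hzO
    have hw3 : w ∈ DD Z W z := by
      unfold DD
      rw [hZW]
      exact hw1
    have hw4 : w.1 ∈ K := hsub ⟨w, hw3, rfl⟩
    have hw5 : w.1 ∈ interior W := hKint hw4
    -- the open set fst ⁻¹' interior W meets O
    have hopen : IsOpen (Prod.fst ⁻¹' (interior W) : Set (X × X)) :=
      isOpen_interior.preimage continuous_fst
    obtain ⟨q, hq1, hq2⟩ := mem_closure_iff.mp hw2 _ hopen hw5
    exact hq2 (interior_subset hq1)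
  · have hZO : Z ∩ O = ∅ := not_nonempty_iff_eq_empty.mp hne
    have hZW' : Z ∩ Prod.fst ⁻¹' W = Z := by
      rw [hZW]
      ext p
      constructor
      · exact fun h => h.1
      · intro hp
        refine ⟨hp, fun hpO => ?_⟩
        have : p ∈ Z ∩ O := ⟨hp, hpO⟩
        rw [hZO] at this
        exact this
    apply hNK
    have hDD : DD Z W z = Z := by
      unfold DD
      rw [hZW']
      exact hZ.2.isPreconnected.connectedComponentIn hz
    rw [hDD] at hsub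
    exact hsub

theorem DD_lim {X : Type} [MetricSpace X] [CompactSpace X] {Z : Set (X × X)} (hZ : Ctm Z)
    {K : Set X} (hK : IsClosed K) {z : X × X} (hz : z ∈ Z) (hzK : z.1 ∈ K) {y : X}
    (hy : y ∉ Prod.fst '' DD Z K z) : ∃ n, y ∉ Prod.fst '' DD Z (WW K n) z := by
  by_contra hcon
  push Not at hcon
  have hWm : ∀ m n : ℕ, m ≤ n → WW K n ⊆ WW K m := by
    intro m n hmn
    unfold WW
    apply Metric.cthickening_mono
    exact Nat.one_div_le_one_div hmn
  have hΦc : ∀ n, IsCompact (Z ∩ Prod.fst ⁻¹' (WW K n)) := by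
    intro n
    apply hZ.1.inter_right
    exact Metric.isClosed_cthickening.preimage continuous_fst
  have hΦz : ∀ n, z ∈ Z ∩ Prod.fst ⁻¹' (WW K n) := by
    intro n
    exact ⟨hz, Metric.self_subset_cthickening K hzK⟩
  have hV : ∀ n, Ctm (DD Z (WW K n) z) := fun n => ctm_component (hΦc n) (hΦz n)
  have hanti : Antitone (fun n => DD Z (WW K n) z) := by
    intro m n hmn
    apply connectedComponentIn_mono
    exact Set.inter_subset_inter_right _ (Set.preimage_mono (hWm m n hmn))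
  have hT := IsCompact.nonempty_iInter_of_sequence_nonempty_isCompact_isClosed
    (fun n => DD Z (WW K n) z ∩ Prod.fst ⁻¹' ({y} : Set X))
    (by
      intro n
      exact Set.inter_subset_inter_left _ (hanti (Nat.le_succ n)))
    (by
      intro n
      obtain ⟨p, hp, hpy⟩ := hcon n
      exact ⟨p, hp, hpy⟩)
    ((hV 0).1.inter_right (isClosed_singleton.preimage continuous_fst))
    (by
      intro n
      exact (hV n).1.isClosed.inter (isClosed_singleton.preimage continuous_fst))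
  obtain ⟨q, hq⟩ := hT
  rw [Set.mem_iInter] at hq
  have hC : Ctm (⋂ n, DD Z (WW K n) z) := ctm_iInter_directed (hanti.directed_ge) hV
  have hsub : (⋂ n, DD Z (WW K n) z) ⊆ Z ∩ Prod.fst ⁻¹' K := by
    intro p hp
    rw [Set.mem_iInter] at hp
    have h1 : ∀ n, p ∈ Z ∩ Prod.fst ⁻¹' (WW K n) := fun n => connectedComponentIn_subset _ _ (hp n)
    refine ⟨(h1 0).1, ?_⟩
    show p.1 ∈ K
    rw [← hK.closure_eq, Metric.closure_eq_iInter_cthickening]
    rw [Set.mem_iInter]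
    intro δ
    rw [Set.mem_iInter]
    intro hδ
    obtain ⟨n, hn⟩ := exists_nat_one_div_lt hδ
    exact Metric.cthickening_mono hn.le K (h1 n).2
  have hzV : z ∈ ⋂ n, DD Z (WW K n) z := by
    rw [Set.mem_iInter]
    intro n
    exact mem_connectedComponentIn (hΦz n)
  have hfin := IsPreconnected.subset_connectedComponentIn hC.2.isPreconnected hzV hsub
  apply hy
  refine ⟨q, hfin ?_, (hq 0).2⟩
  rw [Set.mem_iInter]
  exact fun n => (hq n).1

theorem DD_nested_ctm {X : Type} [MetricSpace X] {Z : Set (X × X)}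
    (hZ : Ctm Z) {W : Set X} (hW : IsClosed W) {z : X × X} (hz : z ∈ Z) (hzW : z.1 ∈ W) :
    Ctm (Prod.fst '' DD Z W z) :=
  Ctm.image (ctm_component (hZ.1.inter_right (hW.preimage continuous_fst)) ⟨hz, hzW⟩)
    continuous_fst.continuousOn

theorem DD_nested_mem {X : Type} [MetricSpace X] {Z : Set (X × X)}
    {W : Set X} {z : X × X} (hz : z ∈ Z) (hzW : z.1 ∈ W) :
    z.1 ∈ Prod.fst '' DD Z W z :=
  mem_image_of_mem _ (mem_connectedComponentIn ⟨hz, hzW⟩)

theorem DD_nested_mono {X : Type} [MetricSpace X] {Z : Set (X × X)}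
    {W W' : Set X} (h : W ⊆ W') (z : X × X) :
    Prod.fst '' DD Z W z ⊆ Prod.fst '' DD Z W' z :=
  image_mono (connectedComponentIn_mono _ (inter_subset_inter_right _ (preimage_mono h)))

theorem DD_nested_sub {X : Type} [MetricSpace X] {Z : Set (X × X)}
    (W : Set X) (z : X × X) : Prod.fst '' DD Z W z ⊆ W := by
  rintro _ ⟨y, hy, rfl⟩
  exact (connectedComponentIn_subset _ _ hy).2

theorem DD_nested_sub' {X : Type} [MetricSpace X] {Z : Set (X × X)}
    (W : Set X) (z : X × X) : Prod.fst '' DD Z W z ⊆ Prod.fst '' Z := by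
  rintro _ ⟨y, hy, rfl⟩
  exact mem_image_of_mem _ (connectedComponentIn_subset _ _ hy).1

theorem DD_nested_WW {X : Type} [MetricSpace X] (K : Set X) {m n : ℕ} (h : m ≤ n) :
    WW K n ⊆ WW K m := by
  unfold WW
  apply Metric.cthickening_mono
  apply one_div_le_one_div_of_le (by positivity)
  have : (m : ℝ) ≤ n := by exact_mod_cast h
  linarith

theorem DD_nested_WWs {X : Type} [MetricSpace X] (K : Set X) (n : ℕ) : K ⊆ WW K n :=
  Metric.self_subset_cthickening K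

theorem DD_nested {X : Type} [MetricSpace X] [CompactSpace X] (ht : Tri X) (hu : Uni X)
    {N L : Set X} (hN : Ctm N) (hL : Ctm L) (hLN : ¬ L ⊆ N) (hNL : ¬ N ⊆ L)
    {Z : Set (X × X)} (hZ : Ctm Z) (hZN : Prod.fst '' Z = N) {z z' : X × X} (hz : z ∈ Z)
    (hzK : z.1 ∈ N ∩ L) (hz' : z' ∈ Z) (hzK' : z'.1 ∈ N ∩ L) :
    Prod.fst '' DD Z (N ∩ L) z ⊆ Prod.fst '' DD Z (N ∩ L) z' ∨
    Prod.fst '' DD Z (N ∩ L) z' ⊆ Prod.fst '' DD Z (N ∩ L) z := by
  set K := N ∩ L with hKdef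
  have hKc : IsCompact K := hN.1.inter hL.1
  have hKcl : IsClosed K := hKc.isClosed
  have hKC : Ctm K := ⟨hKc, ⟨z.1, hzK⟩, hu N L hN hL⟩
  have hWcl : ∀ n, IsClosed (WW K n) := fun n => Metric.isClosed_cthickening
  have hNK : ¬ Prod.fst '' Z ⊆ K := by
    rw [hZN]
    intro h
    exact hNL (fun x hx => (h hx).2)
  have hA : ∀ n, Ctm (Prod.fst '' DD Z (WW K n) z) := fun n =>
    DD_nested_ctm hZ (hWcl n) hz (DD_nested_WWs K n hzK)
  have hA' : ∀ n, Ctm (Prod.fst '' DD Z (WW K n) z') := fun n =>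
    DD_nested_ctm hZ (hWcl n) hz' (DD_nested_WWs K n hzK')
  have hzA : ∀ n, z.1 ∈ Prod.fst '' DD Z (WW K n) z := fun n =>
    DD_nested_mem hz (DD_nested_WWs K n hzK)
  have hzA' : ∀ n, z'.1 ∈ Prod.fst '' DD Z (WW K n) z' := fun n =>
    DD_nested_mem hz' (DD_nested_WWs K n hzK')
  have hAN : ∀ n, Prod.fst '' DD Z (WW K n) z ⊆ N := fun n => by
    rw [← hZN]; exact DD_nested_sub' _ _
  have hAN' : ∀ n, Prod.fst '' DD Z (WW K n) z' ⊆ N := fun n => by
    rw [← hZN]; exact DD_nested_sub' _ _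
  -- Step 1
  have step1 : ∀ n, ¬ (Prod.fst '' DD Z (WW K n) z ∩ Prod.fst '' DD Z (WW K n) z' ⊆ K) := by
    intro n hn
    have c1 : Ctm (Prod.fst '' DD Z (WW K n) z ∪ K) :=
      ctm_union (hA n) hKC ⟨z.1, hzA n, hzK⟩
    have c2 : Ctm (Prod.fst '' DD Z (WW K n) z' ∪ K) :=
      ctm_union (hA' n) hKC ⟨z'.1, hzA' n, hzK'⟩
    rcases ht _ _ L c1 c2 hL ⟨z.1, Or.inr hzK, Or.inr hzK⟩ ⟨z.1, Or.inr hzK, hzK.2⟩
      ⟨z.1, Or.inr hzK, hzK.2⟩ with h | h | h
    · obtain ⟨x, hx, hxK⟩ := not_subset.1 (DD_out hZ hNK hz hzK n)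
      have hxN := hAN n hx
      rcases h (Or.inl hx) with (h1 | h1) | h1
      · exact hxK (hn ⟨hx, h1⟩)
      · exact hxK h1
      · exact hxK ⟨hxN, h1⟩
    · obtain ⟨x, hx, hxK⟩ := not_subset.1 (DD_out hZ hNK hz' hzK' n)
      have hxN := hAN' n hx
      rcases h (Or.inl hx) with (h1 | h1) | h1
      · exact hxK (hn ⟨h1, hx⟩)
      · exact hxK h1
      · exact hxK ⟨hxN, h1⟩
    · apply hLN
      intro x hx
      rcases h hx with (h1 | h1) | (h1 | h1)
      · exact hAN n h1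
      · exact h1.1
      · exact hAN' n h1
      · exact h1.1
  have hanti : ∀ {m n : ℕ}, m ≤ n → Prod.fst '' DD Z (WW K n) z ⊆ Prod.fst '' DD Z (WW K m) z :=
    fun h => DD_nested_mono (DD_nested_WW K h) z
  have hanti' : ∀ {m n : ℕ}, m ≤ n →
      Prod.fst '' DD Z (WW K n) z' ⊆ Prod.fst '' DD Z (WW K m) z' :=
    fun h => DD_nested_mono (DD_nested_WW K h) z'
  -- Step 2
  have step2 : (Prod.fst '' DD Z K z ∩ Prod.fst '' DD Z K z').Nonempty := by
    obtain ⟨y, hy⟩ := IsCompact.nonempty_iInter_of_sequence_nonempty_isCompact_isClosed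
      (fun n => Prod.fst '' DD Z (WW K n) z ∩ Prod.fst '' DD Z (WW K n) z')
      (fun n => inter_subset_inter (hanti (Nat.le_succ n)) (hanti' (Nat.le_succ n)))
      (fun n => by
        by_contra hne
        rw [not_nonempty_iff_eq_empty] at hne
        exact step1 n (by rw [hne]; exact empty_subset _))
      ((hA 0).1.inter (hA' 0).1)
      (fun n => ((hA n).1.inter (hA' n).1).isClosed)
    rw [mem_iInter] at hy
    refine ⟨y, ?_, ?_⟩
    · by_contra h
      obtain ⟨n, hn⟩ := DD_lim hZ hKcl hz hzK h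
      exact hn (hy n).1
    · by_contra h
      obtain ⟨n, hn⟩ := DD_lim hZ hKcl hz' hzK' h
      exact hn (hy n).2
  -- Step 3
  by_contra hcon
  push Not at hcon
  obtain ⟨h1, h2⟩ := hcon
  obtain ⟨b, hb, hbn⟩ := not_subset.1 h1
  obtain ⟨b', hb', hbn'⟩ := not_subset.1 h2
  obtain ⟨n1, hn1⟩ := DD_lim hZ hKcl hz' hzK' hbn
  obtain ⟨n2, hn2⟩ := DD_lim hZ hKcl hz hzK hbn'
  obtain ⟨w, hw1, hw2⟩ := step2
  set n := max n1 n2 with hn
  have hBA : Prod.fst '' DD Z K z ⊆ Prod.fst '' DD Z (WW K n) z :=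
    DD_nested_mono (DD_nested_WWs K n) z
  have hBA' : Prod.fst '' DD Z K z' ⊆ Prod.fst '' DD Z (WW K n) z' :=
    DD_nested_mono (DD_nested_WWs K n) z'
  have hJ : Ctm (Prod.fst '' DD Z (WW K n) z ∩ Prod.fst '' DD Z (WW K n) z') :=
    ⟨(hA n).1.inter (hA' n).1, ⟨w, hBA hw1, hBA' hw2⟩, hu _ _ (hA n) (hA' n)⟩
  rcases ht _ _ _ (DD_nested_ctm hZ hKcl hz hzK) (DD_nested_ctm hZ hKcl hz' hzK') hJ
    ⟨w, hw1, hw2⟩ ⟨w, hw2, hBA hw1, hBA' hw2⟩ ⟨w, hw1, hBA hw1, hBA' hw2⟩ with h | h | h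
  · rcases h hb with h3 | h3
    · exact hbn h3
    · exact hn1 (hanti' (le_max_left _ _) h3.2)
  · rcases h hb' with h3 | h3
    · exact hbn' h3
    · exact hn2 (hanti (le_max_right _ _) h3.1)
  · apply step1 n
    intro x hx
    rcases h hx with h3 | h3
    · exact DD_nested_sub K z h3
    · exact DD_nested_sub K z' h3

theorem sub_fst {X : Type} [MetricSpace X] [CompactSpace X] (ht : Tri X) (hu : Uni X)
    {N L : Set X} (hN : Ctm N) (hL : Ctm L) (hne : (N ∩ L).Nonempty) (hLN : ¬ L ⊆ N)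
    (hNL : ¬ N ⊆ L) {Z : Set (X × X)} (hZ : Ctm Z) (hZN : Prod.fst '' Z = N) :
    ∃ D ⊆ Z, Ctm D ∧ Prod.fst '' D = N ∩ L := by
  classical
  have hKc : IsClosed (N ∩ L) := hN.1.isClosed.inter hL.1.isClosed
  have hPhi : IsCompact (Z ∩ Prod.fst ⁻¹' (N ∩ L)) := hZ.1.inter_right (hKc.preimage continuous_fst)
  let ι := {z : X × X // z ∈ Z ∧ z.1 ∈ N ∩ L}
  have hex : ∀ y ∈ N ∩ L, ∃ z : X × X, z ∈ Z ∧ z.1 = y := by
    intro y hy
    have h1 : y ∈ Prod.fst '' Z := by rw [hZN]; exact hy.1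
    obtain ⟨z, hz, hzy⟩ := h1
    exact ⟨z, hz, hzy⟩
  have : Nonempty ι := by
    obtain ⟨y, hy⟩ := hne
    obtain ⟨z, hz, hzy⟩ := hex y hy
    exact ⟨⟨z, hz, by rw [hzy]; exact hy⟩⟩
  let E : ι → Set (X × X) := fun i => DD Z (N ∩ L) i.1
  have hE : ∀ i, Ctm (E i) := fun i => ctm_component hPhi ⟨i.2.1, i.2.2⟩
  have hEsub : ∀ i, E i ⊆ Z ∩ Prod.fst ⁻¹' (N ∩ L) := fun i => connectedComponentIn_subset _ _
  have hEmem : ∀ i : ι, i.1 ∈ E i := fun i => mem_connectedComponentIn ⟨i.2.1, i.2.2⟩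
  let S : ι → Set ι := fun i => {j | Prod.fst '' E i ⊆ Prod.fst '' E j}
  have hdir : Directed (· ≥ ·) (fun i => Filter.principal (S i)) := by
    intro i i'
    rcases DD_nested ht hu hN hL hLN hNL hZ hZN i.2.1 i.2.2 i'.2.1 i'.2.2 with h | h
    · refine ⟨i', ?_, le_refl _⟩
      simp only [ge_iff_le, Filter.principal_mono]
      intro j hj
      exact subset_trans h hj
    · refine ⟨i, le_refl _, ?_⟩
      simp only [ge_iff_le, Filter.principal_mono]
      intro j hj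
      exact subset_trans h hj
  have hNB : Filter.NeBot (⨅ i, Filter.principal (S i)) := by
    apply Filter.iInf_neBot_of_directed' hdir
    intro i
    rw [Filter.principal_neBot_iff]
    exact ⟨i, Set.Subset.refl (Prod.fst '' E i)⟩
  let u : Ultrafilter ι := Ultrafilter.of (⨅ i, Filter.principal (S i))
  have hu1 : ∀ i, S i ∈ (u : Filter ι) := by
    intro i
    have h1 : (u : Filter ι) ≤ ⨅ i, Filter.principal (S i) := Ultrafilter.of_le _
    have h2 : (u : Filter ι) ≤ Filter.principal (S i) := h1.trans (iInf_le _ i)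
    exact Filter.le_principal_iff.mp h2
  have hsub : ulim u E ⊆ Z ∩ Prod.fst ⁻¹' (N ∩ L) :=
    ulim_subset hPhi.isClosed (Filter.Eventually.of_forall hEsub)
  refine ⟨ulim u E, fun z hz => (hsub hz).1, ctm_ulim hE, ?_⟩
  apply Set.Subset.antisymm
  · rintro y ⟨z, hz, rfl⟩
    exact (hsub hz).2
  · intro y hy
    obtain ⟨z, hz, hzy⟩ := hex y hy
    let i : ι := ⟨z, hz, by rw [hzy]; exact hy⟩
    apply ulim_image continuous_fst
    filter_upwards [hu1 i] with j hj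
    apply hj
    exact ⟨z, hEmem i, hzy⟩

theorem ii_half {X : Type*} [TopologicalSpace X] {N K P Q : Set X} (hN : IsPreconnected N)
    (hKc : IsClosed K) (hKne : K.Nonempty)
    (hP : IsClosed P) (hQ : IsClosed Q) (hPQ : Disjoint P Q) (hcov : N = K ∪ P ∪ Q)
    (E F : Set X) (hE : IsClosed E) (hF : IsClosed F) (hsub : K ∪ P ⊆ E ∪ F)
    (hKF : ∀ x ∈ K, x ∉ F) (hne : ((K ∪ P) ∩ F).Nonempty) : ((K ∪ P) ∩ (E ∩ F)).Nonempty := by
  rw [isPreconnected_closed_iff] at hN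
  have h1 : IsClosed (((K ∪ P) ∩ E) ∪ Q) := ((hKc.union hP).inter hE).union hQ
  have h2 : IsClosed ((K ∪ P) ∩ F) := (hKc.union hP).inter hF
  obtain ⟨k, hk⟩ := hKne
  obtain ⟨f, hf⟩ := hne
  have hres := hN _ _ h1 h2 (by
      rw [hcov]
      rintro x (hx | hx)
      · rcases hsub hx with h | h
        · exact Or.inl (Or.inl ⟨hx, h⟩)
        · exact Or.inr ⟨hx, h⟩
      · exact Or.inl (Or.inr hx))
    ⟨k, by rw [hcov]; exact Or.inl (Or.inl hk), Or.inl ⟨Or.inl hk, by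
      rcases hsub (Or.inl hk) with h | h
      · exact h
      · exact absurd h (hKF k hk)⟩⟩
    ⟨f, by rw [hcov]; exact Or.inl hf.1, hf⟩
  obtain ⟨x, _, hx1, hx2⟩ := hres
  rcases hx1 with hx1 | hx1
  · exact ⟨x, hx1.1, hx1.2, hx2.2⟩
  · exfalso
    rcases hx2.1 with h | h
    · exact hKF x h hx2.2
    · exact Set.disjoint_left.mp hPQ h hx1

theorem ii_aux {X : Type*} [TopologicalSpace X] {N K P Q : Set X} (hN : IsPreconnected N)
    (hKc : IsClosed K) (hK : IsPreconnected K) (hKne : K.Nonempty)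
    (hP : IsClosed P) (hQ : IsClosed Q) (hPQ : Disjoint P Q) (hcov : N = K ∪ P ∪ Q) :
    IsPreconnected (K ∪ P) := by
  rw [isPreconnected_closed_iff]
  intro E F hE hF hsub hnE hnF
  by_contra hcon
  rw [isPreconnected_closed_iff] at hK
  have hKEF : ¬ (K ∩ (E ∩ F)).Nonempty := by
    rintro ⟨x, hx, hx2⟩
    exact hcon ⟨x, Or.inl hx, hx2⟩
  by_cases h1 : (K ∩ E).Nonempty
  · by_cases h2 : (K ∩ F).Nonempty
    · exact hKEF (hK E F hE hF (fun x hx => hsub (Or.inl hx)) h1 h2)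
    · exact hcon (ii_half hN hKc hKne hP hQ hPQ hcov E F hE hF hsub
        (fun x hx hxF => h2 ⟨x, hx, hxF⟩) hnF)
  · have := ii_half hN hKc hKne hP hQ hPQ hcov F E hF hE (by rwa [Set.union_comm F E])
        (fun x hx hxE => h1 ⟨x, hx, hxE⟩) hnE
    rw [Set.inter_comm F E] at this
    exact hcon this

theorem indec_interior {X : Type*} [TopologicalSpace X] [CompactSpace X] [T2Space X] {N K : Set X}
    (hN : Ctm N) (hi : Indec N) (hK : Ctm K) (hKN : K ⊆ N) (hne : K ≠ N) :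
    interior K = ∅ := by
  by_contra hint
  rw [← Ne, ← Set.nonempty_iff_ne_empty] at hint
  obtain ⟨u, hu⟩ := hint
  have hNc : IsClosed N := hN.1.isClosed
  have hKc : IsClosed K := hK.1.isClosed
  have hCc : IsClosed (closure (N \ K)) := isClosed_closure
  have hCN : closure (N \ K) ⊆ N := closure_minimal Set.sdiff_subset hNc
  have hNKC : N = K ∪ closure (N \ K) := by
    apply Set.Subset.antisymm
    · intro x hx
      by_cases hxK : x ∈ K
      · exact Or.inl hxK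
      · exact Or.inr (subset_closure ⟨hx, hxK⟩)
    · exact Set.union_subset hKN hCN
  have hCU : ∀ x ∈ closure (N \ K), x ∉ interior K := by
    intro x hx hxU
    rw [mem_closure_iff] at hx
    obtain ⟨y, hy1, hy2⟩ := hx _ isOpen_interior hxU
    exact hy2.2 (interior_subset hy1)
  have hCneN : closure (N \ K) ≠ N := by
    intro h
    have huC : u ∈ closure (N \ K) := by rw [h]; exact hKN (interior_subset hu)
    exact hCU u huC hu
  have hCne : (closure (N \ K)).Nonempty := by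
    have : (N \ K).Nonempty := by
      rw [Set.nonempty_iff_ne_empty]
      intro h
      exact hne (Set.Subset.antisymm hKN (Set.sdiff_eq_empty.mp h))
    exact this.closure
  by_cases hpre : IsPreconnected (closure (N \ K))
  · rcases hi K _ hK ⟨hCc.isCompact, hCne, hpre⟩ hNKC.symm with h | h
    · exact hne h
    · exact hCneN h
  · rw [isPreconnected_closed_iff] at hpre
    push Not at hpre
    obtain ⟨t, t', ht, ht', hsub, hnt, hnt', hemp⟩ := hpre
    have hPc : IsClosed (closure (N \ K) ∩ t) := hCc.inter ht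
    have hQc : IsClosed (closure (N \ K) ∩ t') := hCc.inter ht'
    have hdisj : Disjoint (closure (N \ K) ∩ t) (closure (N \ K) ∩ t') := by
      rw [Set.disjoint_left]
      rintro x ⟨hx1, hx2⟩ ⟨_, hx3⟩
      have : x ∈ closure (N \ K) ∩ (t ∩ t') := ⟨hx1, hx2, hx3⟩
      rw [hemp] at this
      exact this
    have hCPQ : closure (N \ K) = (closure (N \ K) ∩ t) ∪ (closure (N \ K) ∩ t') := by
      rw [← Set.inter_union_distrib_left]
      exact (Set.inter_eq_left.mpr hsub).symm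
    have gen : ∀ P Q : Set X, IsClosed P → IsClosed Q → Disjoint P Q →
        closure (N \ K) = P ∪ Q → Q.Nonempty → K ∪ P ≠ N := by
      intro P Q hP hQ hPQ hC hQne h
      obtain ⟨q, hq⟩ := hQne
      have hqK : ∀ x ∈ Q, x ∈ K := by
        intro x hx
        have hxN : x ∈ N := hCN (by rw [hC]; exact Or.inr hx)
        rw [← h] at hxN
        rcases hxN with h' | h'
        · exact h'
        · exact absurd hx (Set.disjoint_left.mp hPQ h')
      have hqC : q ∈ closure (N \ K) := by rw [hC]; exact Or.inr hq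
      rw [mem_closure_iff] at hqC
      obtain ⟨y, hy1, hy2⟩ := hqC Pᶜ hP.isOpen_compl (fun hqP => Set.disjoint_left.mp hPQ hqP hq)
      have hyC : y ∈ closure (N \ K) := subset_closure hy2
      rw [hC] at hyC
      rcases hyC with h' | h'
      · exact hy1 h'
      · exact hy2.2 (hqK y h')
    have ctm : ∀ P Q : Set X, IsClosed P → IsClosed Q → Disjoint P Q →
        closure (N \ K) = P ∪ Q → Ctm (K ∪ P) := by
      intro P Q hP hQ hPQ hC
      refine ⟨(hKc.union hP).isCompact, hK.2.nonempty.mono Set.subset_union_left, ?_⟩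
      refine ii_aux hN.2.isPreconnected hKc hK.2.isPreconnected hK.2.nonempty hP hQ hPQ ?_
      rw [Set.union_assoc, ← hC]
      exact hNKC
    set P := closure (N \ K) ∩ t with hPdef
    set Q := closure (N \ K) ∩ t' with hQdef
    have hCQP : closure (N \ K) = Q ∪ P := by rw [Set.union_comm]; exact hCPQ
    have h1 := ctm P Q hPc hQc hdisj hCPQ
    have h2 := ctm Q P hQc hPc hdisj.symm hCQP
    have hun : (K ∪ P) ∪ (K ∪ Q) = N := by
      rw [← Set.union_union_distrib_left, ← hCPQ]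
      exact hNKC.symm
    rcases hi _ _ h1 h2 hun with h | h
    · exact gen P Q hPc hQc hdisj hCPQ hnt' h
    · exact gen Q P hQc hPc hdisj.symm hCQP hnt h

theorem cover2 {X : Type*} [TopologicalSpace X] [CompactSpace X] [T2Space X] [ConnectedSpace X]
    (ht : Tri X) {N : Set X} (hN : Ctm N) (hne : N ≠ univ) (hint : (interior N).Nonempty) :
    ∃ L1 L2 : Set X, Ctm L1 ∧ Ctm L2 ∧ (N ∩ L1).Nonempty ∧ (N ∩ L2).Nonempty ∧
      ¬ L1 ⊆ N ∧ ¬ L2 ⊆ N ∧ ¬ N ⊆ L1 ∧ ¬ N ⊆ L2 ∧ N ∪ L1 ∪ L2 = univ := by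
  have hcl : closure (interior N) ⊆ N := closure_minimal interior_subset hN.1.isClosed
  have hcomp : IsCompact ((univ : Set X) \ interior N) := by
    rw [← compl_eq_univ_diff]
    exact (isOpen_interior.isClosed_compl).isCompact
  have hmem : ∀ w, w ∉ N → w ∈ (univ : Set X) \ interior N :=
    fun w hw => ⟨mem_univ w, fun h => hw (interior_subset h)⟩
  let L : X → Set X := fun w => connectedComponentIn ((univ : Set X) \ interior N) w
  have hself : ∀ w, w ∉ N → w ∈ L w := fun w hw => mem_connectedComponentIn (hmem w hw)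
  have hctm : ∀ w, w ∉ N → Ctm (L w) := fun w hw => ctm_component hcomp (hmem w hw)
  have hmeet : ∀ w, w ∉ N → (N ∩ L w).Nonempty := by
    intro w hw
    have huniv : Ctm (univ : Set X) := ⟨isCompact_univ, isConnected_univ⟩
    obtain ⟨y, hy1, hy2⟩ := bump huniv (isOpen_interior (s := N))
      (by simpa using hint) (mem_univ w) (hmem w hw).2
    exact ⟨y, hcl hy2, hy1⟩
  have hnot1 : ∀ w, w ∉ N → ¬ L w ⊆ N := fun w hw h => hw (h (hself w hw))
  have hnot2 : ∀ w, ¬ N ⊆ L w := by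
    intro w h
    obtain ⟨y, hy⟩ := hint
    have h1 : y ∈ L w := h (interior_subset hy)
    exact (connectedComponentIn_subset _ _ h1).2 hy
  have hsym : ∀ w w', w ∉ N → w' ∉ N → w' ∉ L w → w ∉ L w' := by
    intro w w' _ hw' h1 h2
    have h3 : L w' = L w := connectedComponentIn_eq h2
    exact h1 (h3 ▸ hself w' hw')
  obtain ⟨w1, hw1⟩ : ∃ w1, w1 ∉ N := by
    by_contra hc
    push Not at hc
    exact hne (eq_univ_of_forall hc)
  by_cases hU : N ∪ L w1 = univ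
  · refine ⟨L w1, L w1, hctm w1 hw1, hctm w1 hw1, hmeet w1 hw1, hmeet w1 hw1, hnot1 w1 hw1,
      hnot1 w1 hw1, hnot2 w1, hnot2 w1, ?_⟩
    rw [hU, univ_union]
  · obtain ⟨w2, hw2⟩ : ∃ w2, w2 ∉ N ∪ L w1 := by
      by_contra hc
      push Not at hc
      exact hU (eq_univ_of_forall hc)
    have hw2N : w2 ∉ N := fun h => hw2 (Or.inl h)
    have hw21 : w2 ∉ L w1 := fun h => hw2 (Or.inr h)
    refine ⟨L w1, L w2, hctm w1 hw1, hctm w2 hw2N, hmeet w1 hw1, hmeet w2 hw2N, hnot1 w1 hw1,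
      hnot1 w2 hw2N, hnot2 w1, hnot2 w2, ?_⟩
    by_contra hV
    obtain ⟨w3, hw3⟩ : ∃ w3, w3 ∉ N ∪ L w1 ∪ L w2 := by
      by_contra hc
      push Not at hc
      exact hV (eq_univ_of_forall hc)
    have hw3N : w3 ∉ N := fun h => hw3 (Or.inl (Or.inl h))
    have hw31 : w3 ∉ L w1 := fun h => hw3 (Or.inl (Or.inr h))
    have hw32 : w3 ∉ L w2 := fun h => hw3 (Or.inr h)
    have hw12 : w1 ∉ L w2 := hsym w1 w2 hw1 hw2N hw21
    have hw13 : w1 ∉ L w3 := hsym w1 w3 hw1 hw3N hw31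
    have hw23 : w2 ∉ L w3 := hsym w2 w3 hw2N hw3N hw32
    have hNne : N.Nonempty := hint.mono interior_subset
    have hpair : ∀ a b : X, ((N ∪ L a) ∩ (N ∪ L b)).Nonempty := fun a b =>
      hNne.mono (fun y hy => ⟨Or.inl hy, Or.inl hy⟩)
    rcases ht (N ∪ L w1) (N ∪ L w2) (N ∪ L w3) (ctm_union hN (hctm w1 hw1) (hmeet w1 hw1))
      (ctm_union hN (hctm w2 hw2N) (hmeet w2 hw2N)) (ctm_union hN (hctm w3 hw3N) (hmeet w3 hw3N))
      (hpair _ _) (hpair _ _) (hpair _ _) with h | h | h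
    · rcases h (Or.inr (hself w1 hw1)) with (h | h) | (h | h)
      · exact hw1 h
      · exact hw12 h
      · exact hw1 h
      · exact hw13 h
    · rcases h (Or.inr (hself w2 hw2N)) with (h | h) | (h | h)
      · exact hw2N h
      · exact hw21 h
      · exact hw2N h
      · exact hw23 h
    · rcases h (Or.inr (hself w3 hw3N)) with (h | h) | (h | h)
      · exact hw3N h
      · exact hw31 h
      · exact hw3N h
      · exact hw32 h

theorem glue_arms {X : Type*} [TopologicalSpace X] [CompactSpace X] [T2Space X]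
    (hs : SSZ (univ : Set X)) {N L1 L2 : Set X} (h1 : Ctm L1) (h2 : Ctm L2)
    (hcov : N ∪ L1 ∪ L2 = univ) {Z : Set (X × X)} (hZ : Ctm Z) (hZ1 : Prod.fst '' Z = N)
    (hZ2 : Prod.snd '' Z = N)
    (m1 : ∃ a y : X, (a, y) ∈ Z ∧ a ∈ L1 ∧ y ∉ L1) (m1' : ∃ x b : X, (x, b) ∈ Z ∧ b ∈ L1 ∧ x ∉ L1)
    (m2 : ∃ a y : X, (a, y) ∈ Z ∧ a ∈ L2 ∧ y ∉ L2) (m2' : ∃ x b : X, (x, b) ∈ Z ∧ b ∈ L2 ∧ x ∉ L2) :
    ∃ p ∈ Z, p.1 = p.2 := by
  obtain ⟨a1, y1, hz1, ha1, hy1⟩ := m1
  obtain ⟨x1, b1, hz1', hb1, hx1⟩ := m1'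
  obtain ⟨a2, y2, hz2, ha2, hy2⟩ := m2
  obtain ⟨x2, b2, hz2', hb2, hx2⟩ := m2'
  have c1 : Ctm (Z ∪ L1 ×ˢ ({y1} : Set X)) :=
    ctm_union hZ (ctm_horz h1) ⟨(a1, y1), hz1, ha1, rfl⟩
  have c2 : Ctm (Z ∪ L1 ×ˢ ({y1} : Set X) ∪ ({x1} : Set X) ×ˢ L1) :=
    ctm_union c1 (ctm_vert h1) ⟨(x1, b1), Or.inl hz1', rfl, hb1⟩
  have c3 : Ctm (Z ∪ L1 ×ˢ ({y1} : Set X) ∪ ({x1} : Set X) ×ˢ L1 ∪ L2 ×ˢ ({y2} : Set X)) :=
    ctm_union c2 (ctm_horz h2) ⟨(a2, y2), Or.inl (Or.inl hz2), ha2, rfl⟩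
  have c4 : Ctm (Z ∪ L1 ×ˢ ({y1} : Set X) ∪ ({x1} : Set X) ×ˢ L1 ∪ L2 ×ˢ ({y2} : Set X) ∪
      ({x2} : Set X) ×ˢ L2) :=
    ctm_union c3 (ctm_vert h2) ⟨(x2, b2), Or.inl (Or.inl (Or.inl hz2')), rfl, hb2⟩
  obtain ⟨p, hp, hpp⟩ := hs _ c4
    (by
      rw [eq_univ_iff_forall]
      intro x
      have hx : x ∈ N ∪ L1 ∪ L2 := by rw [hcov]; trivial
      rcases hx with (hx | hx) | hx
      · rw [← hZ1] at hx
        obtain ⟨p, hp, rfl⟩ := hx
        exact ⟨p, Or.inl (Or.inl (Or.inl (Or.inl hp))), rfl⟩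
      · exact ⟨(x, y1), Or.inl (Or.inl (Or.inl (Or.inr ⟨hx, rfl⟩))), rfl⟩
      · exact ⟨(x, y2), Or.inl (Or.inr ⟨hx, rfl⟩), rfl⟩)
    (by
      rw [eq_univ_iff_forall]
      intro x
      have hx : x ∈ N ∪ L1 ∪ L2 := by rw [hcov]; trivial
      rcases hx with (hx | hx) | hx
      · rw [← hZ2] at hx
        obtain ⟨p, hp, rfl⟩ := hx
        exact ⟨p, Or.inl (Or.inl (Or.inl (Or.inl hp))), rfl⟩
      · exact ⟨(x1, x), Or.inl (Or.inl (Or.inr ⟨rfl, hx⟩)), rfl⟩
      · exact ⟨(x2, x), Or.inr ⟨rfl, hx⟩, rfl⟩)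
  rcases hp with (((hp | hp) | hp) | hp) | hp
  · exact ⟨p, hp, hpp⟩
  · exfalso
    have h3 : p.1 ∈ L1 := hp.1
    have h4 : p.2 = y1 := hp.2
    rw [hpp, h4] at h3
    exact hy1 h3
  · exfalso
    have h3 : p.2 ∈ L1 := hp.2
    have h4 : p.1 = x1 := hp.1
    rw [← hpp, h4] at h3
    exact hx1 h3
  · exfalso
    have h3 : p.1 ∈ L2 := hp.1
    have h4 : p.2 = y2 := hp.2
    rw [hpp, h4] at h3
    exact hy2 h3
  · exfalso
    have h3 : p.2 ∈ L2 := hp.2
    have h4 : p.1 = x2 := hp.1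
    rw [← hpp, h4] at h3
    exact hx2 h3

/-! semi version of key -/

theorem key_semi {M : Type*} [TopologicalSpace M] [CompactSpace M] [T2Space M] (hM : SymZ M)
    (hind : ∀ N : Set M, Ctm N → Indec N → SSZ N) {Z : Set (M × M)} (hZ : Ctm Z)
    (he : Prod.snd '' Z ⊆ Prod.fst '' Z) : ∃ p ∈ Z, p.1 = p.2 := by
  have hlog := logOn_all (fun A B hA hB => uni hM hA hB)
    (fun N hN hi g hg => (hind N hN hi).hl hN hg)
  have hG : Pool.Agent.Helper879.V.CG.Good M :=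
    ⟨fun hS hSc g hg => hlog _ ⟨hS.isCompact, hSc⟩ g hg, fun hA hB hC h => by
      obtain ⟨o, ⟨ha, hb⟩, hc⟩ := h
      exact tri hM hA hB hC ⟨o, ha, hb⟩ ⟨o, hb, hc⟩ ⟨o, ha, hc⟩⟩
  by_contra hd
  push Not at hd
  obtain ⟨Y, hYZ, hY, hYe, hYd, hmin⟩ := minimal_both hG hZ he hd
  have hN : Ctm (Prod.fst '' Y) := hY.image continuous_fst.continuousOn
  have hi : Indec (Prod.fst '' Y) := fun A B hA hB hAB => hG.side hY hYe hmin hA hB hAB
  obtain ⟨p, hp, hpe⟩ := hind _ hN hi Y hY rfl hYe.symm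
  exact hYd p hp hpe

theorem key_semi_sub {X : Type*} [TopologicalSpace X] [CompactSpace X] [T2Space X] (hM : SymZ X)
    {S : Set X} (hSc : Ctm S)
    (hind : ∀ N : Set X, Ctm N → N ⊆ S → Indec N → SSZ N) {Z : Set (X × X)} (hZ : Ctm Z)
    (hZS : Prod.fst '' Z ⊆ S)
    (he : Prod.snd '' Z ⊆ Prod.fst '' Z) : ∃ p ∈ Z, p.1 = p.2 := by
  have : CompactSpace S := isCompact_iff_compactSpace.1 hSc.1
  set v : S × S → X × X := Prod.map Subtype.val Subtype.val with hv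
  have hvc : Continuous v := continuous_subtype_val.prodMap continuous_subtype_val
  have f1 : ∀ C : Set (S × S), Prod.fst '' (v '' C) = Subtype.val '' (Prod.fst '' C) := by
    intro C; rw [image_image, image_image]; rfl
  have f2 : ∀ C : Set (S × S), Prod.snd '' (v '' C) = Subtype.val '' (Prod.snd '' C) := by
    intro C; rw [image_image, image_image]; rfl
  have hvi : IsInducing v := IsInducing.subtypeVal.prodMap IsInducing.subtypeVal
  have hsub : Z ⊆ range v := by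
    rintro ⟨x, y⟩ hp
    exact ⟨(⟨x, hZS ⟨_, hp, rfl⟩⟩, ⟨y, hZS (he ⟨_, hp, rfl⟩)⟩), rfl⟩
  have eZ : v '' (v ⁻¹' Z) = Z := image_preimage_eq_of_subset hsub
  have hZ' : Ctm (v ⁻¹' Z) := by
    refine ⟨?_, ?_, ?_⟩
    · rw [hvi.isCompact_iff, eZ]; exact hZ.1
    · obtain ⟨p, hp⟩ := hZ.2.nonempty
      obtain ⟨q, rfl⟩ := hsub hp
      exact ⟨q, hp⟩
    · rw [← hvi.isPreconnected_image, eZ]; exact hZ.2.isPreconnected
  have g1 : SymZ S := by
    intro C hC x y hxy hyx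
    obtain ⟨p, hp, hpe⟩ := hM (v '' C) (hC.image hvc.continuousOn) x y ⟨_, hxy, rfl⟩ ⟨_, hyx, rfl⟩
    obtain ⟨q, hq, rfl⟩ := hp
    exact ⟨q, hq, Subtype.val_injective hpe⟩
  have g2 : ∀ N : Set S, Ctm N → Indec N → SSZ N := by
    intro N' hN' hi' Z' hZ' h1 h2
    have hN : Ctm (Subtype.val '' N') := hN'.image continuous_subtype_val.continuousOn
    have hNS : Subtype.val '' N' ⊆ S := by rintro _ ⟨x, -, rfl⟩; exact x.2
    have hi : Indec (Subtype.val '' N') := by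
      intro A B hA hB hAB
      have hAS : A ⊆ S := (subset_union_left.trans hAB.subset).trans hNS
      have hBS : B ⊆ S := (subset_union_right.trans hAB.subset).trans hNS
      have e : (Subtype.val ⁻¹' A : Set S) ∪ Subtype.val ⁻¹' B = N' := by
        rw [← preimage_union, hAB, preimage_image_eq _ Subtype.val_injective]
      have eA : Subtype.val '' (Subtype.val ⁻¹' A : Set S) = A := by
        rw [Subtype.image_preimage_coe, inter_eq_right.2 hAS]
      have eB : Subtype.val '' (Subtype.val ⁻¹' B : Set S) = B := by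
        rw [Subtype.image_preimage_coe, inter_eq_right.2 hBS]
      rcases hi' _ _ (ctm_pre hA hAS) (ctm_pre hB hBS) e with h | h
      · left; rw [← eA, h]
      · right; rw [← eB, h]
    obtain ⟨p, hp, hpe⟩ := hind _ hN hNS hi (v '' Z')
      (hZ'.image hvc.continuousOn) (by rw [f1, h1]) (by rw [f2, h2])
    obtain ⟨q, hq, rfl⟩ := hp
    exact ⟨q, hq, Subtype.val_injective hpe⟩
  have g3 : Prod.snd '' (v ⁻¹' Z) ⊆ Prod.fst '' (v ⁻¹' Z) := by
    rw [← image_subset_image_iff Subtype.val_injective, ← f1, ← f2, eZ]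
    exact he
  obtain ⟨p, hp, hpe⟩ := key_semi (M := S) (Z := v ⁻¹' Z) g1 g2 hZ' g3
  exact ⟨v p, hp, congrArg Subtype.val hpe⟩

theorem mixed {X : Type} [MetricSpace X] [CompactSpace X] (hM : SymZ X)
    {N L : Set X} (hN : Ctm N) (hL : Ctm L) (hne : (N ∩ L).Nonempty) (hLN : ¬ L ⊆ N)
    (hNL : ¬ N ⊆ L) (hind : ∀ N' : Set X, Ctm N' → N' ⊆ N ∩ L → Indec N' → SSZ N')
    {Z : Set (X × X)} (hZ : Ctm Z) (hZN : Prod.fst '' Z = N) (hZN' : Prod.snd '' Z = N)
    (hd : ∀ p ∈ Z, p.1 ≠ p.2) : ∃ a y : X, (a, y) ∈ Z ∧ a ∈ L ∧ y ∉ L := by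
  obtain ⟨D, hDZ, hD, hDK⟩ := sub_fst (fun A B C hA hB hC h1 h2 h3 => tri hM hA hB hC h1 h2 h3)
    (fun A B hA hB => uni hM hA hB) hN hL hne hLN hNL hZ hZN
  have hK : Ctm (N ∩ L) := ⟨hN.1.inter hL.1, hne, uni hM hN hL⟩
  have hns : ¬ Prod.snd '' D ⊆ Prod.fst '' D := by
    intro h
    obtain ⟨p, hp, hpe⟩ := key_semi_sub hM hK hind hD hDK.subset h
    exact hd p (hDZ hp) hpe
  obtain ⟨y, ⟨⟨a, y'⟩, hp, rfl⟩, hy⟩ := not_subset.1 hns
  have ha : a ∈ N ∩ L := by rw [← hDK]; exact ⟨_, hp, rfl⟩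
  refine ⟨a, y', hDZ hp, ha.2, fun hyL => hy ?_⟩
  rw [hDK]
  exact ⟨by rw [← hZN']; exact ⟨_, hDZ hp, rfl⟩, hyL⟩

theorem mixed' {X : Type} [MetricSpace X] [CompactSpace X] (hM : SymZ X)
    {N L : Set X} (hN : Ctm N) (hL : Ctm L) (hne : (N ∩ L).Nonempty) (hLN : ¬ L ⊆ N)
    (hNL : ¬ N ⊆ L) (hind : ∀ N' : Set X, Ctm N' → N' ⊆ N ∩ L → Indec N' → SSZ N')
    {Z : Set (X × X)} (hZ : Ctm Z) (hZN : Prod.fst '' Z = N) (hZN' : Prod.snd '' Z = N)
    (hd : ∀ p ∈ Z, p.1 ≠ p.2) : ∃ x b : X, (x, b) ∈ Z ∧ b ∈ L ∧ x ∉ L := by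
  obtain ⟨a, y, ⟨⟨p, q⟩, hp, he⟩, ha, hy⟩ := mixed hM hN hL hne hLN hNL hind (Z := Prod.swap '' Z)
    (hZ.image continuous_swap.continuousOn) (by rw [image_image]; exact hZN')
    (by rw [image_image]; exact hZN) (by
      rintro _ ⟨p, hp, rfl⟩
      exact (hd p hp).symm)
  simp only [Prod.swap_prod_mk, Prod.mk.injEq] at he
  obtain ⟨rfl, rfl⟩ := he
  exact ⟨_, _, hp, ha, hy⟩

theorem nowhere_dense {X : Type} [MetricSpace X] [CompactSpace X] [ConnectedSpace X]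
    (hM : SymZ X) (hs : SSZ (univ : Set X))
    (hind : ∀ N : Set X, Ctm N → interior N = ∅ → Indec N → SSZ N) {Z : Set (X × X)} (hZ : Ctm Z)
    (he : Prod.snd '' Z ⊆ Prod.fst '' Z) : ∃ p ∈ Z, p.1 = p.2 := by
  refine key_semi hM ?_ hZ he
  intro N hN hi Z hZ h1 h2
  by_cases hu : N = univ
  · subst hu; exact hs Z hZ h1 h2
  by_cases hint : interior N = ∅
  · exact hind N hN hint hi Z hZ h1 h2
  by_contra hd
  push Not at hd
  obtain ⟨L1, L2, c1, c2, n1, n2, a1, a2, b1, b2, hcov⟩ := cover2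
    (fun A B C hA hB hC h1 h2 h3 => tri hM hA hB hC h1 h2 h3) hN hu
    (nonempty_iff_ne_empty.2 hint)
  have key : ∀ L : Set X, Ctm L → (N ∩ L).Nonempty → ¬ N ⊆ L →
      ∀ N' : Set X, Ctm N' → N' ⊆ N ∩ L → Indec N' → SSZ N' := by
    intro L hL hn hNL N' hN' hsub hi'
    apply hind N' hN' _ hi'
    have hK : Ctm (N ∩ L) := ⟨hN.1.inter hL.1, hn, uni hM hN hL⟩
    have := indec_interior hN hi hK inter_subset_left (fun h => hNL (by
      rw [← h]; exact inter_subset_right))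
    exact subset_empty_iff.1 (this ▸ interior_mono hsub)
  obtain ⟨p, hp, hpe⟩ := glue_arms hs c1 c2 hcov hZ h1 h2
    (mixed hM hN c1 n1 a1 b1 (key L1 c1 n1 b1) hZ h1 h2 hd)
    (mixed' hM hN c1 n1 a1 b1 (key L1 c1 n1 b1) hZ h1 h2 hd)
    (mixed hM hN c2 n2 a2 b2 (key L2 c2 n2 b2) hZ h1 h2 hd)
    (mixed' hM hN c2 n2 a2 b2 (key L2 c2 n2 b2) hZ h1 h2 hd)
  exact hd p hp hpe

end Pool.Agent.Helper879.SS
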