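import Mathlib
import Pool.Agent.Helper879.SS.Disc

set_option autoImplicit false

open Set Topology

namespace Pool.Agent.Helper879.SS

variable {X : Type} [MetricSpace X]

/-- pairs at distance at least `δ` -/
def E (X : Type) [MetricSpace X] (δ : ℝ) : Set (X × X) := {p | δ ≤ dist p.1 p.2}

/-- `S` is a union of `ρ`-chain classes of `E δ` -/
def Good (δ ρ : ℝ) (S : Set (X × X)) : Prop :=
  S ⊆ E X δ ∧ ∀ p ∈ S, ∀ q ∈ E X δ, dist p q < ρ → q ∈ S

open Classical in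
/-- negative part indicator -/
noncomputable def uS (δ : ℝ) (S : Set (X × X)) (x y : X) : ZMod 2 :=
  if (x, y) ∉ S ∧ δ < dist x y then 1 else 0

/-- J5 -/
theorem uS_sep (δ ρ : ℝ) (hδ : 0 < δ) (hρ : 0 < ρ) (hρδ : ρ ≤ δ / 8) (S : Set (X × X))
    (hS : Good δ ρ S) (x y x' y' : X) (hx : dist x x' < ρ) (hy : dist y y' < ρ)
    (hne : uS δ S x y ≠ uS δ S x' y') : dist x y < 5 / 4 * δ := by
  by_contra hcon
  push Not at hcon
  apply hne
  have h1 : dist x y ≤ dist x x' + dist x' y' + dist y' y := dist_triangle4 x x' y' y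
  rw [dist_comm y' y] at h1
  have h2 : δ < dist x' y' := by linarith
  have h3 : δ < dist x y := by linarith
  have hd : dist (x, y) (x', y') < ρ := by
    rw [Prod.dist_eq]; exact max_lt hx hy
  have hd' : dist (x', y') (x, y) < ρ := by rw [dist_comm]; exact hd
  have hiff : (x, y) ∈ S ↔ (x', y') ∈ S :=
    ⟨fun h => hS.2 _ h _ h2.le hd, fun h => hS.2 _ h _ h3.le hd'⟩
  unfold uS
  by_cases h : (x, y) ∈ S
  · rw [if_neg (fun h' => h'.1 h), if_neg (fun h' => h'.1 (hiff.1 h))]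
  · rw [if_pos ⟨h, h3⟩, if_pos ⟨fun h' => h (hiff.2 h'), h2⟩]

/-- J6 -/
theorem uS_block (δ ρ : ℝ) (hδ : 0 < δ) (hρ : 0 < ρ) (hρδ : ρ ≤ δ / 8) (S : Set (X × X))
    (hS : Good δ ρ S) (a a' b b' w w' : X) (ha : dist a a' < ρ) (hb : dist b b' < ρ)
    (hw : dist w w' < ρ) (hab : 3 * δ ≤ dist a b) :
    (uS δ S a' w = uS δ S a w ∧ uS δ S a w' = uS δ S a w ∧ uS δ S a' w' = uS δ S a w) ∨
    (uS δ S b' w = uS δ S b w ∧ uS δ S b w' = uS δ S b w ∧ uS δ S b' w' = uS δ S b w) := by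
  have key : ∀ c c' : X, dist c c' < ρ →
      ¬ (uS δ S c' w = uS δ S c w ∧ uS δ S c w' = uS δ S c w ∧ uS δ S c' w' = uS δ S c w) →
      dist c w < 5 / 4 * δ := by
    intro c c' hc hne
    have hcc : dist c c < ρ := by rw [dist_self]; exact hρ
    have hww : dist w w < ρ := by rw [dist_self]; exact hρ
    by_cases h1 : uS δ S c' w = uS δ S c w
    · by_cases h2 : uS δ S c w' = uS δ S c w
      · have h3 : uS δ S c' w' ≠ uS δ S c w := fun h3 => hne ⟨h1, h2, h3⟩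
        exact uS_sep δ ρ hδ hρ hρδ S hS c w c' w' hc hw (Ne.symm h3)
      · exact uS_sep δ ρ hδ hρ hρδ S hS c w c w' hcc hw (Ne.symm h2)
    · exact uS_sep δ ρ hδ hρ hρδ S hS c w c' w hc hww (Ne.symm h1)
  by_contra hcon
  rw [not_or] at hcon
  have h1 := key a a' ha hcon.1
  have h2 := key b b' hb hcon.2
  have h3 := dist_triangle_right a b w
  linarith

/-- slice invariant -/
noncomputable def Ic (δ : ℝ) (S : Set (X × X)) (p : ℕ → X) (m : ℕ) (w : X) : ZMod 2 :=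
  ∑ i ∈ Finset.range m, (uS δ S (p (i + 1)) w - uS δ S (p i) w) * uS δ S (p (i + m)) w
    + uS δ S (p 0) w * uS δ S (p m) w

theorem Ic_const_z1 : ∀ x0 x1 x0' x1' y0 y1 y0' y1' : ZMod 2,
    ((x1 = x0 ∧ x0' = x0 ∧ x1' = x0) ∨ (y1 = y0 ∧ y0' = y0 ∧ y1' = y0)) →
    (x1 - x0) * y0 + (x1' - x0') * y0' = (x1' - x1) * y1 + (x0' - x0) * y0 := by
  decide +kernel

theorem Ic_const_z2 : ∀ x0 x0' xm xm' : ZMod 2, (x0' = x0 ∨ xm' = xm) →
    ((xm' - xm) * x0 + (x0' - x0) * xm) + (x0 * xm + x0' * xm') = 0 := by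
  decide +kernel

theorem Ic_const_z3 : ∀ a b : ZMod 2, a + b = 0 → a = b := by
  decide +kernel

theorem Ic_const_z4 : ∀ a b c : ZMod 2, (a + b) + (c + a) = c + b := by
  decide +kernel

theorem Ic_const_tel (A B h : ℕ → ZMod 2) (m : ℕ) (hh : ∀ i, A i + B i = h (i + 1) + h i) :
    ∑ i ∈ Finset.range m, A i + ∑ i ∈ Finset.range m, B i = h m + h 0 := by
  induction m with
  | zero =>
    simp only [Finset.range_zero, Finset.sum_empty, add_zero]
    exact (CharTwo.add_self_eq_zero (h 0)).symm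
  | succ m ih =>
    rw [Finset.sum_range_succ, Finset.sum_range_succ]
    have h1 : ∑ i ∈ Finset.range m, A i + A m + (∑ i ∈ Finset.range m, B i + B m) =
      (∑ i ∈ Finset.range m, A i + ∑ i ∈ Finset.range m, B i) + (A m + B m) := by ring
    rw [h1, ih, hh m]
    exact Ic_const_z4 (h m) (h 0) (h (m + 1))

theorem Ic_const_loc (δ ρ : ℝ) (hδ : 0 < δ) (hρ : 0 < ρ) (hρδ : ρ ≤ δ / 8)
    (S : Set (X × X)) (hS : Good δ ρ S) (p : ℕ → X) (m : ℕ) (hper : ∀ i, p (i + 2 * m) = p i)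
    (hstep : ∀ i, dist (p i) (p (i + 1)) < ρ) (hfar : ∀ i, 3 * δ ≤ dist (p i) (p (i + m)))
    (w w' : X) (hw : dist w w' < ρ) : Ic δ S p m w = Ic δ S p m w' := by
  apply Ic_const_z3
  unfold Ic
  have htel := Ic_const_tel
    (fun i => (uS δ S (p (i + 1)) w - uS δ S (p i) w) * uS δ S (p (i + m)) w)
    (fun i => (uS δ S (p (i + 1)) w' - uS δ S (p i) w') * uS δ S (p (i + m)) w')
    (fun i => (uS δ S (p i) w' - uS δ S (p i) w) * uS δ S (p (i + m)) w) m (by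
      intro i
      have hb := uS_block δ ρ hδ hρ hρδ S hS (p i) (p (i + 1)) (p (i + m)) (p (i + m + 1)) w w'
        (hstep i) (hstep (i + m)) hw (hfar i)
      have h3 : i + 1 + m = i + m + 1 := by ring
      simp only [h3]
      exact Ic_const_z1 _ _ _ _ _ _ _ _ hb)

  have h2m : p (m + m) = p 0 := by
    have := hper 0
    rw [zero_add] at this
    rw [← this]
    congr 1
    ring
  rw [h2m, zero_add] at htel
  have h4 : ∀ a b c d : ZMod 2, (a + b) + (c + d) = (a + c) + (b + d) := by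
    intro a b c d; ring
  rw [h4, htel]
  apply Ic_const_z2
  have hb := uS_block δ ρ hδ hρ hρδ S hS (p 0) (p (0 + 1)) (p (0 + m)) (p (0 + m + 1)) w w'
    (hstep 0) (hstep (0 + m)) hw (hfar 0)
  rw [zero_add m] at hb
  rcases hb with hb | hb
  · left; exact hb.2.1
  · right; exact hb.2.1

/-- J7 -/
theorem Ic_const [PreconnectedSpace X] (δ ρ : ℝ) (hδ : 0 < δ) (hρ : 0 < ρ) (hρδ : ρ ≤ δ / 8)
    (S : Set (X × X)) (hS : Good δ ρ S) (p : ℕ → X) (m : ℕ) (hper : ∀ i, p (i + 2 * m) = p i)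
    (hstep : ∀ i, dist (p i) (p (i + 1)) < ρ) (hfar : ∀ i, 3 * δ ≤ dist (p i) (p (i + m)))
    (w w' : X) : Ic δ S p m w = Ic δ S p m w' := by
  have hlc : IsLocallyConstant (Ic δ S p m) := by
    rw [IsLocallyConstant.iff_eventually_eq]
    intro x
    filter_upwards [Metric.ball_mem_nhds x hρ] with y hy
    exact Ic_const_loc δ ρ hδ hρ hρδ S hS p m hper hstep hfar y x (Metric.mem_ball.mp hy)
  exact hlc.apply_eq_of_preconnectedSpace w w'

theorem clopen_sep {Y : Type} [TopologicalSpace Y] [CompactSpace Y] [T2Space Y] (e : Y)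
    (B : Set Y) (hB : IsClosed B) (h : ∀ y ∈ B, y ∉ connectedComponent e) :
    ∃ Z : Set Y, IsClopen Z ∧ e ∈ Z ∧ ∀ y ∈ B, y ∉ Z := by
  have h1 : B ∩ ⋂ s : {s : Set Y // IsClopen s ∧ e ∈ s}, (s : Set Y) = ∅ := by
    rw [← connectedComponent_eq_iInter_isClopen]
    ext y
    exact ⟨fun hy => h y hy.1 hy.2, fun hy => hy.elim⟩
  obtain ⟨u, hu⟩ := hB.isCompact.elim_finite_subfamily_closed
    (fun s : {s : Set Y // IsClopen s ∧ e ∈ s} => (s : Set Y)) (fun s => s.2.1.isClosed) h1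
  refine ⟨⋂ s ∈ u, (s : Set Y), ?_, ?_, ?_⟩
  · exact isClopen_biInter_finset fun s _ => s.2.1
  · rw [Set.mem_iInter₂]
    exact fun s _ => s.2.2
  · intro y hy hyZ
    have : y ∈ B ∩ ⋂ s ∈ u, (s : Set Y) := ⟨hy, hyZ⟩
    rw [hu] at this
    exact this

theorem isClosed_E (δ : ℝ) : IsClosed (E X δ) := by
  unfold E
  exact isClosed_le continuous_const continuous_dist

theorem loc_cover [CompactSpace X]
    (h : ∀ C : Set (X × X), IsConnected C →
          Prod.fst '' C = Set.univ → Prod.snd '' C = Set.univ →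
          ∀ ε : ℝ, 0 < ε → ∃ p ∈ C, dist p.1 p.2 < ε) (δ : ℝ) (hδ : 0 < δ) (e : E X δ) :
    ∃ (Z : Set (E X δ)) (ρ : ℝ), IsClopen Z ∧ e ∈ Z ∧ 0 < ρ ∧
      Good δ ρ (Subtype.val '' Z) ∧ ((∃ w, ∀ x, (x, w) ∉ (Subtype.val '' Z : Set (X × X))) ∨
        (∃ w, ∀ y, (w, y) ∉ (Subtype.val '' Z : Set (X × X)))) := by
  have hEc : IsCompact (E X δ) := (isClosed_E δ).isCompact
  have hcs : CompactSpace (E X δ) := isCompact_iff_compactSpace.1 hEc
  -- from a closed set avoiding the component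
  have key : ∀ B : Set (E X δ), IsClosed B → (∀ y ∈ B, y ∉ connectedComponent e) →
      ∃ (Z : Set (E X δ)) (ρ : ℝ), IsClopen Z ∧ e ∈ Z ∧ 0 < ρ ∧
        Good δ ρ (Subtype.val '' Z) ∧ ∀ y ∈ B, y ∉ Z := by
    intro B hB hBc
    obtain ⟨Z, hZ, heZ, hZB⟩ := clopen_sep e B hB hBc
    have hQ : IsCompact (Subtype.val '' Z : Set (X × X)) :=
      hZ.isClosed.isCompact.image continuous_subtype_val
    have hQ' : IsCompact (Subtype.val '' Zᶜ : Set (X × X)) :=
      hZ.compl.isClosed.isCompact.image continuous_subtype_val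
    have hdisj : Disjoint (Subtype.val '' Z : Set (X × X)) (Subtype.val '' Zᶜ) := by
      rw [Set.disjoint_left]
      rintro _ ⟨a, ha, rfl⟩ ⟨b, hb, hab⟩
      rw [Subtype.val_injective hab] at hb
      exact hb ha
    obtain ⟨ρ, hρ, hth⟩ := hdisj.exists_thickenings hQ hQ'.isClosed
    refine ⟨Z, ρ, hZ, heZ, hρ, ⟨?_, ?_⟩, hZB⟩
    · rintro _ ⟨a, _, rfl⟩
      exact a.2
    · intro p hp q hq hpq
      by_contra hn
      have hq' : q ∈ (Subtype.val '' Zᶜ : Set (X × X)) :=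
        ⟨⟨q, hq⟩, fun hqZ => hn ⟨⟨q, hq⟩, hqZ, rfl⟩, rfl⟩
      rw [Set.disjoint_left] at hth
      apply hth (a := q)
      · rw [Metric.mem_thickening_iff]
        exact ⟨p, hp, by rw [dist_comm]; exact hpq⟩
      · exact Metric.self_subset_thickening hρ _ hq'
  set C : Set (X × X) := Subtype.val '' (connectedComponent e) with hC
  have hCc : IsConnected C := isConnected_connectedComponent.image _
    continuous_subtype_val.continuousOn
  by_cases h1 : Prod.fst '' C = Set.univ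
  · have h2 : Prod.snd '' C ≠ Set.univ := by
      intro h2
      obtain ⟨p, ⟨a, _, rfl⟩, hp⟩ := h C hCc h1 h2 δ hδ
      exact absurd a.2 (not_le.2 hp)
    obtain ⟨w, hw⟩ := (Set.ne_univ_iff_exists_notMem _).1 h2
    obtain ⟨Z, ρ, hZ, heZ, hρ, hG, hZB⟩ := key {y | (y : X × X).2 = w}
      (isClosed_eq (continuous_snd.comp continuous_subtype_val) continuous_const)
      (fun y hy hyc => hw ⟨y, ⟨y, hyc, rfl⟩, hy⟩)
    refine ⟨Z, ρ, hZ, heZ, hρ, hG, Or.inl ⟨w, ?_⟩⟩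
    rintro x ⟨a, ha, hax⟩
    exact hZB a (by change (a : X × X).2 = w; rw [hax]) ha
  · obtain ⟨w, hw⟩ := (Set.ne_univ_iff_exists_notMem _).1 h1
    obtain ⟨Z, ρ, hZ, heZ, hρ, hG, hZB⟩ := key {y | (y : X × X).1 = w}
      (isClosed_eq (continuous_fst.comp continuous_subtype_val) continuous_const)
      (fun y hy hyc => hw ⟨y, ⟨y, hyc, rfl⟩, hy⟩)
    refine ⟨Z, ρ, hZ, heZ, hρ, hG, Or.inr ⟨w, ?_⟩⟩
    rintro x ⟨a, ha, hax⟩
    exact hZB a (by change (a : X × X).1 = w; rw [hax]) ha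

theorem Good_mono {δ ρ ρ' : ℝ} {S : Set (X × X)} (h : Good δ ρ S) (hle : ρ' ≤ ρ) :
    Good δ ρ' S := ⟨h.1, fun p hp q hq hpq => h.2 p hp q hq (lt_of_lt_of_le hpq hle)⟩

/-- J2 -/
theorem cover [CompactSpace X]
    (h : ∀ C : Set (X × X), IsConnected C →
          Prod.fst '' C = Set.univ → Prod.snd '' C = Set.univ →
          ∀ ε : ℝ, 0 < ε → ∃ p ∈ C, dist p.1 p.2 < ε) (δ : ℝ) (hδ : 0 < δ) :
    ∃ ρ : ℝ, 0 < ρ ∧ ∃ F : Finset (Set (X × X)),
      (∀ Q ∈ F, Good δ ρ Q ∧ ((∃ w, ∀ x, (x, w) ∉ Q) ∨ (∃ w, ∀ y, (w, y) ∉ Q))) ∧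
      E X δ ⊆ ⋃ Q ∈ F, Q := by
  classical
  have hEc : IsCompact (E X δ) := (isClosed_E δ).isCompact
  have hcs : CompactSpace (E X δ) := isCompact_iff_compactSpace.1 hEc
  choose Z ρ hZ heZ hρ hG hw using loc_cover h δ hδ
  obtain ⟨t, ht⟩ := CompactSpace.elim_nhds_subcover Z (fun e => (hZ e).isOpen.mem_nhds (heZ e))
  obtain ⟨r, hr, hrle⟩ : ∃ r : ℝ, 0 < r ∧ ∀ e ∈ t, r ≤ ρ e := by
    rcases t.eq_empty_or_nonempty with h0 | h0
    · exact ⟨1, one_pos, fun e he => by rw [h0] at he; exact absurd he (Finset.notMem_empty e)⟩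
    · obtain ⟨e₀, he₀, hmin⟩ := Finset.exists_min_image t ρ h0
      exact ⟨ρ e₀, hρ e₀, hmin⟩
  refine ⟨r, hr, t.image (fun e => (Subtype.val '' (Z e) : Set (X × X))), ?_, ?_⟩
  · intro Q hQ
    obtain ⟨e, he, rfl⟩ := Finset.mem_image.1 hQ
    exact ⟨Good_mono (hG e) (hrle e he), hw e⟩
  · intro p hp
    have h1 : (⟨p, hp⟩ : E X δ) ∈ (⊤ : Set (E X δ)) := trivial
    rw [← ht, Set.mem_iUnion₂] at h1
    obtain ⟨e, he, hpe⟩ := h1
    rw [Set.mem_iUnion₂]
    exact ⟨_, Finset.mem_image.2 ⟨e, he, rfl⟩, ⟨⟨p, hp⟩, hpe, rfl⟩⟩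

/-- J3 -/
theorem exists_chain {Y : Type} [MetricSpace Y] (C : Set Y) (hC : IsPreconnected C) (a b : Y)
    (ha : a ∈ C) (hb : b ∈ C) (ρ : ℝ) (hρ : 0 < ρ) :
    ∃ (m : ℕ) (c : ℕ → Y), c 0 = a ∧ c m = b ∧ (∀ i, c i ∈ C) ∧
      ∀ i, dist (c i) (c (i + 1)) < ρ := by
  classical
  let P : Y → Prop := fun y => ∃ (m : ℕ) (c : ℕ → Y), c 0 = a ∧ c m = y ∧ (∀ i, c i ∈ C) ∧
      ∀ i, dist (c i) (c (i + 1)) < ρ
  have hPa : P a := ⟨0, fun _ => a, rfl, rfl, fun _ => ha, fun _ => by simpa using hρ⟩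
  have hstep : ∀ y z, P y → z ∈ C → dist y z < ρ → P z := by
    rintro y z ⟨m, c, h0, hm, hC', hd⟩ hz hyz
    refine ⟨m + 1, fun i => if i ≤ m then c i else z, by simp [h0], by simp, ?_, ?_⟩
    · intro i
      by_cases h : i ≤ m
      · simpa [h] using hC' i
      · simpa [h] using hz
    · intro i
      by_cases h : i + 1 ≤ m
      · have h' : i ≤ m := by omega
        simp only [h, h', if_true]
        exact hd i
      · by_cases h' : i ≤ m
        · have e : i = m := by omega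
          subst e
          simp only [le_refl, if_true, h, if_false]
          rw [hm]
          exact hyz
        · simp only [h, h', if_false, dist_self]
          exact hρ
  by_contra hne
  have hb' : ¬ P b := hne
  let u : Set Y := ⋃ y ∈ {y | y ∈ C ∧ P y}, Metric.ball y ρ
  let v : Set Y := ⋃ y ∈ {y | y ∈ C ∧ ¬ P y}, Metric.ball y ρ
  have hu : IsOpen u := isOpen_biUnion fun y _ => Metric.isOpen_ball
  have hv : IsOpen v := isOpen_biUnion fun y _ => Metric.isOpen_ball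
  have hcov : C ⊆ u ∪ v := by
    intro y hy
    by_cases h : P y
    · left
      exact mem_biUnion (⟨hy, h⟩ : y ∈ {y | y ∈ C ∧ P y}) (Metric.mem_ball_self hρ)
    · right
      exact mem_biUnion (⟨hy, h⟩ : y ∈ {y | y ∈ C ∧ ¬ P y}) (Metric.mem_ball_self hρ)
  obtain ⟨z, hzC, hzu, hzv⟩ := hC u v hu hv hcov
    ⟨a, ha, mem_biUnion (⟨ha, hPa⟩ : a ∈ {y | y ∈ C ∧ P y}) (Metric.mem_ball_self hρ)⟩
    ⟨b, hb, mem_biUnion (⟨hb, hb'⟩ : b ∈ {y | y ∈ C ∧ ¬ P y}) (Metric.mem_ball_self hρ)⟩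
  simp only [u, v, mem_iUnion, mem_setOf_eq, Metric.mem_ball, exists_prop] at hzu hzv
  obtain ⟨y, ⟨hyC, hyP⟩, hzy⟩ := hzu
  obtain ⟨y', ⟨hyC', hyP'⟩, hzy'⟩ := hzv
  rw [dist_comm] at hzy
  exact hyP' (hstep z y' (hstep y z hyP hzC hzy) hyC' hzy')

/-- J4: cyclic chain -/
theorem exists_cyclic (C : Set (X × X)) (hC : IsPreconnected C) (x y : X)
    (hxy : (x, y) ∈ C) (hyx : (y, x) ∈ C) (r ρ : ℝ) (hρ : 0 < ρ) (hr : 0 < r)
    (hfar : ∀ p ∈ C, r ≤ dist p.1 p.2) :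
    ∃ (m : ℕ) (p : ℕ → X), 0 < m ∧ (∀ i, p (i + 2 * m) = p i) ∧
      (∀ i, dist (p i) (p (i + 1)) < ρ) ∧ (∀ i, r ≤ dist (p i) (p (i + m))) := by
  obtain ⟨m, c, h0, hm, hcC, hstep⟩ := exists_chain C hC (x, y) (y, x) hxy hyx ρ hρ
  have hm0 : 0 < m := by
    rcases Nat.eq_zero_or_pos m with h | h
    · exfalso
      rw [h, h0] at hm
      have h1 : x = y := congrArg Prod.fst hm
      have h2 := hfar _ hxy
      rw [h1, dist_self] at h2
      linarith
    · exact h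
  have hd1 : ∀ i, dist (c i).1 (c (i + 1)).1 < ρ := fun i =>
    lt_of_le_of_lt (by rw [Prod.dist_eq]; exact le_max_left _ _) (hstep i)
  have hd2 : ∀ i, dist (c i).2 (c (i + 1)).2 < ρ := fun i =>
    lt_of_le_of_lt (by rw [Prod.dist_eq]; exact le_max_right _ _) (hstep i)
  refine ⟨m, fun n => if (n / m) % 2 = 0 then (c (n % m)).1 else (c (n % m)).2, hm0, ?_, ?_, ?_⟩
  · intro i
    have e1 : (i + 2 * m) / m = i / m + 2 := by
      rw [mul_comm 2 m, Nat.add_mul_div_left _ _ hm0]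
    have e2 : (i + 2 * m) % m = i % m := by
      rw [Nat.add_mul_mod_self_right]
    have e3 : (i / m + 2) % 2 = i / m % 2 := by omega
    simp only [e1, e2, e3]
  · intro i
    have hlt := Nat.mod_lt i hm0
    have hdm := Nat.div_add_mod i m
    by_cases h1 : i % m + 1 < m
    · have e1 : (i + 1) / m = i / m := by
        apply Nat.div_eq_of_lt_le
        · rw [mul_comm]
          omega
        · rw [mul_comm, Nat.mul_succ]
          omega
      have e2 : (i + 1) % m = i % m + 1 := by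
        have h2 := Nat.div_add_mod (i + 1) m
        rw [e1] at h2
        omega
      simp only [e1, e2]
      split_ifs
      · exact hd1 _
      · exact hd2 _
    · have h2 : i % m + 1 = m := by omega
      have e1 : (i + 1) / m = i / m + 1 := by
        apply Nat.div_eq_of_lt_le
        · rw [mul_comm, Nat.mul_succ]
          omega
        · rw [mul_comm, Nat.mul_succ, Nat.mul_succ]
          omega
      have e2 : (i + 1) % m = 0 := by
        have h3 := Nat.div_add_mod (i + 1) m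
        rw [e1, Nat.mul_succ] at h3
        omega
      simp only [e1, e2, h0]
      have hm' : c (i % m + 1) = (y, x) := by rw [h2, hm]
      rcases Nat.mod_two_eq_zero_or_one (i / m) with h3 | h3
      · rw [if_pos h3, if_neg (by omega)]
        have := hd1 (i % m)
        rwa [hm'] at this
      · rw [if_neg (by omega), if_pos (by omega)]
        have := hd2 (i % m)
        rwa [hm'] at this
  · intro i
    have e1 : (i + m) / m = i / m + 1 := Nat.add_div_right _ hm0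
    have e2 : (i + m) % m = i % m := Nat.add_mod_right _ _
    simp only [e1, e2]
    have h2 := hfar _ (hcC (i % m))
    rcases Nat.mod_two_eq_zero_or_one (i / m) with h3 | h3
    · rw [if_pos h3, if_neg (by omega)]
      exact h2
    · rw [if_neg (by omega), if_pos (by omega), dist_comm]
      exact h2

theorem Good_union {δ ρ : ℝ} {S Q : Set (X × X)} (h1 : Good δ ρ S) (h2 : Good δ ρ Q) :
    Good δ ρ (S ∪ Q) := by
  refine ⟨Set.union_subset h1.1 h2.1, ?_⟩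
  rintro p (hp | hp) q hq hpq
  · exact Or.inl (h1.2 p hp q hq hpq)
  · exact Or.inr (h2.2 p hp q hq hpq)

theorem Good_empty (δ ρ : ℝ) : Good δ ρ (∅ : Set (X × X)) :=
  ⟨Set.empty_subset _, fun p hp => absurd hp (Set.notMem_empty p)⟩

theorem Good_swap {δ ρ : ℝ} {S : Set (X × X)} (h1 : Good δ ρ S) :
    Good δ ρ (Prod.swap ⁻¹' S) := by
  refine ⟨?_, ?_⟩
  · intro p hp
    have := h1.1 hp
    show δ ≤ dist p.1 p.2
    rw [dist_comm]; exact this
  · intro p hp q hq hpq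
    refine h1.2 _ hp q.swap ?_ ?_
    · show δ ≤ dist q.2 q.1
      rw [dist_comm]; exact hq
    · rw [Prod.dist_eq] at hpq ⊢
      simpa [max_comm] using hpq

/-- J8 -/
theorem Ic_family [PreconnectedSpace X] (δ ρ : ℝ) (hδ : 0 < δ) (hρ : 0 < ρ) (hρδ : ρ ≤ δ / 8)
    (S : Set (X × X)) (hS : Good δ ρ S) (F : Finset (Set (X × X)))
    (hF : ∀ Q ∈ F, Good δ ρ Q ∧ ∃ w, ∀ x, (x, w) ∉ Q)
    (p : ℕ → X) (m : ℕ) (hper : ∀ i, p (i + 2 * m) = p i)
    (hstep : ∀ i, dist (p i) (p (i + 1)) < ρ) (hfar : ∀ i, 3 * δ ≤ dist (p i) (p (i + m)))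
    (w : X) : Good δ ρ (S ∪ ⋃ Q ∈ F, Q) ∧ Ic δ (S ∪ ⋃ Q ∈ F, Q) p m w = Ic δ S p m w := by
  classical
  induction F using Finset.induction_on with
  | empty => simpa using hS
  | insert Q F hQ ih =>
    obtain ⟨g1, e1⟩ := ih (fun R hR => hF R (Finset.mem_insert_of_mem hR))
    obtain ⟨g2, w0, hw0⟩ := hF Q (Finset.mem_insert_self Q F)
    have hset : (S ∪ ⋃ R ∈ insert Q F, R) = (S ∪ ⋃ R ∈ F, R) ∪ Q := by
      rw [Finset.set_biUnion_insert]
      ext z; simp only [Set.mem_union]; tauto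
    rw [hset]
    have g3 := Good_union g1 g2
    refine ⟨g3, ?_⟩
    rw [Ic_const δ ρ hδ hρ hρδ _ g3 p m hper hstep hfar w w0, ← e1,
      Ic_const δ ρ hδ hρ hρδ _ g1 p m hper hstep hfar w w0]
    have hu : ∀ x, uS δ ((S ∪ ⋃ R ∈ F, R) ∪ Q) x w0 = uS δ (S ∪ ⋃ R ∈ F, R) x w0 := by
      intro x
      unfold uS
      have : ((x, w0) ∉ (S ∪ ⋃ R ∈ F, R) ∪ Q) ↔ ((x, w0) ∉ (S ∪ ⋃ R ∈ F, R)) := by
        rw [Set.mem_union, not_or]
        exact ⟨fun h => h.1, fun h => ⟨h, hw0 x⟩⟩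
      split_ifs with h1 h2 h2
      · rfl
      · exact absurd ⟨this.1 h1.1, h1.2⟩ h2
      · exact absurd ⟨this.2 h2.1, h2.2⟩ h1
      · rfl
    unfold Ic
    simp only [hu]

theorem uS_self (δ : ℝ) (hδ : 0 < δ) (S : Set (X × X)) (x : X) : uS δ S x x = 0 := by
  unfold uS
  rw [if_neg]
  rintro ⟨-, h⟩
  rw [dist_self] at h
  linarith

theorem uS_swap (δ : ℝ) (S : Set (X × X)) (x y : X) :
    uS δ (Prod.swap ⁻¹' S) x y = uS δ S y x := by
  unfold uS
  rw [dist_comm x y]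
  rfl

/-- J9 -/
theorem Ic_empty (δ ρ : ℝ) (hδ : 0 < δ) (hρ : 0 < ρ) (hρδ : ρ ≤ δ / 8)
    (p : ℕ → X) (m : ℕ)
    (hstep : ∀ i, dist (p i) (p (i + 1)) < ρ) (hfar : ∀ i, 3 * δ ≤ dist (p i) (p (i + m))) :
    Ic δ (∅ : Set (X × X)) p m (p 0) = 1 := by
  have far1 : ∀ x y : X, δ < dist x y → uS δ (∅ : Set (X × X)) x y = 1 := by
    intro x y h
    unfold uS
    rw [if_pos ⟨Set.notMem_empty _, h⟩]
  have key : ∀ i, (uS δ (∅ : Set (X × X)) (p (i + 1)) (p 0) - uS δ (∅ : Set (X × X)) (p i) (p 0)) *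
      uS δ (∅ : Set (X × X)) (p (i + m)) (p 0)
      = uS δ (∅ : Set (X × X)) (p (i + 1)) (p 0) - uS δ (∅ : Set (X × X)) (p i) (p 0) := by
    intro i
    by_cases h : uS δ (∅ : Set (X × X)) (p i) (p 0) = uS δ (∅ : Set (X × X)) (p (i + 1)) (p 0)
    · rw [h]; simp
    · have h1 := uS_sep δ ρ hδ hρ hρδ ∅ (Good_empty δ ρ) (p i) (p 0) (p (i + 1)) (p 0)
        (hstep i) (by rw [dist_self]; exact hρ) h
      have h2 := hfar i
      have h3 : dist (p i) (p (i + m)) ≤ dist (p i) (p 0) + dist (p 0) (p (i + m)) :=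
        dist_triangle _ _ _
      rw [dist_comm (p 0)] at h3
      rw [far1 (p (i + m)) (p 0) (by linarith), mul_one]
  unfold Ic
  rw [Finset.sum_congr rfl (fun i _ => key i), Finset.sum_range_sub (fun i => uS δ (∅ : Set (X × X)) (p i) (p 0)), uS_self δ hδ, far1 (p m) (p 0)]
  · simp
  · have := hfar 0
    rw [zero_add, dist_comm] at this
    linarith

/-- the main theorem -/
theorem main [CompactSpace X] [ConnectedSpace X]
    (h : ∀ C : Set (X × X), IsConnected C →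
          Prod.fst '' C = Set.univ → Prod.snd '' C = Set.univ →
          ∀ ε : ℝ, 0 < ε → ∃ p ∈ C, dist p.1 p.2 < ε)
    (C : Set (X × X)) (hC : IsPreconnected C) (x y : X) (hxy : (x, y) ∈ C) (hyx : (y, x) ∈ C)
    (ε : ℝ) (hε : 0 < ε) : ∃ p ∈ C, dist p.1 p.2 < ε := by
  classical
  by_contra hcon
  push Not at hcon
  set δ : ℝ := ε / 3 with hδdef
  have hδ : 0 < δ := by positivity
  have h3δ : 3 * δ = ε := by rw [hδdef]; ring
  obtain ⟨ρ0, hρ0, F, hF, hcov⟩ := cover h δ hδ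
  set ρ : ℝ := min ρ0 (δ / 8) with hρdef
  have hρ : 0 < ρ := lt_min hρ0 (by positivity)
  have hρδ : ρ ≤ δ / 8 := min_le_right _ _
  have hF' : ∀ Q ∈ F, Good δ ρ Q := fun Q hQ => Good_mono (hF Q hQ).1 (min_le_left _ _)
  obtain ⟨m, p, hm, hper, hstep, hfar⟩ := exists_cyclic C hC x y hxy hyx (3 * δ) ρ hρ
    (by positivity) (fun q hq => by rw [h3δ]; exact hcon q hq)
  set F1 : Finset (Set (X × X)) := F.filter (fun Q => ∃ w, ∀ x, (x, w) ∉ Q) with hF1
  set F2 : Finset (Set (X × X)) := (F.filter (fun Q => ∃ w, ∀ y, (w, y) ∉ Q)).image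
    (fun Q => Prod.swap ⁻¹' Q) with hF2
  set S : Set (X × X) := ∅ ∪ ⋃ Q ∈ F1, Q with hSdef
  obtain ⟨gS, c1⟩ := Ic_family δ ρ hδ hρ hρδ ∅ (Good_empty δ ρ) F1 (by
    intro Q hQ
    rw [hF1, Finset.mem_filter] at hQ
    exact ⟨hF' Q hQ.1, hQ.2⟩) p m hper hstep hfar (p 0)
  rw [Ic_empty δ ρ hδ hρ hρδ p m hstep hfar] at c1
  obtain ⟨gT, c2⟩ := Ic_family δ ρ hδ hρ hρδ (Prod.swap ⁻¹' S) (Good_swap gS) F2 (by
    intro Q hQ
    rw [hF2, Finset.mem_image] at hQ
    obtain ⟨R, hR, rfl⟩ := hQ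
    rw [Finset.mem_filter] at hR
    obtain ⟨w, hw⟩ := hR.2
    exact ⟨Good_swap (hF' R hR.1), w, fun x hx => hw x hx⟩) p m hper hstep hfar (p 0)
  have hall : ∀ x y : X, uS δ (Prod.swap ⁻¹' S ∪ ⋃ Q ∈ F2, Q) x y = 0 := by
    intro x y
    unfold uS
    rw [if_neg]
    rintro ⟨h1, h2⟩
    apply h1
    have h3 : (y, x) ∈ E X δ := by
      show δ ≤ dist y x
      rw [dist_comm]; exact h2.le
    have h4 := hcov h3
    rw [Set.mem_iUnion₂] at h4
    obtain ⟨Q, hQ, hQm⟩ := h4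
    rcases (hF Q hQ).2 with hc | hr
    · left
      show (y, x) ∈ S
      rw [hSdef]
      right
      rw [Set.mem_iUnion₂]
      exact ⟨Q, by rw [hF1, Finset.mem_filter]; exact ⟨hQ, hc⟩, hQm⟩
    · right
      rw [Set.mem_iUnion₂]
      refine ⟨Prod.swap ⁻¹' Q, ?_, hQm⟩
      rw [hF2, Finset.mem_image]
      exact ⟨Q, by rw [Finset.mem_filter]; exact ⟨hQ, hr⟩, rfl⟩
  have c3 : Ic δ (Prod.swap ⁻¹' S ∪ ⋃ Q ∈ F2, Q) p m (p 0) = 0 := by
    unfold Ic
    simp [hall]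
  rw [c3] at c2
  have sepC : ∀ i, uS δ S (p i) (p (i + m)) = uS δ S (p 0) (p m) := by
    intro i
    induction i with
    | zero => rw [zero_add]
    | succ n ih =>
      rw [← ih]
      by_contra hne
      have h5 := uS_sep δ ρ hδ hρ hρδ S gS (p n) (p (n + m)) (p (n + 1)) (p (n + 1 + m))
        (hstep n) (by rw [Nat.add_right_comm]; exact hstep (n + m)) (fun h => hne h.symm)
      have h6 := hfar n
      linarith
  have D := discrete m (fun i j => uS δ S (p i) (p j)) (uS δ S (p 0) (p m))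
    (fun i j => by simp only [hper]) (fun i j => by simp only [hper])
    (fun i => uS_self δ hδ S (p i)) sepC (by
      intro i j
      have := uS_block δ ρ hδ hρ hρδ S gS (p i) (p (i + 1)) (p (i + m)) (p (i + m + 1)) (p j)
        (p (j + 1)) (hstep i) (hstep (i + m)) (hstep j) (hfar i)
      exact this) (by
      intro i j
      have := uS_block δ ρ hδ hρ hρδ (Prod.swap ⁻¹' S) (Good_swap gS) (p j) (p (j + 1))
        (p (j + m)) (p (j + m + 1)) (p i) (p (i + 1)) (hstep j) (hstep (j + m)) (hstep i) (hfar j)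
      simp only [uS_swap] at this
      unfold Const
      rcases this with ⟨a1, a2, a3⟩ | ⟨a1, a2, a3⟩
      · exact Or.inl ⟨a2, a1, a3⟩
      · exact Or.inr ⟨a2, a1, a3⟩)
  have d1 : Ic δ S p m (p 0) = ∑ i ∈ Finset.range m,
      (uS δ S (p (i + 1)) (p 0) - uS δ S (p i) (p 0)) * uS δ S (p (i + m)) (p 0) := by
    unfold Ic
    rw [uS_self δ hδ, zero_mul, add_zero]
  have d2 : Ic δ (Prod.swap ⁻¹' S) p m (p 0) = ∑ i ∈ Finset.range m,
      (uS δ S (p 0) (p (i + 1)) - uS δ S (p 0) (p i)) * uS δ S (p 0) (p (i + m)) := by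
    unfold Ic
    simp only [uS_swap]
    rw [uS_self δ hδ, zero_mul, add_zero]
  have : (1 : ZMod 2) = 0 := by
    calc (1 : ZMod 2) = Ic δ S p m (p 0) := c1.symm
      _ = _ := d1
      _ = _ := D
      _ = Ic δ (Prod.swap ⁻¹' S) p m (p 0) := d2.symm
      _ = 0 := c2.symm
  exact absurd this (by decide)

end Pool.Agent.Helper879.SS
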